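import Pool.Agent.H62.EB3.Sets

/-!
# The case analysis for a primitive three dimensional brick
-/

set_option autoImplicit false

namespace Pool.EB3

open Finset

/-- a face of a primitive brick -/
theorem coverA {c a b X : ℕ} (hc : 0 < c) (ha : 0 < a) (hb : 0 < b) (hcX : c ≤ X)
    (hca : ∃ f : ℕ, a ^ 2 + c ^ 2 = f ^ 2) (hcb : ∃ f : ℕ, b ^ 2 + c ^ 2 = f ^ 2)
    (hab : ∃ f : ℕ, a ^ 2 + b ^ 2 = f ^ 2)
    (hg : ∀ g : ℕ, g ∣ c → g ∣ a → g ∣ b → g = 1)
    (hs : (c / Nat.gcd c a) ^ 5 ≤ 8 * X ^ 4) : (c, a, b) ∈ SA X := by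
  classical
  set d := Nat.gcd c a with hd
  have hd0 : 0 < d := Nat.gcd_pos_of_pos_left _ hc
  obtain ⟨c', hc'⟩ := Nat.gcd_dvd_left c a
  obtain ⟨a', ha'⟩ := Nat.gcd_dvd_right c a
  rw [← hd] at hc' ha'
  have hc'e : c / d = c' := by
    conv_lhs => rw [hc']
    exact Nat.mul_div_cancel_left _ hd0
  have ha'e : a / d = a' := by
    conv_lhs => rw [ha']
    exact Nat.mul_div_cancel_left _ hd0
  rw [hc'e] at hs
  have hc'0 : 0 < c' := by
    rcases Nat.eq_zero_or_pos c' with h0 | h0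
    · rw [h0, mul_zero] at hc'; omega
    · exact h0
  have ha'0 : 0 < a' := by
    rcases Nat.eq_zero_or_pos a' with h0 | h0
    · rw [h0, mul_zero] at ha'; omega
    · exact h0
  have hcop : Nat.Coprime c' a' := by
    have := Nat.coprime_div_gcd_div_gcd (m := c) (n := a) (by rw [← hd]; exact hd0)
    rw [← hd, hc'e, ha'e] at this
    exact this
  obtain ⟨f, hf⟩ := hca
  have hdf : d ∣ f := by
    have h1 : d ^ 2 ∣ f ^ 2 := ⟨a' ^ 2 + c' ^ 2, by
      rw [← hf]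
      conv_lhs => rw [ha', hc']
      ring⟩
    exact (Nat.pow_dvd_pow_iff (by norm_num)).mp h1
  obtain ⟨f', hf'⟩ := hdf
  have hface : a' ^ 2 + c' ^ 2 = f' ^ 2 := by
    have h1 : d ^ 2 * (a' ^ 2 + c' ^ 2) = d ^ 2 * f' ^ 2 := by
      calc d ^ 2 * (a' ^ 2 + c' ^ 2) = (d * a') ^ 2 + (d * c') ^ 2 := by ring
        _ = a ^ 2 + c ^ 2 := by rw [← ha', ← hc']
        _ = f ^ 2 := hf
        _ = (d * f') ^ 2 := by rw [← hf']
        _ = _ := by ring
    exact Nat.eq_of_mul_eq_mul_left (by positivity) h1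
  have hle : a' ≤ c' ^ 2 := edge_le ha'0 hc'0 hface
  have hodd : Odd (c' + a') := by
    by_contra hcon
    rw [Nat.not_odd_iff_even] at hcon
    rcases Nat.even_or_odd c' with he | ho
    · have he' : Even a' := by
        rcases hcon with ⟨k, hk⟩
        rcases he with ⟨j, hj⟩
        exact ⟨k - j, by omega⟩
      have h1 : 2 ∣ Nat.gcd c' a' := Nat.dvd_gcd he.two_dvd he'.two_dvd
      rw [hcop] at h1
      omega
    · have ho' : Odd a' := by
        rcases hcon with ⟨k, hk⟩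
        rcases ho with ⟨j, hj⟩
        exact ⟨k - j - 1, by omega⟩
      obtain ⟨j, hj⟩ := ho
      obtain ⟨i, hi⟩ := ho'
      have h2 : f' % 4 = 0 ∨ f' % 4 = 1 ∨ f' % 4 = 2 ∨ f' % 4 = 3 := by omega
      have h3 : f' ^ 2 = 4 * (i ^ 2 + i + j ^ 2 + j) + 2 := by
        rw [← hface, hj, hi]; ring
      have h4 : f' = 4 * (f' / 4) + f' % 4 := by omega
      set g := f' / 4
      rcases h2 with h2 | h2 | h2 | h2 <;> rw [h2] at h4 <;> rw [h4] at h3 <;> ring_nf at h3 <;>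
        omega
  have hne : a' ≠ c' := by
    rintro rfl
    rcases hodd with ⟨k, hk⟩
    omega
  have hgdb : Nat.gcd d b = 1 := by
    apply hg
    · exact (Nat.gcd_dvd_left _ _).trans (by rw [hd]; exact Nat.gcd_dvd_left _ _)
    · exact (Nat.gcd_dvd_left _ _).trans (by rw [hd]; exact Nat.gcd_dvd_right _ _)
    · exact Nat.gcd_dvd_right _ _
  have hdc : d ≤ c := Nat.le_of_dvd hc (Nat.gcd_dvd_left _ _)
  have hc'c : c' ≤ c := by rw [hc']; exact Nat.le_mul_of_pos_left _ hd0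
  obtain ⟨f2, hf2⟩ := hcb
  have hbX : b ≤ X ^ 2 := (edge_le hb hc hf2).trans (Nat.pow_le_pow_left hcX 2)
  have s1 : ∃ f : ℕ, b ^ 2 + (d * c') ^ 2 = f ^ 2 := ⟨f2, by rw [← hc']; exact hf2⟩
  have s2 : ∃ f : ℕ, b ^ 2 + (d * a') ^ 2 = f ^ 2 := by
    obtain ⟨f3, hf3⟩ := hab
    exact ⟨f3, by rw [← ha', add_comm]; exact hf3⟩
  unfold SA
  rw [Finset.mem_biUnion]
  refine ⟨c', ?_, ?_⟩
  · rw [Finset.mem_filter, Finset.mem_Icc]
    exact ⟨⟨hc'0, hc'c.trans hcX⟩, hs⟩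
  rw [Finset.mem_biUnion]
  refine ⟨a', ?_, ?_⟩
  · rw [Finset.mem_filter]
    exact ⟨mem_fc hc'0 ha'0 ⟨f', hface⟩, ha'0, hle, hcop, hodd⟩
  rw [Finset.mem_image]
  refine ⟨(d, b), ?_, ?_⟩
  · rw [Finset.mem_union]
    by_cases h16 : 16 * d ≤ c'
    · left
      unfold CF
      rw [Finset.mem_filter, Finset.mem_product, Finset.mem_Icc, Finset.mem_Icc]
      exact ⟨⟨⟨hd0, hdc.trans hcX⟩, ⟨hb, hbX⟩⟩, hgdb, h16, s1, s2⟩
    · right
      have h5 : c' ^ 2 ≤ 16 * X := by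
        push Not at h16
        calc c' ^ 2 = c' * c' := by ring
          _ ≤ (16 * d) * c' := Nat.mul_le_mul_right _ h16.le
          _ = 16 * (d * c') := by ring
          _ = 16 * c := by rw [← hc']
          _ ≤ 16 * X := Nat.mul_le_mul_left _ hcX
      rw [if_pos h5]
      exact coverT hc'0 ha'0 hne hd0 hb (by rw [← hc']; exact hcX) hgdb s1 s2
  · refine Prod.ext ?_ (Prod.ext ?_ rfl)
    · exact hc'.symm
    · exact ha'.symm

/-- one large gcd -/
theorem coverD {c a b E p q F r s X : ℕ} (hc : 0 < c) (hcX : c ≤ X) (hne : a ≠ b)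
    (hab : ∃ f : ℕ, a ^ 2 + b ^ 2 = f ^ 2) (h1 : c = E * p * q) (h2 : c = F * r * s)
    (h3 : (2 * (a : ℤ)) ^ 2 = ((E : ℤ) * ((p : ℤ) ^ 2 - (q : ℤ) ^ 2)) ^ 2)
    (h4 : (2 * (b : ℤ)) ^ 2 = ((F : ℤ) * ((r : ℤ) ^ 2 - (s : ℤ) ^ 2)) ^ 2)
    (hs : (c / Nat.gcd p r) ^ 5 ≤ 256 * X ^ 4) : (c, a, b) ∈ SD X := by
  classical
  set z := Nat.gcd p r with hzd
  have hp0 : 0 < p := by
    rcases Nat.eq_zero_or_pos p with h0 | h0
    · subst h0; simp at h1; omega
    · exact h0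
  have hzpos : 0 < z := Nat.gcd_pos_of_pos_left _ hp0
  obtain ⟨p0, hp⟩ := Nat.gcd_dvd_left p r
  obtain ⟨r0, hr⟩ := Nat.gcd_dvd_right p r
  rw [← hzd] at hp hr
  have hcm : c = z * (E * p0 * q) := by rw [h1, hp]; ring
  have hmm : E * p0 * q = F * r0 * s := by
    have h5 : z * (E * p0 * q) = z * (F * r0 * s) := by
      calc z * (E * p0 * q) = c := hcm.symm
        _ = F * (z * r0) * s := by rw [← hr, ← h2]
        _ = _ := by ring
    exact Nat.eq_of_mul_eq_mul_left hzpos h5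
  set m := E * p0 * q with hm
  have hm0 : 0 < m := by
    rcases Nat.eq_zero_or_pos m with h0 | h0
    · rw [h0, mul_zero] at hcm; omega
    · exact h0
  have hdiv : c / z = m := by
    conv_lhs => rw [hcm]
    exact Nat.mul_div_cancel_left _ hzpos
  rw [hdiv] at hs
  have hT : IsT2 c a b m z E p0 q F r0 s := by
    refine ⟨hcm, rfl, hmm, ?_, ?_⟩
    · rw [h3]
      have : (p : ℤ) = z * p0 := by exact_mod_cast hp
      rw [this]; ring
    · rw [h4]
      have : (r : ℤ) = z * r0 := by exact_mod_cast hr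
      rw [this]; ring
  have hmc : m ≤ c := by rw [hcm]; exact Nat.le_mul_of_pos_left _ hzpos
  have hzc : z ≤ c := by rw [hcm]; exact Nat.le_mul_of_pos_right _ hm0
  unfold SD
  rw [Finset.mem_biUnion]
  refine ⟨m, ?_, ?_⟩
  · rw [Finset.mem_filter, Finset.mem_Icc]
    exact ⟨⟨hm0, hmc.trans hcX⟩, hs⟩
  rw [Finset.mem_biUnion]
  exact ⟨![E, p0, q, F, r0, s], mem_DD hm0 rfl hmm, cover2 hT hc hne hzpos (hzc.trans hcX) hab⟩

theorem prime_cases {p x y : ℕ} (hp : p.Prime) (h : (p : ℤ) ∣ (x : ℤ) * (y : ℤ) ^ 2) :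
    p ∣ x ∨ p ∣ y := by
  have h1 : p ∣ x * y ^ 2 := by exact_mod_cast h
  rcases (Nat.Prime.dvd_mul hp).mp h1 with h2 | h2
  · left; exact h2
  · right; exact hp.dvd_of_dvd_pow h2

/-- a large pair of gcds -/
theorem coverC {c a b E p q F r s X : ℕ} (hc : 0 < c) (ha : 0 < a) (hb : 0 < b) (hcX : c ≤ X)
    (hab : ∃ f : ℕ, a ^ 2 + b ^ 2 = f ^ 2) (h1 : c = E * p * q) (h2 : c = F * r * s)
    (h3 : 2 * a + E * q ^ 2 = E * p ^ 2) (h4 : 2 * b + F * s ^ 2 = F * r ^ 2)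
    (hpq : Nat.Coprime p q) (hrs : Nat.Coprime r s)
    (hg : ∀ g : ℕ, g ∣ c → g ∣ a → g ∣ b → g = 1) (hEF : Nat.gcd E F ∣ 2)
    (hz : 64 * (Nat.gcd p s * Nat.gcd q r) ≤ c / (Nat.gcd p s * Nat.gcd q r))
    (hs : (c / (Nat.gcd p s * Nat.gcd q r)) ^ 5 ≤ 8 * X ^ 4) : (c, a, b) ∈ SC X := by
  classical
  have pos_of : ∀ x y : ℕ, c = x * y → 0 < x ∧ 0 < y := by
    intro x y hxy
    constructor
    · rcases Nat.eq_zero_or_pos x with h0 | h0
      · rw [h0, zero_mul] at hxy; omega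
      · exact h0
    · rcases Nat.eq_zero_or_pos y with h0 | h0
      · rw [h0, mul_zero] at hxy; omega
      · exact h0
  have hq0 : 0 < q := (pos_of _ _ h1).2
  have hs0 : 0 < s := (pos_of _ _ h2).2
  have hp0 : 0 < p := (pos_of (E * q) p (by rw [h1]; ring)).2
  have hr0 : 0 < r := (pos_of (F * s) r (by rw [h2]; ring)).2
  have hE0 : 0 < E := (pos_of E (p * q) (by rw [h1]; ring)).1
  have hF0 : 0 < F := (pos_of F (r * s) (by rw [h2]; ring)).1
  set z := Nat.gcd p s with hzd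
  set y := Nat.gcd q r with hyd
  have hzp : 0 < z := Nat.gcd_pos_of_pos_left _ hp0
  have hyp : 0 < y := Nat.gcd_pos_of_pos_left _ hq0
  obtain ⟨p1, hp1⟩ := Nat.gcd_dvd_left p s
  obtain ⟨s1, hs1⟩ := Nat.gcd_dvd_right p s
  obtain ⟨q1, hq1⟩ := Nat.gcd_dvd_left q r
  obtain ⟨r1, hr1⟩ := Nat.gcd_dvd_right q r
  rw [← hzd] at hp1 hs1
  rw [← hyd] at hq1 hr1
  have cps : Nat.Coprime p1 s1 := by
    have := Nat.coprime_div_gcd_div_gcd (m := p) (n := s) (by rw [← hzd]; exact hzp)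
    rw [← hzd] at this
    have e1 : p / z = p1 := by
      conv_lhs => rw [hp1]
      exact Nat.mul_div_cancel_left _ hzp
    have e2 : s / z = s1 := by
      conv_lhs => rw [hs1]
      exact Nat.mul_div_cancel_left _ hzp
    rwa [e1, e2] at this
  have cqr : Nat.Coprime q1 r1 := by
    have := Nat.coprime_div_gcd_div_gcd (m := q) (n := r) (by rw [← hyd]; exact hyp)
    rw [← hyd] at this
    have e1 : q / y = q1 := by
      conv_lhs => rw [hq1]
      exact Nat.mul_div_cancel_left _ hyp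
    have e2 : r / y = r1 := by
      conv_lhs => rw [hr1]
      exact Nat.mul_div_cancel_left _ hyp
    rwa [e1, e2] at this
  have cpq : Nat.Coprime p1 q1 := Nat.Coprime.coprime_dvd_left ⟨z, by rw [hp1]; ring⟩
    (Nat.Coprime.coprime_dvd_right ⟨y, by rw [hq1]; ring⟩ hpq)
  have crs : Nat.Coprime r1 s1 := Nat.Coprime.coprime_dvd_left ⟨y, by rw [hr1]; ring⟩
    (Nat.Coprime.coprime_dvd_right ⟨z, by rw [hs1]; ring⟩ hrs)
  have czy : Nat.Coprime z y := Nat.Coprime.coprime_dvd_left ⟨p1, hp1⟩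
    (Nat.Coprime.coprime_dvd_right ⟨q1, hq1⟩ hpq)
  have hzy : 0 < z * y := Nat.mul_pos hzp hyp
  set m := E * p1 * q1 with hm
  have hcm : c = (z * y) * m := by rw [h1, hp1, hq1, hm]; ring
  have hmm : m = F * r1 * s1 := by
    have h5 : (z * y) * m = (z * y) * (F * r1 * s1) := by
      calc (z * y) * m = c := hcm.symm
        _ = F * (y * r1) * (z * s1) := by rw [← hr1, ← hs1, ← h2]
        _ = _ := by ring
    exact Nat.eq_of_mul_eq_mul_left hzy h5
  have hm0 : 0 < m := (pos_of _ _ hcm).2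
  have hdiv : c / (z * y) = m := by
    conv_lhs => rw [hcm]
    exact Nat.mul_div_cancel_left _ hzy
  rw [hdiv] at hs hz
  have hmc : m ≤ c := by rw [hcm]; exact Nat.le_mul_of_pos_left _ hzy
  have hzc : z ≤ c := by
    rw [hcm]
    calc z = z * 1 * 1 := by ring
      _ ≤ z * y * m := Nat.mul_le_mul (Nat.mul_le_mul_left _ hyp) hm0
  have hyc : y ≤ c := by
    rw [hcm]
    calc y = 1 * y * 1 := by ring
      _ ≤ z * y * m := Nat.mul_le_mul (Nat.mul_le_mul_right _ hzp) hm0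
  -- the four coefficients
  set u := E * p1 ^ 2 with hu
  set v := E * q1 ^ 2 with hv
  set w := F * s1 ^ 2 with hw
  set t := F * r1 ^ 2 with ht
  have e3 : 2 * a + v * y ^ 2 = u * z ^ 2 := by
    have : 2 * a + E * (y * q1) ^ 2 = E * (z * p1) ^ 2 := by rw [← hq1, ← hp1]; exact h3
    calc 2 * a + v * y ^ 2 = 2 * a + E * (y * q1) ^ 2 := by rw [hv]; ring
      _ = E * (z * p1) ^ 2 := this
      _ = _ := by rw [hu]; ring
  have e4 : 2 * b + w * z ^ 2 = t * y ^ 2 := by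
    have : 2 * b + F * (z * s1) ^ 2 = F * (y * r1) ^ 2 := by rw [← hs1, ← hr1]; exact h4
    calc 2 * b + w * z ^ 2 = 2 * b + F * (z * s1) ^ 2 := by rw [hw]; ring
      _ = F * (y * r1) ^ 2 := this
      _ = _ := by rw [ht]; ring
  have e3z : 2 * (a : ℤ) + v * (y : ℤ) ^ 2 = u * (z : ℤ) ^ 2 := by exact_mod_cast e3
  have e4z : 2 * (b : ℤ) + w * (z : ℤ) ^ 2 = t * (y : ℤ) ^ 2 := by exact_mod_cast e4
  have hmz : (m : ℤ) = E * p1 * q1 := by exact_mod_cast hm
  have huz : (u : ℤ) = E * (p1 : ℤ) ^ 2 := by exact_mod_cast hu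
  have hvz : (v : ℤ) = E * (q1 : ℤ) ^ 2 := by exact_mod_cast hv
  have haz : (0 : ℤ) < a := by exact_mod_cast ha
  have hbz : (0 : ℤ) < b := by exact_mod_cast hb
  have hzz : (0 : ℤ) < z := by exact_mod_cast hzp
  have hyz : (0 : ℤ) < y := by exact_mod_cast hyp
  have hmz0 : (0 : ℤ) < m := by exact_mod_cast hm0
  have hEz : (0 : ℤ) < E := by exact_mod_cast hE0
  -- p1 z > q1 y
  have hpqz : (q1 : ℤ) * y < p1 * z := by
    by_contra hcon
    push Not at hcon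
    have k1 : ((p1 : ℤ) * z) ^ 2 ≤ ((q1 : ℤ) * y) ^ 2 :=
      pow_le_pow_left₀ (by positivity) hcon 2
    have k2 : (E : ℤ) * ((p1 : ℤ) * z) ^ 2 ≤ E * ((q1 : ℤ) * y) ^ 2 :=
      mul_le_mul_of_nonneg_left k1 hEz.le
    rw [huz, hvz] at e3z
    nlinarith
  -- 2 b m ≤ z y Δ
  have key : 2 * (b : ℤ) * m ≤ z * y * ((u : ℤ) * t - v * w) := by
    have k1 : (z : ℤ) * y * ((u : ℤ) * t - v * w) - 2 * (b : ℤ) * m =
        E * (p1 * z - q1 * y) * (p1 * t * y + w * q1 * z) := by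
      have k2 : 2 * (b : ℤ) = t * (y : ℤ) ^ 2 - w * (z : ℤ) ^ 2 := by linarith
      rw [k2, hmz, huz, hvz]; ring
    have k3 : (0 : ℤ) ≤ E * (p1 * z - q1 * y) * (p1 * t * y + w * q1 * z) := by
      have : (0 : ℤ) ≤ p1 * z - q1 * y := by linarith
      positivity
    linarith
  have hz64 : 64 * ((z : ℤ) * y) ≤ m := by exact_mod_cast hz
  have hΔpos : (0 : ℤ) < (u : ℤ) * t - v * w := by
    by_contra hcon
    push Not at hcon
    have k1 : (z : ℤ) * y * ((u : ℤ) * t - v * w) ≤ 0 :=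
      mul_nonpos_of_nonneg_of_nonpos (by positivity) hcon
    have k2 : 0 < 2 * (b : ℤ) * m := by positivity
    linarith
  have hB : 64 * (2 * (b : ℤ)) ≤ (u : ℤ) * t - v * w := by
    have k1 : 64 * (2 * (b : ℤ)) * m ≤ ((u : ℤ) * t - v * w) * m := by
      calc 64 * (2 * (b : ℤ)) * m = 64 * (2 * (b : ℤ) * m) := by ring
        _ ≤ 64 * (z * y * ((u : ℤ) * t - v * w)) := by linarith
        _ = (64 * ((z : ℤ) * y)) * ((u : ℤ) * t - v * w) := by ring
        _ ≤ m * ((u : ℤ) * t - v * w) := mul_le_mul_of_nonneg_right hz64 hΔpos.le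
        _ = _ := by ring
    exact le_of_mul_le_mul_right k1 hmz0
  have hΔnat : v * w < u * t := by
    have : (v : ℤ) * w < u * t := by linarith
    exact_mod_cast this
  have hBnat : 64 * (2 * b) + v * w ≤ u * t := by
    have : 64 * (2 * (b : ℤ)) + v * w ≤ u * t := by linarith
    exact_mod_cast this
  -- divisibility facts
  have hdvd_ab : ∀ g : ℕ, g.Prime → g ≠ 2 → g ∣ c → (g : ℤ) ∣ 2 * (a : ℤ) →
      ¬ (g : ℤ) ∣ 2 * (b : ℤ) := by
    intro g hgp hg2 hgc h5 h6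
    have hodd : ∀ x : ℕ, (g : ℤ) ∣ 2 * (x : ℤ) → g ∣ x := by
      intro x hx
      have hx' : g ∣ 2 * x := by exact_mod_cast hx
      rcases (Nat.Prime.dvd_mul hgp).mp hx' with h7 | h7
      · exact absurd ((Nat.prime_dvd_prime_iff_eq hgp Nat.prime_two).mp h7) hg2
      · exact h7
    have := hg g hgc (hodd a h5) (hodd b h6)
    exact hgp.one_lt.ne' this
  have hEc : E ∣ c := ⟨p * q, by rw [h1]; ring⟩
  have hFc : F ∣ c := ⟨r * s, by rw [h2]; ring⟩
  have a2 : 2 * (a : ℤ) = u * (z : ℤ) ^ 2 - v * (y : ℤ) ^ 2 := by linarith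
  have b2 : 2 * (b : ℤ) = t * (y : ℤ) ^ 2 - w * (z : ℤ) ^ 2 := by linarith
  have castd : ∀ {g x : ℕ}, g ∣ x → (g : ℤ) ∣ (x : ℤ) := fun h => by exact_mod_cast h
  have hcond : Cond u v w t := by
    refine ⟨hΔnat, ?_, ?_⟩
    · intro g hgp hg2 hA hC hΔ
      have hpp : Prime (g : ℤ) := Nat.prime_iff_prime_int.mp hgp
      have hg2' : ¬ (g : ℤ) ∣ 2 := by
        intro h
        have h' : g ∣ 2 := by exact_mod_cast h
        exact hg2 ((Nat.prime_dvd_prime_iff_eq hgp Nat.prime_two).mp h')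
      have huv : (u : ℤ) * v = w * t := by
        have k1 : (u : ℤ) * v = (m : ℤ) ^ 2 := by rw [hmz, huz, hvz]; ring
        have k2 : (w : ℤ) * t = (m : ℤ) ^ 2 := by
          have k3 : (m : ℤ) = F * r1 * s1 := by exact_mod_cast hmm
          have k4 : (w : ℤ) = F * (s1 : ℤ) ^ 2 := by exact_mod_cast hw
          have k5 : (t : ℤ) = F * (r1 : ℤ) ^ 2 := by exact_mod_cast ht
          rw [k3, k4, k5]; ring
        rw [k1, k2]
      have hsum : (g : ℤ) ∣ (u : ℤ) * t + v * w := by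
        have k1 : (g : ℤ) ∣ ((u : ℤ) * t + v * w) ^ 2 := by
          have : ((u : ℤ) * t + v * w) ^ 2 = ((u : ℤ) ^ 2 + (w : ℤ) ^ 2) *
              ((v : ℤ) ^ 2 + (t : ℤ) ^ 2) := by
            linear_combination (-(u : ℤ) * v + w * t) * huv
          rw [this]
          exact Dvd.dvd.mul_right hA _
        exact hpp.dvd_of_dvd_pow k1
      have hut : (g : ℤ) ∣ 2 * ((u : ℤ) * t) := by
        have : 2 * ((u : ℤ) * t) = ((u : ℤ) * t + v * w) + ((u : ℤ) * t - v * w) := by ring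
        rw [this]
        exact dvd_add hsum hΔ
      have hsqd : ∀ x y : ℤ, (g : ℤ) ∣ x ^ 2 + y ^ 2 → (g : ℤ) ∣ x → (g : ℤ) ∣ y := by
        intro x y h5 h6
        have : (g : ℤ) ∣ y ^ 2 := by
          have k1 : y ^ 2 = (x ^ 2 + y ^ 2) - x ^ 2 := by ring
          rw [k1]
          exact dvd_sub h5 (h6.trans (dvd_pow_self x (by norm_num)))
        exact hpp.dvd_of_dvd_pow this
      have hE_case : g ∣ E → (g : ℤ) ∣ 2 * (a : ℤ) := by
        intro h
        rw [a2]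
        have k1 : (g : ℤ) ∣ (u : ℤ) := castd (h.trans (Dvd.intro _ hu.symm))
        have k2 : (g : ℤ) ∣ (v : ℤ) := castd (h.trans (Dvd.intro _ hv.symm))
        exact dvd_sub (Dvd.dvd.mul_right k1 _) (Dvd.dvd.mul_right k2 _)
      have hF_case : g ∣ F → (g : ℤ) ∣ 2 * (b : ℤ) := by
        intro h
        rw [b2]
        have k1 : (g : ℤ) ∣ (t : ℤ) := castd (h.trans (Dvd.intro _ ht.symm))
        have k2 : (g : ℤ) ∣ (w : ℤ) := castd (h.trans (Dvd.intro _ hw.symm))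
        exact dvd_sub (Dvd.dvd.mul_right k1 _) (Dvd.dvd.mul_right k2 _)
      have hcopr : ∀ x y : ℕ, Nat.Coprime x y → g ∣ x → ¬ g ∣ y := by
        intro x y hxy h5 h6
        have := Nat.dvd_gcd h5 h6
        rw [hxy] at this
        exact hgp.one_lt.ne' (Nat.dvd_one.mp this)
      have cases_ut : (g : ℤ) ∣ (u : ℤ) ∨ (g : ℤ) ∣ (t : ℤ) := by
        rcases hpp.dvd_or_dvd hut with h5 | h5
        · exact absurd h5 hg2'
        · exact hpp.dvd_or_dvd h5
      rcases cases_ut with hgu | hgt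
      · have hgw : (g : ℤ) ∣ (w : ℤ) := hsqd _ _ hA hgu
        rcases prime_cases hgp (by rw [← huz]; exact hgu) with h5 | h5
        · -- g | E
          have hgv : (g : ℤ) ∣ (v : ℤ) := castd (h5.trans (Dvd.intro _ hv.symm))
          have hgt : (g : ℤ) ∣ (t : ℤ) := hsqd _ _ hC hgv
          apply hdvd_ab g hgp hg2 (h5.trans hEc) (hE_case h5)
          rw [b2]
          exact dvd_sub (Dvd.dvd.mul_right hgt _) (Dvd.dvd.mul_right hgw _)
        · -- g | p1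
          have hwz : (w : ℤ) = F * (s1 : ℤ) ^ 2 := by exact_mod_cast hw
          rcases prime_cases hgp (by rw [← hwz]; exact hgw) with h6 | h6
          · have hgt : (g : ℤ) ∣ (t : ℤ) := castd (h6.trans (Dvd.intro _ ht.symm))
            have hgv : (g : ℤ) ∣ (v : ℤ) := hsqd _ _ (by rw [add_comm]; exact hC) hgt
            apply hdvd_ab g hgp hg2 (h6.trans hFc) _ (hF_case h6)
            rw [a2]
            exact dvd_sub (Dvd.dvd.mul_right hgu _) (Dvd.dvd.mul_right hgv _)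
          · exact hcopr _ _ cps h5 h6
      · have hgv : (g : ℤ) ∣ (v : ℤ) := hsqd _ _ (by rw [add_comm]; exact hC) hgt
        have htz : (t : ℤ) = F * (r1 : ℤ) ^ 2 := by exact_mod_cast ht
        rcases prime_cases hgp (by rw [← htz]; exact hgt) with h5 | h5
        · -- g | F
          have hgw : (g : ℤ) ∣ (w : ℤ) := castd (h5.trans (Dvd.intro _ hw.symm))
          have hgu : (g : ℤ) ∣ (u : ℤ) := hsqd _ _ (by rw [add_comm]; exact hA) hgw
          apply hdvd_ab g hgp hg2 (h5.trans hFc) _ (hF_case h5)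
          rw [a2]
          exact dvd_sub (Dvd.dvd.mul_right hgu _) (Dvd.dvd.mul_right hgv _)
        · -- g | r1
          rcases prime_cases hgp (by rw [← hvz]; exact hgv) with h6 | h6
          · have hgu : (g : ℤ) ∣ (u : ℤ) := castd (h6.trans (Dvd.intro _ hu.symm))
            have hgw : (g : ℤ) ∣ (w : ℤ) := hsqd _ _ hA hgu
            apply hdvd_ab g hgp hg2 (h6.trans hEc) (hE_case h6)
            rw [b2]
            exact dvd_sub (Dvd.dvd.mul_right hgt _) (Dvd.dvd.mul_right hgw _)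
          · exact hcopr _ _ cqr h6 h5
    · -- Bezout
      have k1 : IsCoprime ((s1 : ℤ) ^ 2) ((r1 : ℤ) ^ 2) :=
        (Nat.isCoprime_iff_coprime.mpr crs.symm).pow
      have k2 : IsCoprime ((p1 : ℤ) ^ 2) ((q1 : ℤ) ^ 2) :=
        (Nat.isCoprime_iff_coprime.mpr cpq).pow
      obtain ⟨x1, x2, hx⟩ := k1
      obtain ⟨y1, y2, hy⟩ := k2
      have hb := Int.gcd_eq_gcd_ab (E : ℤ) (F : ℤ)
      have hgg : Int.gcd (E : ℤ) (F : ℤ) = Nat.gcd E F := rfl
      rw [hgg] at hb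
      obtain ⟨k, hk⟩ := hEF
      have hk' : (2 : ℤ) = (Nat.gcd E F : ℤ) * k := by exact_mod_cast hk
      have hwz : (w : ℤ) = F * (s1 : ℤ) ^ 2 := by exact_mod_cast hw
      have htz : (t : ℤ) = F * (r1 : ℤ) ^ 2 := by exact_mod_cast ht
      set A := Int.gcdA (E : ℤ) (F : ℤ)
      set B := Int.gcdB (E : ℤ) (F : ℤ)
      refine ⟨2 * k * B * x1, 2 * k * B * x2, k * A * y1, k * A * y2, ?_⟩
      calc 2 * k * B * x1 * w + 2 * k * B * x2 * t + k * A * y1 * (2 * u) + k * A * y2 * (2 * v)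
          = 2 * k * (B * F * (x1 * (s1 : ℤ) ^ 2 + x2 * (r1 : ℤ) ^ 2) +
            A * E * (y1 * (p1 : ℤ) ^ 2 + y2 * (q1 : ℤ) ^ 2)) := by
            rw [hwz, htz, huz, hvz]; ring
        _ = 2 * k * (E * A + F * B) := by rw [hx, hy]; ring
        _ = 2 * ((Nat.gcd E F : ℤ) * k) := by rw [← hb]; ring
        _ = 4 := by rw [← hk']; norm_num
  unfold SC
  rw [Finset.mem_biUnion]
  refine ⟨m, ?_, ?_⟩
  · rw [Finset.mem_filter, Finset.mem_Icc]
    exact ⟨⟨hm0, hmc.trans hcX⟩, hs⟩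
  rw [Finset.mem_biUnion]
  refine ⟨![E, p1, q1, F, r1, s1], mem_DD hm0 rfl hmm, ?_⟩
  show (c, a, b) ∈ (if Cond u v w t then
    (PR2 X u v w t).image (fun z : ℕ × ℕ =>
    (z.1 * z.2 * m, (u * z.1 ^ 2 - v * z.2 ^ 2) / 2, (t * z.2 ^ 2 - w * z.1 ^ 2) / 2)) else ∅)
  rw [if_pos hcond, Finset.mem_image]
  refine ⟨(z, y), ?_, ?_⟩
  · unfold PR2
    rw [Finset.mem_filter, Finset.mem_product, Finset.mem_Icc, Finset.mem_Icc]
    obtain ⟨f, hf⟩ := hab
    refine ⟨⟨⟨hzp, hzc.trans hcX⟩, ⟨hyp, hyc.trans hcX⟩⟩, czy, 2 * a, 2 * b, 2 * f, by omega,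
      by omega, e3, e4, ?_, hBnat⟩
    calc (2 * a) ^ 2 + (2 * b) ^ 2 = 4 * (a ^ 2 + b ^ 2) := by ring
      _ = 4 * f ^ 2 := by rw [hf]
      _ = _ := by ring
  · refine Prod.ext ?_ (Prod.ext ?_ ?_)
    · exact hcm.symm
    · show (u * z ^ 2 - v * y ^ 2) / 2 = a
      rw [← e3]
      have : 2 * a + v * y ^ 2 - v * y ^ 2 = 2 * a := Nat.add_sub_cancel _ _
      rw [this]
      exact Nat.mul_div_cancel_left _ (by norm_num)
    · show (t * y ^ 2 - w * z ^ 2) / 2 = b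
      rw [← e4]
      have : 2 * b + w * z ^ 2 - w * z ^ 2 = 2 * b := Nat.add_sub_cancel _ _
      rw [this]
      exact Nat.mul_div_cancel_left _ (by norm_num)

end Pool.EB3
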