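import Pool.Agent.H93.BT.Divb

/-!
# Pythagorean data, the nine gcds, differences of squares
-/

set_option autoImplicit false

namespace Pool.EB3

open Finset

open Classical in
/-- the set of `z ≤ N` with square values -/
noncomputable def SQ (N : ℕ) (A B D : ℤ) : Finset ℕ :=
  (Icc 1 N).filter (fun z : ℕ => IsSquare (A * (z : ℤ) ^ 4 + B * (z : ℤ) ^ 2 + D))


/-- parametrisation -/
theorem pyt {a c f : ℕ} (ha : 0 < a) (hc : 0 < c) (h : a ^ 2 + c ^ 2 = f ^ 2) :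
    ∃ E p q : ℕ, 0 < E ∧ 0 < p ∧ 0 < q ∧ c = E * p * q ∧ 2 * a + E * q ^ 2 = E * p ^ 2 ∧
      Nat.Coprime p q := by
  have hfa : a < f := by
    by_contra hcon
    push Not at hcon
    have : f ^ 2 ≤ a ^ 2 := Nat.pow_le_pow_left hcon 2
    have : 0 < c ^ 2 := by positivity
    omega
  obtain ⟨t, rfl⟩ := Nat.exists_eq_add_of_lt hfa
  set u := t + 1 with hu
  have hf : a + t + 1 = a + u := by omega
  rw [hf] at h
  -- (2a + u) * u = c^2
  have hprod : (2 * a + u) * u = c ^ 2 := by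
    have : a ^ 2 + c ^ 2 = (a + u) ^ 2 := h
    nlinarith
  set g := Nat.gcd (2 * a + u) c with hg
  have hgpos : 0 < g := Nat.gcd_pos_of_pos_right _ hc
  obtain ⟨p, hp⟩ := Nat.gcd_dvd_left (2 * a + u) c
  obtain ⟨q, hq⟩ := Nat.gcd_dvd_right (2 * a + u) c
  rw [← hg] at hp hq
  have hcop : Nat.Coprime p q := by
    have h1 := Nat.coprime_div_gcd_div_gcd (m := 2 * a + u) (n := c) (by rw [← hg]; exact hgpos)
    rw [← hg] at h1
    have e1 : (2 * a + u) / g = p := by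
      rw [hp]; exact Nat.mul_div_cancel_left p hgpos
    have e2 : c / g = q := by
      rw [hq]; exact Nat.mul_div_cancel_left q hgpos
    rwa [e1, e2] at h1
  have hq0 : 0 < q := by
    rcases Nat.eq_zero_or_pos q with h0 | h0
    · rw [h0] at hq; omega
    · exact h0
  have hp0 : 0 < p := by
    rcases Nat.eq_zero_or_pos p with h0 | h0
    · rw [h0] at hp; omega
    · exact h0
  -- p * u = g * q^2
  have h2 : p * u = g * q ^ 2 := by
    have h3 : g * (p * u) = g * (g * q ^ 2) := by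
      calc g * (p * u) = (g * p) * u := by ring
        _ = (2 * a + u) * u := by rw [← hp]
        _ = c ^ 2 := hprod
        _ = (g * q) ^ 2 := by rw [← hq]
        _ = _ := by ring
    exact Nat.eq_of_mul_eq_mul_left hgpos h3
  have h3 : p ∣ g := by
    have h4 : p ∣ g * q ^ 2 := ⟨u, h2.symm⟩
    exact Nat.Coprime.dvd_of_dvd_mul_right (Nat.Coprime.pow_right 2 hcop) h4
  obtain ⟨E, hE⟩ := h3
  have hE0 : 0 < E := by
    rcases Nat.eq_zero_or_pos E with h0 | h0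
    · rw [h0] at hE; omega
    · exact h0
  have hu2 : u = E * q ^ 2 := by
    have h4 : p * u = p * (E * q ^ 2) := by rw [h2, hE]; ring
    exact Nat.eq_of_mul_eq_mul_left hp0 h4
  refine ⟨E, p, q, hE0, hp0, hq0, ?_, ?_, hcop⟩
  · calc c = g * q := hq
      _ = _ := by rw [hE]; ring
  · rw [← hu2, hp, hE]; ring

theorem edge_le {a c f : ℕ} (ha : 0 < a) (hc : 0 < c) (h : a ^ 2 + c ^ 2 = f ^ 2) : a ≤ c ^ 2 := by
  have hfa : a < f := by
    by_contra hcon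
    push Not at hcon
    have : f ^ 2 ≤ a ^ 2 := Nat.pow_le_pow_left hcon 2
    have : 0 < c ^ 2 := by positivity
    omega
  nlinarith

theorem not_double {a f : ℕ} (ha : 0 < a) : a ^ 2 + a ^ 2 ≠ f ^ 2 := by
  intro h
  have h1 : ¬ Irrational (Real.sqrt 2) := by
    intro hirr
    apply hirr
    refine ⟨(f : ℚ) / a, ?_⟩
    have ha' : (0 : ℝ) < a := by exact_mod_cast ha
    have h2 : (2 : ℝ) = ((f : ℝ) / a) ^ 2 := by
      rw [div_pow, eq_div_iff (by positivity)]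
      have : ((a ^ 2 + a ^ 2 : ℕ) : ℝ) = ((f ^ 2 : ℕ) : ℝ) := by rw [h]
      push_cast at this
      linarith
    rw [h2, Real.sqrt_sq (by positivity)]
    push_cast
    rfl
  exact h1 irrational_sqrt_two

theorem gcd_row {x y1 y2 y3 : ℕ} (h : x ∣ y1 * y2 * y3) :
    x ∣ Nat.gcd x y1 * Nat.gcd x y2 * Nat.gcd x y3 := by
  have h1 : x = Nat.gcd x (y1 * y2 * y3) := (Nat.gcd_eq_left h).symm
  have h2 : Nat.gcd x (y1 * y2 * y3) ∣ Nat.gcd x (y1 * y2) * Nat.gcd x y3 :=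
    Nat.gcd_mul_right_dvd_mul_gcd _ _ _
  have h3 : Nat.gcd x (y1 * y2) ∣ Nat.gcd x y1 * Nat.gcd x y2 := Nat.gcd_mul_right_dvd_mul_gcd _ _ _
  calc x = Nat.gcd x (y1 * y2 * y3) := h1
    _ ∣ Nat.gcd x (y1 * y2) * Nat.gcd x y3 := h2
    _ ∣ _ := Nat.mul_dvd_mul_right h3 _

/-- differences of squares -/
theorem t1 (N : ℕ) (M B L : ℤ) (hM : M ≠ 0) (hD : 4 * M ^ 2 * L ^ 2 - B ^ 2 ≠ 0) :
    (SQ N (M ^ 2) B (L ^ 2)).card ≤ 2 * (4 * M ^ 2 * L ^ 2 - B ^ 2).natAbs.divisors.card := by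
  classical
  set D := 4 * M ^ 2 * L ^ 2 - B ^ 2 with hDd
  have hex : ∀ z : ℕ, ∃ y : ℤ, z ∈ SQ N (M ^ 2) B (L ^ 2) →
      M ^ 2 * (z : ℤ) ^ 4 + B * (z : ℤ) ^ 2 + L ^ 2 = y * y := by
    intro z
    by_cases hz : z ∈ SQ N (M ^ 2) B (L ^ 2)
    · have hz' := hz
      unfold SQ at hz'
      rw [Finset.mem_filter] at hz'
      obtain ⟨y, hy⟩ := hz'.2
      exact ⟨y, fun _ => hy⟩
    · exact ⟨0, fun h => absurd h hz⟩
  choose y hy using hex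
  set T : Finset ℤ := D.natAbs.divisors.image (fun n : ℕ => (n : ℤ)) ∪
    D.natAbs.divisors.image (fun n : ℕ => -(n : ℤ)) with hT
  have hTc : T.card ≤ 2 * D.natAbs.divisors.card := by
    calc T.card ≤ _ := Finset.card_union_le _ _
      _ ≤ D.natAbs.divisors.card + D.natAbs.divisors.card :=
          Nat.add_le_add Finset.card_image_le Finset.card_image_le
      _ = _ := by ring
  refine le_trans ?_ hTc
  have key : ∀ z ∈ SQ N (M ^ 2) B (L ^ 2),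
      (2 * M * y z + (2 * M ^ 2 * (z : ℤ) ^ 2 + B)) *
        (2 * M * y z - (2 * M ^ 2 * (z : ℤ) ^ 2 + B)) = D := by
    intro z hz
    have h1 := hy z hz
    have h2 : 4 * M ^ 2 * (y z * y z) = 4 * M ^ 2 * (M ^ 2 * (z : ℤ) ^ 4 + B * (z : ℤ) ^ 2 + L ^ 2) := by
      rw [h1]
    rw [hDd]
    linear_combination h2
  refine Finset.card_le_card_of_injOn
    (fun z : ℕ => 2 * M * y z + (2 * M ^ 2 * (z : ℤ) ^ 2 + B)) ?_ ?_
  · intro z hz
    have hz' : z ∈ SQ N (M ^ 2) B (L ^ 2) := hz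
    have h1 := key z hz'
    set d := 2 * M * y z + (2 * M ^ 2 * (z : ℤ) ^ 2 + B) with hd
    have hdvd : d ∣ D := ⟨_, h1.symm⟩
    have h2 : d.natAbs ∈ D.natAbs.divisors := by
      rw [Nat.mem_divisors]
      exact ⟨Int.natAbs_dvd_natAbs.mpr hdvd, Int.natAbs_ne_zero.mpr hD⟩
    show d ∈ (T : Set ℤ)
    rw [Finset.mem_coe, hT, Finset.mem_union, Finset.mem_image, Finset.mem_image]
    rcases Int.natAbs_eq d with h3 | h3
    · left; exact ⟨d.natAbs, h2, h3.symm⟩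
    · right; exact ⟨d.natAbs, h2, h3.symm⟩
  · intro z hz z' hz' heq
    have hz1 : z ∈ SQ N (M ^ 2) B (L ^ 2) := hz
    have hz2 : z' ∈ SQ N (M ^ 2) B (L ^ 2) := hz'
    have h1 := key z hz1
    have h2 := key z' hz2
    simp only at heq
    have hne : 2 * M * y z + (2 * M ^ 2 * (z : ℤ) ^ 2 + B) ≠ 0 := by
      intro h0
      rw [h0, zero_mul] at h1
      exact hD h1.symm
    rw [← heq] at h2
    have h3 : 2 * M * y z - (2 * M ^ 2 * (z : ℤ) ^ 2 + B) =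
        2 * M * y z' - (2 * M ^ 2 * (z' : ℤ) ^ 2 + B) :=
      mul_left_cancel₀ hne (h1.trans h2.symm)
    have h4 : 4 * M ^ 2 * (z : ℤ) ^ 2 = 4 * M ^ 2 * (z' : ℤ) ^ 2 := by
      linear_combination heq - h3
    have h5 : (4 * M ^ 2 : ℤ) ≠ 0 := by positivity
    have h6 : (z : ℤ) ^ 2 = (z' : ℤ) ^ 2 := mul_left_cancel₀ h5 h4
    have h7 : z ^ 2 = z' ^ 2 := by exact_mod_cast h6
    exact Nat.pow_left_injective (n := 2) (by norm_num) h7

/-- divisor bound for integers of polynomial size -/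
theorem divb (ε : ℝ) (hε : 0 < ε) (K : ℕ) : ∃ C : ℝ, 1 ≤ C ∧ ∀ (X : ℕ) (W : ℤ), 1 ≤ X → W ≠ 0 →
    |W| ≤ (100 * (X : ℤ)) ^ K → (W.natAbs.divisors.card : ℝ) ≤ C * (X : ℝ) ^ ε := by
  obtain ⟨C3, hC3, h3⟩ := Pool.Agent.H93.BT.divisor_bound (ε / (K + 1)) (by positivity)
  refine ⟨C3 * (100 : ℝ) ^ ε, ?_, ?_⟩
  · have : (1 : ℝ) ≤ (100 : ℝ) ^ ε := Real.one_le_rpow (by norm_num) hε.le
    nlinarith
  intro X W hX hW hWX
  have hX1 : (1 : ℝ) ≤ X := by exact_mod_cast hX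
  have hX0 : (0 : ℝ) < X := by linarith
  have h6 := h3 W.natAbs (Int.natAbs_ne_zero.mpr hW)
  have hWX' : ((W.natAbs : ℕ) : ℝ) ≤ (100 * (X : ℝ)) ^ K := by
    rw [Nat.cast_natAbs]
    exact_mod_cast hWX
  have h7 : ((W.natAbs : ℕ) : ℝ) ^ (ε / (K + 1)) ≤ (100 : ℝ) ^ ε * (X : ℝ) ^ ε := by
    have h100 : (1 : ℝ) ≤ 100 * X := by linarith
    calc ((W.natAbs : ℕ) : ℝ) ^ (ε / (K + 1))
        ≤ ((100 * (X : ℝ)) ^ K) ^ (ε / ((K : ℝ) + 1)) :=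
          Real.rpow_le_rpow (Nat.cast_nonneg _) hWX' (by positivity)
      _ = (100 * (X : ℝ)) ^ ((K : ℝ) * (ε / ((K : ℝ) + 1))) := by
          rw [← Real.rpow_natCast, ← Real.rpow_mul (by linarith)]
      _ ≤ (100 * (X : ℝ)) ^ ε := by
          apply Real.rpow_le_rpow_of_exponent_le h100
          have hK : (0 : ℝ) ≤ K := Nat.cast_nonneg _
          rw [← mul_div_assoc, div_le_iff₀ (by positivity)]
          nlinarith
      _ = (100 : ℝ) ^ ε * (X : ℝ) ^ ε := Real.mul_rpow (by norm_num) hX0.le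
  calc (W.natAbs.divisors.card : ℝ) ≤ C3 * ((W.natAbs : ℕ) : ℝ) ^ (ε / (K + 1)) := h6
    _ ≤ C3 * ((100 : ℝ) ^ ε * (X : ℝ) ^ ε) := mul_le_mul_of_nonneg_left h7 (by linarith)
    _ = _ := by ring

theorem t1b (ε : ℝ) (hε : 0 < ε) (K : ℕ) : ∃ C : ℝ, 1 ≤ C ∧ ∀ (X N : ℕ) (M B L : ℤ), 1 ≤ X →
    M ≠ 0 → 4 * M ^ 2 * L ^ 2 - B ^ 2 ≠ 0 →
    |4 * M ^ 2 * L ^ 2 - B ^ 2| ≤ (100 * (X : ℤ)) ^ K →
    ((SQ N (M ^ 2) B (L ^ 2)).card : ℝ) ≤ C * (X : ℝ) ^ ε := by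
  obtain ⟨C, hC, h⟩ := divb ε hε K
  refine ⟨2 * C, by linarith, fun X N M B L hX hM hD hb => ?_⟩
  have h1 := t1 N M B L hM hD
  have h2 := h X _ hX hD hb
  have h3 : ((SQ N (M ^ 2) B (L ^ 2)).card : ℝ) ≤
      2 * ((4 * M ^ 2 * L ^ 2 - B ^ 2).natAbs.divisors.card : ℝ) := by exact_mod_cast h1
  linarith

theorem card_bi {α β : Type*} [DecidableEq β] (s : Finset α) (f : α → Finset β) (b : α → ℝ)
    (h : ∀ a ∈ s, ((f a).card : ℝ) ≤ b a) : ((s.biUnion f).card : ℝ) ≤ ∑ a ∈ s, b a := by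
  calc ((s.biUnion f).card : ℝ) ≤ ((∑ a ∈ s, (f a).card : ℕ) : ℝ) := by
        exact_mod_cast Finset.card_biUnion_le
    _ = ∑ a ∈ s, ((f a).card : ℝ) := by push_cast; rfl
    _ ≤ _ := Finset.sum_le_sum h

theorem card_bi' {α β : Type*} [DecidableEq β] (s : Finset α) (f : α → Finset β) (b : ℝ)
    (h : ∀ a ∈ s, ((f a).card : ℝ) ≤ b) : ((s.biUnion f).card : ℝ) ≤ s.card * b := by
  have := card_bi s f (fun _ => b) h
  rwa [Finset.sum_const, nsmul_eq_mul] at this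

theorem sqeq {a E p q : ℕ} (h : 2 * a + E * q ^ 2 = E * p ^ 2) :
    (2 * (a : ℤ)) ^ 2 = ((E : ℤ) * ((p : ℤ) ^ 2 - (q : ℤ) ^ 2)) ^ 2 := by
  have h1 : (2 * (a : ℤ)) + E * (q : ℤ) ^ 2 = E * (p : ℤ) ^ 2 := by exact_mod_cast h
  have h2 : (2 * (a : ℤ)) = (E : ℤ) * ((p : ℤ) ^ 2 - (q : ℤ) ^ 2) := by linear_combination h1
  rw [h2]

theorem sqswap {a E p q : ℕ}
    (h : (2 * (a : ℤ)) ^ 2 = ((E : ℤ) * ((p : ℤ) ^ 2 - (q : ℤ) ^ 2)) ^ 2) :
    (2 * (a : ℤ)) ^ 2 = ((E : ℤ) * ((q : ℤ) ^ 2 - (p : ℤ) ^ 2)) ^ 2 := by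
  rw [h]; ring

theorem half {a : ℕ} {w : ℤ} (h : (2 * (a : ℤ)) ^ 2 = w ^ 2) : w.natAbs / 2 = a := by
  have h1 : (2 * (a : ℤ)).natAbs = w.natAbs := Int.natAbs_eq_iff_sq_eq.mpr h
  rw [← h1, Int.natAbs_mul]
  simp

end Pool.EB3
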