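import Pool.Agent.H62.EB3.Rep

/-!
# Concordant forms: few small solutions
-/

set_option autoImplicit false

namespace Pool.EB3

open Finset

open Classical in
/-- pairs `(d, e)` with `16 d ≤ c` -/
noncomputable def CF (X c a : ℕ) : Finset (ℕ × ℕ) :=
  ((Icc 1 X) ×ˢ (Icc 1 (X ^ 2))).filter (fun v => Nat.gcd v.1 v.2 = 1 ∧ 16 * v.1 ≤ c ∧
    (∃ f : ℕ, v.2 ^ 2 + (v.1 * c) ^ 2 = f ^ 2) ∧ (∃ f : ℕ, v.2 ^ 2 + (v.1 * a) ^ 2 = f ^ 2))

/-- signed divisors -/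
noncomputable def sdiv (W : ℤ) : Finset ℤ :=
  W.natAbs.divisors.image (fun n : ℕ => (n : ℤ)) ∪
    W.natAbs.divisors.image (fun n : ℕ => -(n : ℤ))

theorem mem_sdiv {W k : ℤ} (hW : W ≠ 0) (hk : k ∣ W) : k ∈ sdiv W := by
  have h3 : k.natAbs ∈ W.natAbs.divisors := by
    rw [Nat.mem_divisors]
    exact ⟨Int.natAbs_dvd_natAbs.mpr hk, Int.natAbs_ne_zero.mpr hW⟩
  unfold sdiv
  rw [Finset.mem_union, Finset.mem_image, Finset.mem_image]
  rcases Int.natAbs_eq k with h4 | h4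
  · left; exact ⟨k.natAbs, h3, h4.symm⟩
  · right; exact ⟨k.natAbs, h3, h4.symm⟩

theorem card_sdiv (W : ℤ) : (sdiv W).card ≤ 2 * W.natAbs.divisors.card := by
  unfold sdiv
  calc _ ≤ _ := Finset.card_union_le _ _
    _ ≤ W.natAbs.divisors.card + W.natAbs.divisors.card :=
        Nat.add_le_add Finset.card_image_le Finset.card_image_le
    _ = _ := by ring

theorem CF_card (ε : ℝ) (hε : 0 < ε) : ∃ C : ℝ, 1 ≤ C ∧ ∀ (X c a : ℕ), 1 ≤ X → 1 ≤ c → c ≤ X →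
    1 ≤ a → a ≤ c ^ 2 → Nat.Coprime c a → Odd (c + a) →
    ((CF X c a).card : ℝ) ≤ C * (X : ℝ) ^ ε := by
  classical
  obtain ⟨C1, hC1, h1⟩ := divb (ε / 8) (by positivity) 4
  obtain ⟨C2, hC2, h2⟩ := LB_small (ε / 8) (by positivity) 1
  refine ⟨16 * (C1 ^ 6 * C2 ^ 2), ?_, ?_⟩
  · have e1 : 1 ≤ C1 ^ 6 := one_le_pow₀ hC1
    have e2 : 1 ≤ C2 ^ 2 := one_le_pow₀ hC2
    nlinarith
  intro X c a hX hc hcX ha hac hcop hodd
  have hX1 : (1 : ℝ) ≤ X := by exact_mod_cast hX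
  have hX0 : (0 : ℝ) < X := by linarith
  have hca : c ≠ a := by
    rintro rfl
    rcases hodd with ⟨k, hk⟩
    omega
  have hcaz : (c : ℤ) ^ 2 ≠ (a : ℤ) ^ 2 := by
    intro h
    apply hca
    have : c ^ 2 = a ^ 2 := by exact_mod_cast h
    exact Nat.pow_left_injective (n := 2) (by norm_num) this
  set Dz : ℤ := (c : ℤ) ^ 2 - (a : ℤ) ^ 2 with hDz
  have hDz0 : Dz ≠ 0 := sub_ne_zero.mpr hcaz
  set q : ℕ := Dz.natAbs with hq
  have hq0 : 0 < q := Int.natAbs_pos.mpr hDz0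
  have hqz : (q : ℤ) ∣ Dz := Int.natAbs_dvd.mpr dvd_rfl
  have hqz' : Dz ∣ (q : ℤ) := Int.dvd_natAbs.mpr dvd_rfl
  have coD : ∀ x : ℤ, IsCoprime x Dz → IsCoprime x (q : ℤ) := fun x hx =>
    hx.of_isCoprime_of_dvd_right hqz
  have hq2 : IsCoprime (q : ℤ) 2 := by
    have h3 : IsCoprime Dz 2 := by
      obtain ⟨k, hk⟩ := hodd
      have hk' : (c : ℤ) + a = 2 * k + 1 := by exact_mod_cast hk
      have e1 : Dz = ((c : ℤ) + a) * ((c : ℤ) + a - 2 * a) := by rw [hDz]; ring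
      rw [e1, hk']
      refine ⟨1, -(2 * (k : ℤ) ^ 2 + 2 * k - 2 * k * a - a), ?_⟩
      ring
    exact h3.of_isCoprime_of_dvd_left hqz
  have hcoz : IsCoprime (c : ℤ) (a : ℤ) := Nat.isCoprime_iff_coprime.mpr hcop
  have hcq : IsCoprime (c : ℤ) (q : ℤ) := by
    apply coD
    have h3 : IsCoprime (c : ℤ) ((a : ℤ) ^ 2) := hcoz.pow_right
    have h4 : Dz = -((a : ℤ) ^ 2) + (c : ℤ) * c := by rw [hDz]; ring
    rw [h4]
    exact IsCoprime.add_mul_left_right_iff.mpr h3.neg_right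
  have haq : IsCoprime (a : ℤ) (q : ℤ) := by
    apply coD
    have h3 : IsCoprime (a : ℤ) ((c : ℤ) ^ 2) := hcoz.symm.pow_right
    have h4 : Dz = (c : ℤ) ^ 2 + (a : ℤ) * (-a) := by rw [hDz]; ring
    rw [h4]
    exact IsCoprime.add_mul_left_right_iff.mpr h3
  have hcq' : c ≤ q := by
    have h3 : (q : ℤ) = |((c : ℤ) - a)| * ((c : ℤ) + a) := by
      rw [hq, ← Int.abs_eq_natAbs]
      have e1 : Dz = ((c : ℤ) - a) * ((c : ℤ) + a) := by rw [hDz]; ring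
      rw [e1, abs_mul, abs_of_nonneg (by positivity : (0 : ℤ) ≤ (c : ℤ) + a)]
    have h4 : 1 ≤ |((c : ℤ) - a)| := Int.one_le_abs (sub_ne_zero.mpr (by exact_mod_cast hca))
    have h5 : (c : ℤ) ≤ q := by
      rw [h3]
      have h6 : (0 : ℤ) ≤ c := Int.natCast_nonneg _
      have h7 : (0 : ℤ) ≤ a := Int.natCast_nonneg _
      nlinarith
    exact_mod_cast h5
  -- keys
  set Kc : Finset ℕ := (64 * c ^ 2).divisors with hKc
  set Ka : Finset ℕ := (64 * a ^ 2).divisors with hKa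
  set Kh : Finset ℤ := sdiv (64 * Dz) with hKh
  set Keys : Finset (ℕ × ℕ × ℕ × ℕ × ℕ × ℤ) :=
    Kc ×ˢ Kc ×ˢ Ka ×ˢ Ka ×ˢ (8 : ℕ).divisors ×ˢ Kh with hKeys
  let R : (ℕ × ℕ × ℕ × ℕ × ℕ × ℤ) → ℕ × ℕ → (ℕ × ℕ × ℕ × ℕ) → Prop := fun k v u =>
    0 < u.1 ∧ 0 < u.2.1 ∧ 0 < u.2.2.1 ∧ 0 < u.2.2.2 ∧
      Nat.Coprime u.2.1 u.2.2.1 ∧ Nat.Coprime u.1 u.2.2.2 ∧
      v.1 = k.2.2.2.2.1 * (u.1 * u.2.1 * u.2.2.1 * u.2.2.2) ∧
      2 * v.2 + k.2.1 * (u.2.2.1 * u.2.2.2) ^ 2 = k.1 * (u.1 * u.2.1) ^ 2 ∧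
      k.2.2.2.2.1 ∣ 8 ∧ k.1 * k.2.1 = k.2.2.2.2.1 ^ 2 * c ^ 2 ∧
      k.2.2.1 * k.2.2.2.1 = k.2.2.2.2.1 ^ 2 * a ^ 2 ∧ k.2.2.2.2.2 ≠ 0 ∧
      ∃ h' : ℤ, h' ≠ 0 ∧ k.2.2.2.2.2 * h' = (k.2.2.2.2.1 : ℤ) ^ 2 * Dz ∧
      (k.1 : ℤ) * (u.2.1 : ℤ) ^ 2 - (k.2.2.1 : ℤ) * (u.2.2.1 : ℤ) ^ 2 =
        k.2.2.2.2.2 * (u.2.2.2 : ℤ) ^ 2 ∧
      (k.2.1 : ℤ) * (u.2.2.1 : ℤ) ^ 2 - (k.2.2.2.1 : ℤ) * (u.2.1 : ℤ) ^ 2 =
        k.2.2.2.2.2 * (u.1 : ℤ) ^ 2 ∧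
      h' * (u.2.1 : ℤ) ^ 2 = (k.2.1 : ℤ) * (u.2.2.2 : ℤ) ^ 2 + (k.2.2.1 : ℤ) * (u.1 : ℤ) ^ 2 ∧
      h' * (u.2.2.1 : ℤ) ^ 2 = (k.2.2.2.1 : ℤ) * (u.2.2.2 : ℤ) ^ 2 + (k.1 : ℤ) * (u.1 : ℤ) ^ 2
  set Fb : (ℕ × ℕ × ℕ × ℕ × ℕ × ℤ) → Finset (ℕ × ℕ) := fun k =>
    (CF X c a).filter (fun v => ∃ u, R k v u) with hFb
  have hcover : CF X c a ⊆ Keys.biUnion Fb := by
    intro v hv
    have hv' := hv
    unfold CF at hv'
    rw [Finset.mem_filter, Finset.mem_product, Finset.mem_Icc, Finset.mem_Icc] at hv'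
    obtain ⟨⟨⟨d1, d2⟩, ⟨e1, e2⟩⟩, hg, h16, hs1, hs2⟩ := hv'
    obtain ⟨ka, la, ka', la', w, α, β, γ, η, αp, βp, γp, ηp, hw8, g1, g2, g3, g4, g5, g6, g7⟩ :=
      rep d1 hc ha e1 hg hs1 hs2
    have hw0 : 0 < w := Nat.pos_of_dvd_of_pos hw8 (by norm_num)
    have hwc : 0 < w ^ 2 * c ^ 2 := by positivity
    have hwa : 0 < w ^ 2 * a ^ 2 := by positivity
    have kap : 0 < ka := Nat.pos_of_mul_pos_right (g1 ▸ hwc)
    have lap : 0 < la := Nat.pos_of_mul_pos_left (g1 ▸ hwc)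
    have kap' : 0 < ka' := Nat.pos_of_mul_pos_right (g2 ▸ hwa)
    have g1z : (ka : ℤ) * la = (w : ℤ) ^ 2 * (c : ℤ) ^ 2 := by exact_mod_cast g1
    have g2z : (ka' : ℤ) * la' = (w : ℤ) ^ 2 * (a : ℤ) ^ 2 := by exact_mod_cast g2
    have g4z : 2 * (v.2 : ℤ) + la * ((γ : ℤ) * η) ^ 2 = ka * ((α : ℤ) * β) ^ 2 := by
      exact_mod_cast g4
    have g5z : 2 * (v.2 : ℤ) + la' * ((β : ℤ) * η) ^ 2 = ka' * ((α : ℤ) * γ) ^ 2 := by
      exact_mod_cast g5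
    obtain ⟨h, h', r1, r2, r3, r4, r5, r6, r7⟩ := rep2 (Nat.isCoprime_iff_coprime.mpr g7)
      (Nat.isCoprime_iff_coprime.mpr g6) (by exact_mod_cast ηp) (by exact_mod_cast βp)
      (by exact_mod_cast γp) (by exact_mod_cast hw0.ne') (by exact_mod_cast lap)
      (by exact_mod_cast kap') hcaz g1z g2z g4z g5z
    have hw64 : w ^ 2 ∣ 64 := by
      have := pow_dvd_pow_of_dvd hw8 2
      norm_num at this
      exact this
    rw [Finset.mem_biUnion]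
    refine ⟨(ka, la, ka', la', w, h), ?_, ?_⟩
    · rw [hKeys]
      simp only [Finset.mem_product]
      have dc : ∀ x y : ℕ, x * y = w ^ 2 * c ^ 2 → x ∈ Kc := by
        intro x y hxy
        rw [hKc, Nat.mem_divisors]
        exact ⟨(Dvd.intro y hxy).trans (Nat.mul_dvd_mul_right hw64 _), by positivity⟩
      have da : ∀ x y : ℕ, x * y = w ^ 2 * a ^ 2 → x ∈ Ka := by
        intro x y hxy
        rw [hKa, Nat.mem_divisors]
        exact ⟨(Dvd.intro y hxy).trans (Nat.mul_dvd_mul_right hw64 _), by positivity⟩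
      refine ⟨dc ka la g1, dc la ka (by rw [mul_comm]; exact g1), da ka' la' g2,
        da la' ka' (by rw [mul_comm]; exact g2), Nat.mem_divisors.mpr ⟨hw8, by norm_num⟩, ?_⟩
      rw [hKh]
      apply mem_sdiv (mul_ne_zero (by norm_num) hDz0)
      have h64 : (w : ℤ) ^ 2 ∣ 64 := by exact_mod_cast hw64
      exact (Dvd.intro h' r3).trans (mul_dvd_mul_right h64 _)
    · rw [hFb, Finset.mem_filter]
      exact ⟨hv, (α, β, γ, η), αp, βp, γp, ηp, g6, g7, g3, g4, hw8, g1, g2, r1, h', r2, r3,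
        r4, r5, r6, r7⟩
  -- one fiber
  have hfib : ∀ k ∈ Keys, (Fb k).card ≤
      2 * ((Nat.log 2 X + 1) * (Nat.log 2 X + 1) * q.divisors.card) := by
    intro k _
    rcases (Fb k).eq_empty_or_nonempty with h0 | ⟨v0, hv0⟩
    · rw [h0, Finset.card_empty]; exact Nat.zero_le _
    have hex : ∀ v : ℕ × ℕ, ∃ u : ℕ × ℕ × ℕ × ℕ, v ∈ Fb k → R k v u := by
      intro v
      by_cases hv : v ∈ Fb k
      · obtain ⟨u, hu⟩ := (Finset.mem_filter.mp hv).2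
        exact ⟨u, fun _ => hu⟩
      · exact ⟨(0, 0, 0, 0), fun h => absurd h hv⟩
    choose u hu using hex
    have hR0 := hu v0 hv0
    obtain ⟨_, _, _, _, _, _, _, _, w8, kla, kla', hk0, h', hh'0, hhh, _⟩ := hR0
    have hw0 : 0 < k.2.2.2.2.1 := Nat.pos_of_dvd_of_pos w8 (by norm_num)
    have hinj : Set.InjOn u (Fb k) := by
      intro v hv w hw hvw
      obtain ⟨_, _, _, _, _, _, a7, a8, _⟩ := hu v hv
      obtain ⟨_, _, _, _, _, _, b7, b8, _⟩ := hu w hw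
      have e1 : v.1 = w.1 := by rw [a7, b7, hvw]
      have e2 : v.2 = w.2 := by
        rw [hvw, ← b8] at a8
        omega
      exact Prod.ext e1 e2
    rw [← Finset.card_image_of_injOn hinj]
    have wq : IsCoprime ((k.2.2.2.2.1 : ℕ) : ℤ) (q : ℤ) := by
      have h3 : IsCoprime (8 : ℤ) (q : ℤ) := by
        have : (8 : ℤ) = 2 ^ 3 := by norm_num
        rw [this]
        exact hq2.symm.pow_left
      exact h3.of_isCoprime_of_dvd_left (by exact_mod_cast w8)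
    have cop1 : ∀ x y : ℕ, x * y = k.2.2.2.2.1 ^ 2 * c ^ 2 → IsCoprime (x : ℤ) (q : ℤ) := by
      intro x y hxy
      have h3 : IsCoprime (((k.2.2.2.2.1 : ℕ) : ℤ) ^ 2 * (c : ℤ) ^ 2) (q : ℤ) :=
        (wq.pow_left).mul_left hcq.pow_left
      refine h3.of_isCoprime_of_dvd_left ⟨(y : ℤ), ?_⟩
      exact_mod_cast hxy.symm
    have cop2 : ∀ x y : ℕ, x * y = k.2.2.2.2.1 ^ 2 * a ^ 2 → IsCoprime (x : ℤ) (q : ℤ) := by
      intro x y hxy
      have h3 : IsCoprime (((k.2.2.2.2.1 : ℕ) : ℤ) ^ 2 * (a : ℤ) ^ 2) (q : ℤ) :=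
        (wq.pow_left).mul_left haq.pow_left
      refine h3.of_isCoprime_of_dvd_left ⟨(y : ℤ), ?_⟩
      exact_mod_cast hxy.symm
    apply cf_fix (ka := (k.1 : ℤ)) (la := (k.2.1 : ℤ)) (ka' := (k.2.2.1 : ℤ))
      (la' := (k.2.2.2.1 : ℤ)) (h := k.2.2.2.2.2) (h' := h') hq0 hq2 (cop1 _ _ kla)
      (cop2 _ _ kla') (cop1 _ _ (by rw [mul_comm]; exact kla)) hk0 hh'0
    · rw [hhh]; exact Dvd.dvd.mul_left hqz _
    · intro t ht
      rw [Finset.mem_image] at ht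
      obtain ⟨v, hv, rfl⟩ := ht
      obtain ⟨b1, b2, b3, b4, b5, b6, b7, b8, _, _, _, _, h'', _, hh2, b9, b10, b11, b12⟩ := hu v hv
      have hvCF := (Finset.mem_filter.mp hv).1
      unfold CF at hvCF
      rw [Finset.mem_filter, Finset.mem_product, Finset.mem_Icc, Finset.mem_Icc] at hvCF
      obtain ⟨⟨⟨d1, d2⟩, _⟩, _, h16, _, _⟩ := hvCF
      have hheq : h'' = h' := mul_left_cancel₀ hk0 (hh2.trans hhh.symm)
      rw [hheq] at b11 b12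
      have hle : (u v).1 * (u v).2.1 * (u v).2.2.1 * (u v).2.2.2 ≤ v.1 := by
        rw [b7]; exact Nat.le_mul_of_pos_left _ hw0
      have s1 : ∀ x y z t : ℕ, 0 < y → 0 < z → 0 < t → x ≤ x * y * z * t := by
        intro x y z t hy hz ht
        calc x = x * 1 * 1 * 1 := by ring
          _ ≤ x * y * z * t :=
            Nat.mul_le_mul (Nat.mul_le_mul (Nat.mul_le_mul_left _ hy) hz) ht
      refine ⟨b1, b2, b3, b4, b5, b6, b9, b10, b11, b12, ?_, ?_, ?_, ?_, ?_⟩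
      · exact ((s1 _ _ _ _ b2 b3 b4).trans hle).trans d2
      · have := s1 (u v).2.1 (u v).1 (u v).2.2.1 (u v).2.2.2 b1 b3 b4
        rw [mul_comm (u v).2.1 (u v).1] at this
        exact (this.trans hle).trans d2
      · have h5 := s1 (u v).2.2.1 (u v).1 (u v).2.1 (u v).2.2.2 b1 b2 b4
        have h6 : (u v).2.2.1 * (u v).1 * (u v).2.1 * (u v).2.2.2 =
          (u v).1 * (u v).2.1 * (u v).2.2.1 * (u v).2.2.2 := by ring
        rw [h6] at h5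
        exact (h5.trans hle).trans d2
      · have h5 := s1 (u v).2.2.2 (u v).1 (u v).2.1 (u v).2.2.1 b1 b2 b3
        have h6 : (u v).2.2.2 * (u v).1 * (u v).2.1 * (u v).2.2.1 =
          (u v).1 * (u v).2.1 * (u v).2.2.1 * (u v).2.2.2 := by ring
        rw [h6] at h5
        exact (h5.trans hle).trans d2
      · calc 16 * ((u v).1 * (u v).2.1 * (u v).2.2.1 * (u v).2.2.2) ≤ 16 * v.1 :=
              Nat.mul_le_mul_left _ hle
          _ ≤ c := h16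
          _ ≤ q := hcq'
  -- sizes
  have hXz : (1 : ℤ) ≤ X := by exact_mod_cast hX
  have hX0z : (0 : ℤ) ≤ X := by linarith
  have hcz : (c : ℤ) ^ 2 ≤ (X : ℤ) ^ 2 :=
    pow_le_pow_left₀ (Int.natCast_nonneg _) (by exact_mod_cast hcX) 2
  have haz : (a : ℤ) ≤ (X : ℤ) ^ 2 := by
    have : a ≤ X ^ 2 := hac.trans (Nat.pow_le_pow_left hcX 2)
    exact_mod_cast this
  have haz2 : (a : ℤ) ^ 2 ≤ (X : ℤ) ^ 4 := by
    calc (a : ℤ) ^ 2 ≤ ((X : ℤ) ^ 2) ^ 2 := pow_le_pow_left₀ (Int.natCast_nonneg _) haz 2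
      _ = _ := by ring
  have hX24 : (X : ℤ) ^ 2 ≤ (X : ℤ) ^ 4 := pow_le_pow_right₀ hXz (by norm_num)
  have hX4 : 128 * (X : ℤ) ^ 4 ≤ (100 * (X : ℤ)) ^ 4 := by
    have : (100 * (X : ℤ)) ^ 4 = 100 ^ 4 * (X : ℤ) ^ 4 := by ring
    rw [this]
    apply mul_le_mul_of_nonneg_right (by norm_num) (by positivity)
  have tc : ((Kc.card : ℕ) : ℝ) ≤ C1 * (X : ℝ) ^ (ε / 8) := by
    have := h1 X (64 * (c : ℤ) ^ 2) hX (by positivity) (by
      rw [abs_of_nonneg (by positivity)]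
      linarith)
    have e1 : (64 * (c : ℤ) ^ 2).natAbs = 64 * c ^ 2 := by
      have : (64 * (c : ℤ) ^ 2) = ((64 * c ^ 2 : ℕ) : ℤ) := by push_cast; ring
      rw [this, Int.natAbs_natCast]
    rw [e1] at this
    exact this
  have ta : ((Ka.card : ℕ) : ℝ) ≤ C1 * (X : ℝ) ^ (ε / 8) := by
    have := h1 X (64 * (a : ℤ) ^ 2) hX (by positivity) (by
      rw [abs_of_nonneg (by positivity)]
      linarith)
    have e1 : (64 * (a : ℤ) ^ 2).natAbs = 64 * a ^ 2 := by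
      have : (64 * (a : ℤ) ^ 2) = ((64 * a ^ 2 : ℕ) : ℤ) := by push_cast; ring
      rw [this, Int.natAbs_natCast]
    rw [e1] at this
    exact this
  have hDzb : |Dz| ≤ (X : ℤ) ^ 4 := by
    rw [hDz, abs_le]
    have h3 : (0 : ℤ) ≤ (c : ℤ) ^ 2 := sq_nonneg _
    have h4 : (0 : ℤ) ≤ (a : ℤ) ^ 2 := sq_nonneg _
    constructor <;> linarith
  have th : ((Kh.card : ℕ) : ℝ) ≤ 2 * (C1 * (X : ℝ) ^ (ε / 8)) := by
    have h3 := h1 X (64 * Dz) hX (mul_ne_zero (by norm_num) hDz0) (by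
      rw [abs_mul]
      have : |(64 : ℤ)| = 64 := by norm_num
      rw [this]
      linarith)
    have h4 : ((Kh.card : ℕ) : ℝ) ≤ 2 * ((64 * Dz).natAbs.divisors.card : ℝ) := by
      exact_mod_cast card_sdiv _
    linarith
  have tq : ((q.divisors.card : ℕ) : ℝ) ≤ C1 * (X : ℝ) ^ (ε / 8) := by
    have h3 := h1 X Dz hX hDz0 (by linarith [hDzb, (by positivity : (0 : ℤ) ≤ (X : ℤ) ^ 4)])
    exact h3
  have tl : ((Nat.log 2 X : ℝ) + 1) ≤ C2 * (X : ℝ) ^ (ε / 8) := by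
    have h3 := h2 X X hX (by
      rw [pow_one]; omega)
    have h4 : ((Nat.log 2 X : ℝ) + 1) ≤ (LB X : ℝ) := by
      unfold LB
      push_cast
      have : (0 : ℝ) ≤ Nat.log 2 X := Nat.cast_nonneg _
      linarith
    linarith
  set Y : ℝ := (X : ℝ) ^ (ε / 8) with hY
  have hY0 : 0 ≤ Y := by positivity
  have hY8 : Y ^ 8 = (X : ℝ) ^ ε := by
    rw [hY, ← Real.rpow_natCast, ← Real.rpow_mul hX0.le]
    congr 1
    push_cast
    ring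
  have h8 : (8 : ℕ).divisors.card = 4 := by decide
  have keysc : ((Keys.card : ℕ) : ℝ) ≤ 8 * (C1 * Y) ^ 5 := by
    have e1 : Keys.card = Kc.card * (Kc.card * (Ka.card * (Ka.card *
        ((8 : ℕ).divisors.card * Kh.card)))) := by
      rw [hKeys]
      simp only [Finset.card_product]
    rw [e1, h8]
    push_cast
    have p0 : (0 : ℝ) ≤ C1 * Y := by positivity
    calc (Kc.card : ℝ) * (Kc.card * (Ka.card * (Ka.card * (4 * Kh.card))))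
        ≤ (C1 * Y) * ((C1 * Y) * ((C1 * Y) * ((C1 * Y) * (4 * (2 * (C1 * Y)))))) := by
          gcongr
      _ = 8 * (C1 * Y) ^ 5 := by ring
  have hfib' : ∀ k ∈ Keys, (((Fb k).card : ℕ) : ℝ) ≤ 2 * ((C2 * Y) * (C2 * Y) * (C1 * Y)) := by
    intro k hk
    have h3 : (((Fb k).card : ℕ) : ℝ) ≤
        2 * (((Nat.log 2 X : ℝ) + 1) * ((Nat.log 2 X : ℝ) + 1) * (q.divisors.card : ℝ)) := by
      exact_mod_cast hfib k hk
    refine h3.trans ?_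
    have p0 : (0 : ℝ) ≤ (Nat.log 2 X : ℝ) + 1 := by positivity
    have p1 : (0 : ℝ) ≤ C2 * Y := by positivity
    gcongr
  have hfin := card_bi' Keys Fb _ hfib'
  have hle : ((CF X c a).card : ℝ) ≤ ((Keys.biUnion Fb).card : ℝ) := by
    exact_mod_cast Finset.card_le_card hcover
  calc ((CF X c a).card : ℝ) ≤ _ := hle
    _ ≤ _ := hfin
    _ ≤ (8 * (C1 * Y) ^ 5) * (2 * ((C2 * Y) * (C2 * Y) * (C1 * Y))) :=
        mul_le_mul_of_nonneg_right keysc (by positivity)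
    _ = 16 * (C1 ^ 6 * C2 ^ 2) * Y ^ 8 := by ring
    _ = _ := by rw [hY8]

end Pool.EB3
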