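import Pool.Agent.H62.EB3.Cnc

/-!
# Classes of coprime pairs modulo `δ`, rotation version
-/

set_option autoImplicit false

namespace Pool.EB3

open Finset

/-- a common divisor that divides `T₋` and `4 T₊` divides `8` -/
theorem dvd_eight {g k1 l1 k2 l2 : ℤ} (hg : 0 < g) (c1 : IsCoprime k1 l1) (c2 : IsCoprime k2 l2)
    (hodd : ∀ p : ℕ, p.Prime → p ≠ 2 → (p : ℤ) ∣ g → (p : ℤ) ∣ k1 * l2 - k2 * l1 →
      ¬ (p : ℤ) ∣ k1 * k2 + l1 * l2)
    (h1 : g ∣ k1 * l2 - k2 * l1) (h2 : g ∣ 4 * (k1 * k2 + l1 * l2)) : g ∣ 8 := by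
  obtain ⟨n, rfl⟩ : ∃ n : ℕ, g = (n : ℤ) := ⟨g.toNat, (Int.toNat_of_nonneg hg.le).symm⟩
  have hn : n ≠ 0 := by rintro rfl; simp at hg
  have hpow : n = 2 ^ n.primeFactorsList.length := by
    apply Nat.eq_prime_pow_of_unique_prime_dvd hn
    intro p hp hpn
    by_contra hp2
    have hpz : (p : ℤ) ∣ (n : ℤ) := Int.natCast_dvd_natCast.mpr hpn
    have h3 : (p : ℤ) ∣ 4 * (k1 * k2 + l1 * l2) := hpz.trans h2
    have h4 : IsCoprime (p : ℤ) 4 := by
      rw [Int.isCoprime_iff_gcd_eq_one]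
      have : Nat.Coprime p 4 := by
        have h5 : Nat.Coprime p 2 := (Nat.coprime_primes hp Nat.prime_two).mpr hp2
        have : (4 : ℕ) = 2 ^ 2 := by norm_num
        rw [this]
        exact h5.pow_right 2
      exact this
    exact hodd p hp hp2 hpz (hpz.trans h1) (h4.dvd_of_dvd_mul_left h3)
  set j := n.primeFactorsList.length with hj
  have hj3 : j ≤ 3 := by
    by_contra hcon
    push Not at hcon
    have h16 : (16 : ℤ) ∣ (n : ℤ) := by
      have : (16 : ℕ) ∣ n := by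
        rw [hpow]
        have : (16 : ℕ) = 2 ^ 4 := by norm_num
        rw [this]
        exact pow_dvd_pow 2 hcon
      exact_mod_cast this
    have a1 : (4 : ℤ) ∣ k1 * l2 - k2 * l1 := (by norm_num : (4 : ℤ) ∣ 16).trans (h16.trans h1)
    have a2 : (4 : ℤ) ∣ k1 * k2 + l1 * l2 := by
      have h5 : (4 : ℤ) * 4 ∣ 4 * (k1 * k2 + l1 * l2) := by
        have : (4 : ℤ) * 4 = 16 := by norm_num
        rw [this]; exact h16.trans h2
      exact Int.dvd_of_mul_dvd_mul_left (by norm_num) h5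
    have a3 : (16 : ℤ) ∣ (k1 ^ 2 + l1 ^ 2) * (k2 ^ 2 + l2 ^ 2) := by
      have e : (k1 ^ 2 + l1 ^ 2) * (k2 ^ 2 + l2 ^ 2) =
          (k1 * l2 - k2 * l1) ^ 2 + (k1 * k2 + l1 * l2) ^ 2 := by ring
      rw [e]
      have b1 := pow_dvd_pow_of_dvd a1 2
      have b2 := pow_dvd_pow_of_dvd a2 2
      norm_num at b1 b2
      exact dvd_add b1 b2
    -- each factor is not divisible by 4
    have no4 : ∀ k l : ℤ, IsCoprime k l → ¬ (4 : ℤ) ∣ k ^ 2 + l ^ 2 := by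
      intro k l hkl h4
      have hk : k % 2 = 0 ∨ k % 2 = 1 := by omega
      have hl : l % 2 = 0 ∨ l % 2 = 1 := by omega
      have e1 : k = 2 * (k / 2) + k % 2 := by omega
      have e2 : l = 2 * (l / 2) + l % 2 := by omega
      rcases hk with hk | hk <;> rcases hl with hl | hl
      · have d1 : (2 : ℤ) ∣ k := Int.dvd_of_emod_eq_zero hk
        have d2 : (2 : ℤ) ∣ l := Int.dvd_of_emod_eq_zero hl
        have := hkl.isUnit_of_dvd' d1 d2
        rw [Int.isUnit_iff] at this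
        omega
      · rw [hk] at e1; rw [hl] at e2
        obtain ⟨m, hm⟩ := h4
        rw [e1, e2] at hm
        have : 4 * ((k / 2) ^ 2 + (l / 2) ^ 2 + (l / 2)) + 1 = 4 * m := by linarith
        omega
      · rw [hk] at e1; rw [hl] at e2
        obtain ⟨m, hm⟩ := h4
        rw [e1, e2] at hm
        have : 4 * ((k / 2) ^ 2 + (k / 2) + (l / 2) ^ 2) + 1 = 4 * m := by linarith
        omega
      · rw [hk] at e1; rw [hl] at e2
        obtain ⟨m, hm⟩ := h4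
        rw [e1, e2] at hm
        have : 4 * ((k / 2) ^ 2 + (k / 2) + (l / 2) ^ 2 + (l / 2)) + 2 = 4 * m := by linarith
        omega
    have n1 := no4 k1 l1 c1
    have n2 := no4 k2 l2 c2
    set x := k1 ^ 2 + l1 ^ 2 with hx
    set y := k2 ^ 2 + l2 ^ 2 with hy
    obtain ⟨m, hm⟩ := a3
    have hx4 : x % 4 = 1 ∨ x % 4 = 2 ∨ x % 4 = 3 := by omega
    have hy4 : y % 4 = 1 ∨ y % 4 = 2 ∨ y % 4 = 3 := by omega
    have ex : x = 4 * (x / 4) + x % 4 := by omega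
    have ey : y = 4 * (y / 4) + y % 4 := by omega
    rcases hx4 with hx4 | hx4 | hx4 <;> rcases hy4 with hy4 | hy4 | hy4 <;>
      rw [hx4] at ex <;> rw [hy4] at ey <;> rw [ex, ey] at hm <;> ring_nf at hm <;> omega
  have h8 : n ∣ 8 := by
    rw [hpow]
    have : (8 : ℕ) = 2 ^ 3 := by norm_num
    rw [this]
    exact pow_dvd_pow 2 hj3
  exact_mod_cast h8

theorem cls5 {d0 k1 l1 k2 l2 k3 l3 : ℤ} (hd0 : 0 < d0) (c1 : IsCoprime k1 l1)
    (c2 : IsCoprime k2 l2)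
    (h12 : d0 ∣ 4 * ((k1 * l2 - k2 * l1) * (k1 * k2 + l1 * l2)))
    (h13 : d0 ∣ 4 * ((k1 * l3 - k3 * l1) * (k1 * k3 + l1 * l3)))
    (hodd : ∀ p : ℕ, p.Prime → p ≠ 2 → (p : ℤ) ∣ d0 → (p : ℤ) ∣ k1 * l2 - k2 * l1 →
      ¬ (p : ℤ) ∣ k1 * k2 + l1 * l2)
    (hd : Int.gcd d0 (k1 * l2 - k2 * l1) = Int.gcd d0 (k1 * l3 - k3 * l1)) :
    d0 ∣ 32 * (k2 * l3 - k3 * l2) := by
  set d : ℤ := (Int.gcd d0 (k1 * l2 - k2 * l1) : ℤ) with hdd
  have hd1 : d ∣ d0 := Int.gcd_dvd_left _ _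
  have hd2 : d ∣ k1 * l2 - k2 * l1 := Int.gcd_dvd_right _ _
  have hd3 : d ∣ k1 * l3 - k3 * l1 := by
    rw [hdd, hd]; exact Int.gcd_dvd_right _ _
  have hdne : d ≠ 0 := by
    intro h0; rw [h0] at hd1; exact hd0.ne' (zero_dvd_iff.mp hd1)
  obtain ⟨e, he⟩ := hd1
  have plus : ∀ k l : ℤ, d0 ∣ 4 * ((k1 * l - k * l1) * (k1 * k + l1 * l)) →
      (Int.gcd d0 (k1 * l - k * l1) : ℤ) = d → e ∣ 4 * (k1 * k + l1 * l) := by
    intro k l hxy hgd
    obtain ⟨r, hr⟩ : d ∣ k1 * l - k * l1 := by rw [← hgd]; exact Int.gcd_dvd_right _ _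
    have hcop : IsCoprime e r := by
      have hb := Int.gcd_eq_gcd_ab d0 (k1 * l - k * l1)
      rw [hgd] at hb
      refine ⟨Int.gcdA d0 (k1 * l - k * l1), Int.gcdB d0 (k1 * l - k * l1), ?_⟩
      have h5 : d * (Int.gcdA d0 (k1 * l - k * l1) * e +
          Int.gcdB d0 (k1 * l - k * l1) * r) = d * 1 := by
        calc d * (Int.gcdA d0 (k1 * l - k * l1) * e + Int.gcdB d0 (k1 * l - k * l1) * r)
            = (d * e) * Int.gcdA d0 (k1 * l - k * l1) +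
              (d * r) * Int.gcdB d0 (k1 * l - k * l1) := by ring
          _ = d0 * Int.gcdA d0 (k1 * l - k * l1) +
              (k1 * l - k * l1) * Int.gcdB d0 (k1 * l - k * l1) := by rw [← he, ← hr]
          _ = d := hb.symm
          _ = d * 1 := by ring
      exact mul_left_cancel₀ hdne h5
    obtain ⟨m, hm⟩ := hxy
    rw [hr] at hm
    have h7 : d * (r * (4 * (k1 * k + l1 * l))) = d * (e * m) := by
      calc d * (r * (4 * (k1 * k + l1 * l))) = 4 * (d * r * (k1 * k + l1 * l)) := by ring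
        _ = d0 * m := hm
        _ = (d * e) * m := by rw [← he]
        _ = _ := by ring
    have h8 := mul_left_cancel₀ hdne h7
    have h9 : e ∣ r * (4 * (k1 * k + l1 * l)) := ⟨_, h8⟩
    exact hcop.dvd_of_dvd_mul_left h9
  have p2 := plus k2 l2 h12 rfl
  have p3 := plus k3 l3 h13 (by rw [← hd])
  set T := k2 * l3 - k3 * l2 with hT
  have hdH : d ∣ d0 := ⟨e, he⟩
  have heH : e ∣ d0 := ⟨d, by rw [he]; ring⟩
  obtain ⟨r, s, hrs⟩ := c1
  have dT : d ∣ T := by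
    have a1 : d ∣ k1 * T := by
      have : k1 * T = k2 * (k1 * l3 - k3 * l1) - k3 * (k1 * l2 - k2 * l1) := by rw [hT]; ring
      rw [this]
      exact dvd_sub (Dvd.dvd.mul_left hd3 _) (Dvd.dvd.mul_left hd2 _)
    have a2 : d ∣ l1 * T := by
      have : l1 * T = l2 * (k1 * l3 - k3 * l1) - l3 * (k1 * l2 - k2 * l1) := by rw [hT]; ring
      rw [this]
      exact dvd_sub (Dvd.dvd.mul_left hd3 _) (Dvd.dvd.mul_left hd2 _)
    have : T = r * (k1 * T) + s * (l1 * T) := by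
      calc T = (r * k1 + s * l1) * T := by rw [hrs, one_mul]
        _ = _ := by ring
    rw [this]
    exact dvd_add (Dvd.dvd.mul_left a1 _) (Dvd.dvd.mul_left a2 _)
  have eT : e ∣ 4 * T := by
    have a1 : e ∣ k1 * (4 * T) := by
      have : k1 * (4 * T) = l3 * (4 * (k1 * k2 + l1 * l2)) - l2 * (4 * (k1 * k3 + l1 * l3)) := by
        rw [hT]; ring
      rw [this]
      exact dvd_sub (Dvd.dvd.mul_left p2 _) (Dvd.dvd.mul_left p3 _)
    have a2 : e ∣ l1 * (4 * T) := by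
      have : l1 * (4 * T) = k2 * (4 * (k1 * k3 + l1 * l3)) - k3 * (4 * (k1 * k2 + l1 * l2)) := by
        rw [hT]; ring
      rw [this]
      exact dvd_sub (Dvd.dvd.mul_left p3 _) (Dvd.dvd.mul_left p2 _)
    have : 4 * T = r * (k1 * (4 * T)) + s * (l1 * (4 * T)) := by
      calc 4 * T = (r * k1 + s * l1) * (4 * T) := by rw [hrs, one_mul]
        _ = _ := by ring
    rw [this]
    exact dvd_add (Dvd.dvd.mul_left a1 _) (Dvd.dvd.mul_left a2 _)
  set g : ℤ := (Int.gcd d e : ℤ) with hg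
  have hgd : g ∣ d := Int.gcd_dvd_left _ _
  have hge : g ∣ e := Int.gcd_dvd_right _ _
  have hgpos : 0 < g := by
    rw [hg]
    have : Int.gcd d e ≠ 0 := by
      intro h0
      rw [Int.gcd_eq_zero_iff] at h0
      exact hdne h0.1
    exact_mod_cast Nat.pos_of_ne_zero this
  have hg8 : g ∣ 8 := by
    apply dvd_eight (k1 := k1) (l1 := l1) (k2 := k2) (l2 := l2) hgpos ⟨r, s, hrs⟩ c2
    · intro p hp hp2 hpg
      exact hodd p hp hp2 (hpg.trans (hgd.trans hdH))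
    · exact hgd.trans hd2
    · exact hge.trans p2
  have hb := Int.gcd_eq_gcd_ab d e
  rw [← hg] at hb
  obtain ⟨t, ht⟩ := dT
  obtain ⟨t', ht'⟩ := eT
  obtain ⟨k, hk⟩ := hg8
  refine ⟨k * (Int.gcdA d e * t' + Int.gcdB d e * (4 * t)), ?_⟩
  calc 32 * T = 8 * (4 * T) := by ring
    _ = k * (g * (4 * T)) := by rw [hk]; ring
    _ = k * ((d * Int.gcdA d e + e * Int.gcdB d e) * (4 * T)) := by rw [← hb]
    _ = k * (d * Int.gcdA d e * (4 * T) + e * Int.gcdB d e * (4 * T)) := by ring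
    _ = k * (d * Int.gcdA d e * (e * t') + e * Int.gcdB d e * (4 * (d * t))) := by
        rw [← ht', ← ht]
    _ = (d * e) * (k * (Int.gcdA d e * t' + Int.gcdB d e * (4 * t))) := by ring
    _ = _ := by rw [← he]

/-- coprime pairs with small product in the classes modulo `δ` -/
theorem cls6 {D : ℕ} (hD0 : 0 < D) (X : ℕ) (S : Finset (ℕ × ℕ))
    (hS : ∀ v ∈ S, 0 < v.1 ∧ 0 < v.2 ∧ Nat.Coprime v.1 v.2 ∧ v.1 ≤ X ∧ v.2 ≤ X ∧
      128 * (v.1 * v.2) ≤ D)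
    (hS1 : ∀ v ∈ S, ∀ w ∈ S, (D : ℤ) ∣ 4 * (((v.1 : ℤ) * w.2 - w.1 * v.2) *
      ((v.1 : ℤ) * w.1 + v.2 * w.2)))
    (hS2 : ∀ v ∈ S, ∀ w ∈ S, ∀ p : ℕ, p.Prime → p ≠ 2 → (p : ℤ) ∣ (D : ℤ) →
      (p : ℤ) ∣ (v.1 : ℤ) * w.2 - w.1 * v.2 → ¬ (p : ℤ) ∣ (v.1 : ℤ) * w.1 + v.2 * w.2) :
    S.card ≤ (Nat.log 2 X + 1) * (Nat.log 2 X + 1) * D.divisors.card := by
  classical
  rcases S.eq_empty_or_nonempty with h0 | ⟨v1, hv1⟩
  · rw [h0, Finset.card_empty]; exact Nat.zero_le _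
  have hDz : (0 : ℤ) < (D : ℤ) := by exact_mod_cast hD0
  set f : ℕ × ℕ → (ℕ × ℕ) × ℕ := fun v => ((Nat.log 2 v.1, Nat.log 2 v.2),
    Int.gcd D ((v1.1 : ℤ) * v.2 - v.1 * v1.2)) with hf
  have hinj : Set.InjOn f S := by
    intro v hv w hw hvw
    have hv' : v ∈ S := hv
    have hw' : w ∈ S := hw
    obtain ⟨v1p, v2p, vc, _, _, vb⟩ := hS v hv'
    obtain ⟨w1p, w2p, wc, _, _, wb⟩ := hS w hw'
    obtain ⟨_, _, uc, _, _, _⟩ := hS v1 hv1
    have hvw' : f v = f w := hvw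
    have e1 : Nat.log 2 v.1 = Nat.log 2 w.1 := (Prod.ext_iff.mp (Prod.ext_iff.mp hvw').1).1
    have e2 : Nat.log 2 v.2 = Nat.log 2 w.2 := (Prod.ext_iff.mp (Prod.ext_iff.mp hvw').1).2
    have e3 : Int.gcd D ((v1.1 : ℤ) * v.2 - v.1 * v1.2) =
        Int.gcd D ((v1.1 : ℤ) * w.2 - w.1 * v1.2) := (Prod.ext_iff.mp hvw').2
    have hdvd : (D : ℤ) ∣ 32 * ((v.1 : ℤ) * w.2 - w.1 * v.2) :=
      cls5 hDz (Nat.isCoprime_iff_coprime.mpr uc) (Nat.isCoprime_iff_coprime.mpr vc)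
        (hS1 v1 hv1 v hv') (hS1 v1 hv1 w hw') (hS2 v1 hv1 v hv') e3
    have twice : ∀ x y : ℕ, 0 < y → Nat.log 2 x = Nat.log 2 y → x < 2 * y := by
      intro x y hy hxy
      have h1 : x < 2 ^ (Nat.log 2 x + 1) := Nat.lt_pow_succ_log_self (by norm_num) x
      have h2 : 2 ^ Nat.log 2 y ≤ y := Nat.pow_log_le_self 2 (by omega)
      rw [hxy, pow_succ] at h1
      omega
    have b1 : 32 * (v.1 * w.2) < D := by
      have h1 : w.2 < 2 * v.2 := twice _ _ v2p e2.symm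
      have h2 : v.1 * w.2 < v.1 * (2 * v.2) := Nat.mul_lt_mul_of_pos_left h1 v1p
      have h3 : v.1 * (2 * v.2) = 2 * (v.1 * v.2) := by ring
      omega
    have b2 : 32 * (w.1 * v.2) < D := by
      have h1 : w.1 < 2 * v.1 := twice _ _ v1p e1.symm
      have h2 : w.1 * v.2 < (2 * v.1) * v.2 := Nat.mul_lt_mul_of_pos_right h1 v2p
      have h3 : (2 * v.1) * v.2 = 2 * (v.1 * v.2) := by ring
      omega
    have hz : 32 * ((v.1 : ℤ) * w.2 - w.1 * v.2) = 0 := by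
      apply Int.eq_zero_of_abs_lt_dvd hdvd
      have c1 : 32 * ((v.1 : ℤ) * w.2) < D := by exact_mod_cast b1
      have c2 : 32 * ((w.1 : ℤ) * v.2) < D := by exact_mod_cast b2
      have c3 : (0 : ℤ) ≤ (v.1 : ℤ) * w.2 := by positivity
      have c4 : (0 : ℤ) ≤ (w.1 : ℤ) * v.2 := by positivity
      rw [abs_lt]
      constructor <;> linarith
    have hz' : v.1 * w.2 = w.1 * v.2 := by
      have : (v.1 : ℤ) * w.2 = w.1 * v.2 := by linarith
      exact_mod_cast this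
    have d1 : v.1 ∣ w.1 := by
      have : v.1 ∣ w.1 * v.2 := ⟨w.2, hz'.symm⟩
      exact vc.dvd_of_dvd_mul_right this
    have d2 : w.1 ∣ v.1 := by
      have : w.1 ∣ v.1 * w.2 := ⟨v.2, hz'⟩
      exact wc.dvd_of_dvd_mul_right this
    have e4 : v.1 = w.1 := Nat.dvd_antisymm d1 d2
    have e5 : v.2 = w.2 := by
      rw [e4] at hz'
      exact (Nat.eq_of_mul_eq_mul_left w1p hz').symm
    exact Prod.ext e4 e5
  have himg : S.image f ⊆ ((range (Nat.log 2 X + 1)) ×ˢ (range (Nat.log 2 X + 1))) ×ˢ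
      D.divisors := by
    intro u hu
    rw [Finset.mem_image] at hu
    obtain ⟨v, hv, rfl⟩ := hu
    obtain ⟨_, _, _, b1, b2, _⟩ := hS v hv
    rw [Finset.mem_product, Finset.mem_product, Finset.mem_range, Finset.mem_range]
    have l1 : Nat.log 2 v.1 ≤ Nat.log 2 X := Nat.log_mono_right b1
    have l2 : Nat.log 2 v.2 ≤ Nat.log 2 X := Nat.log_mono_right b2
    refine ⟨⟨Nat.lt_succ_of_le l1, Nat.lt_succ_of_le l2⟩, ?_⟩
    rw [Nat.mem_divisors]
    refine ⟨?_, hD0.ne'⟩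
    exact Int.natCast_dvd_natCast.mp (Int.gcd_dvd_left (D : ℤ) ((v1.1 : ℤ) * v.2 - v.1 * v1.2))
  rw [← Finset.card_image_of_injOn hinj]
  refine (Finset.card_le_card himg).trans (le_of_eq ?_)
  rw [Finset.card_product, Finset.card_product, Finset.card_range]

end Pool.EB3
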