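import Pool.Agent.H62.EB3.Bas

/-!
# Pairs in a congruence class, and the second descent for concordant forms
-/

set_option autoImplicit false

namespace Pool.EB3

open Finset

theorem cls2 {H x1 y1 x2 y2 x3 y3 : ℤ} (hH0 : H ≠ 0) (hH : IsCoprime H 2)
    (hx1 : IsCoprime H x1) (hy2 : IsCoprime H y2)
    (h12 : H ∣ x1 ^ 2 * y2 ^ 2 - x2 ^ 2 * y1 ^ 2) (h13 : H ∣ x1 ^ 2 * y3 ^ 2 - x3 ^ 2 * y1 ^ 2)
    (hd : Int.gcd H (x1 * y2 - x2 * y1) = Int.gcd H (x1 * y3 - x3 * y1)) :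
    H ∣ x2 * y3 - x3 * y2 := by
  set d : ℤ := (Int.gcd H (x1 * y2 - x2 * y1) : ℤ) with hdd
  have hd1 : d ∣ H := Int.gcd_dvd_left _ _
  have hd2 : d ∣ x1 * y2 - x2 * y1 := Int.gcd_dvd_right _ _
  have hd3 : d ∣ x1 * y3 - x3 * y1 := by
    rw [hdd, hd]; exact Int.gcd_dvd_right _ _
  have hd0 : d ≠ 0 := by
    intro h0; rw [h0] at hd1; exact hH0 (zero_dvd_iff.mp hd1)
  obtain ⟨e, he⟩ := hd1
  have plus : ∀ x y : ℤ, H ∣ x1 ^ 2 * y ^ 2 - x ^ 2 * y1 ^ 2 →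
      (Int.gcd H (x1 * y - x * y1) : ℤ) = d → e ∣ x1 * y + x * y1 := by
    intro x y hxy hgd
    obtain ⟨k, hk⟩ : d ∣ x1 * y - x * y1 := by rw [← hgd]; exact Int.gcd_dvd_right _ _
    have hcop : IsCoprime e k := by
      have hb := Int.gcd_eq_gcd_ab H (x1 * y - x * y1)
      rw [hgd] at hb
      refine ⟨Int.gcdA H (x1 * y - x * y1), Int.gcdB H (x1 * y - x * y1), ?_⟩
      have h5 : d * (Int.gcdA H (x1 * y - x * y1) * e +
          Int.gcdB H (x1 * y - x * y1) * k) = d * 1 := by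
        calc d * (Int.gcdA H (x1 * y - x * y1) * e + Int.gcdB H (x1 * y - x * y1) * k)
            = (d * e) * Int.gcdA H (x1 * y - x * y1) +
              (d * k) * Int.gcdB H (x1 * y - x * y1) := by ring
          _ = H * Int.gcdA H (x1 * y - x * y1) +
              (x1 * y - x * y1) * Int.gcdB H (x1 * y - x * y1) := by rw [← he, ← hk]
          _ = d := hb.symm
          _ = d * 1 := by ring
      exact mul_left_cancel₀ hd0 h5
    obtain ⟨m, hm⟩ := hxy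
    have h6 : (x1 * y - x * y1) * (x1 * y + x * y1) = H * m := by
      rw [← hm]; ring
    rw [hk] at h6
    have h7 : d * (k * (x1 * y + x * y1)) = d * (e * m) := by
      calc d * (k * (x1 * y + x * y1)) = H * m := by rw [← h6]; ring
        _ = (d * e) * m := by rw [← he]
        _ = _ := by ring
    have h8 := mul_left_cancel₀ hd0 h7
    have h9 : e ∣ k * (x1 * y + x * y1) := ⟨_, h8⟩
    exact hcop.dvd_of_dvd_mul_left h9
  have p2 := plus x2 y2 h12 rfl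
  have p3 := plus x3 y3 h13 (by rw [← hd])
  set T := x2 * y3 - x3 * y2 with hT
  have hdH : d ∣ H := ⟨e, he⟩
  have heH : e ∣ H := ⟨d, by rw [he]; ring⟩
  have dT : d ∣ T := by
    have a1 : d ∣ x1 * T := by
      have : x1 * T = x2 * (x1 * y3 - x3 * y1) - x3 * (x1 * y2 - x2 * y1) := by rw [hT]; ring
      rw [this]
      exact dvd_sub (Dvd.dvd.mul_left hd3 _) (Dvd.dvd.mul_left hd2 _)
    exact (hx1.of_isCoprime_of_dvd_left hdH).dvd_of_dvd_mul_left a1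
  have eT : e ∣ T := by
    have a1 : e ∣ x1 * T := by
      have : x1 * T = x2 * (x1 * y3 + x3 * y1) - x3 * (x1 * y2 + x2 * y1) := by rw [hT]; ring
      rw [this]
      exact dvd_sub (Dvd.dvd.mul_left p3 _) (Dvd.dvd.mul_left p2 _)
    exact (hx1.of_isCoprime_of_dvd_left heH).dvd_of_dvd_mul_left a1
  have hde : IsCoprime d e := by
    set g : ℤ := (Int.gcd d e : ℤ) with hg
    have hgd : g ∣ d := Int.gcd_dvd_left _ _
    have hge : g ∣ e := Int.gcd_dvd_right _ _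
    have hgH : g ∣ H := hgd.trans hdH
    have e1 : g ∣ 2 * x1 * y2 := by
      have : 2 * x1 * y2 = (x1 * y2 - x2 * y1) + (x1 * y2 + x2 * y1) := by ring
      rw [this]
      exact dvd_add (hgd.trans hd2) (hge.trans p2)
    have c1 : IsCoprime g (2 * x1 * y2) :=
      ((hH.of_isCoprime_of_dvd_left hgH).mul_right (hx1.of_isCoprime_of_dvd_left hgH)).mul_right
        (hy2.of_isCoprime_of_dvd_left hgH)
    have hu : IsUnit g := c1.isUnit_of_dvd' dvd_rfl e1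
    have hg1 : Int.gcd d e = 1 := by
      have := Int.isUnit_iff_natAbs_eq.mp hu
      rw [hg, Int.natAbs_natCast] at this
      exact this
    exact Int.isCoprime_iff_gcd_eq_one.mpr hg1
  rw [he]
  exact hde.mul_dvd dT eT

theorem cop_of_dvd {H A B x y : ℤ} (hB : IsCoprime B H) (hxy : IsCoprime x y)
    (h : H ∣ A * x ^ 2 - B * y ^ 2) : IsCoprime H x := by
  rw [Int.isCoprime_iff_gcd_eq_one]
  set g : ℤ := (Int.gcd H x : ℤ) with hg
  have g1 : g ∣ H := Int.gcd_dvd_left _ _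
  have g2 : g ∣ x := Int.gcd_dvd_right _ _
  have g3 : g ∣ B * y ^ 2 := by
    have : B * y ^ 2 = A * x ^ 2 - (A * x ^ 2 - B * y ^ 2) := by ring
    rw [this]
    exact dvd_sub (Dvd.dvd.mul_left (g2.trans (dvd_pow_self x (by norm_num))) _) (g1.trans h)
  have c1 : IsCoprime g B := (hB.symm).of_isCoprime_of_dvd_left g1
  have c2 : IsCoprime g (y ^ 2) := (hxy.of_isCoprime_of_dvd_left g2).pow_right
  have hu : IsUnit g := (c1.mul_right c2).isUnit_of_dvd' dvd_rfl g3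
  have := Int.isUnit_iff_natAbs_eq.mp hu
  rwa [hg, Int.natAbs_natCast] at this

/-- coprime pairs with small product on a conic modulo `H` -/
theorem cls3 {H : ℕ} {A B : ℤ} (hH0 : 0 < H) (hodd : IsCoprime (H : ℤ) 2)
    (hA : IsCoprime A (H : ℤ)) (hB : IsCoprime B (H : ℤ)) (X : ℕ) (S : Finset (ℕ × ℕ))
    (hS : ∀ v ∈ S, 0 < v.1 ∧ 0 < v.2 ∧ Nat.Coprime v.1 v.2 ∧
      (H : ℤ) ∣ A * (v.1 : ℤ) ^ 2 - B * (v.2 : ℤ) ^ 2 ∧ v.1 ≤ X ∧ v.2 ≤ X ∧ 4 * (v.1 * v.2) ≤ H) :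
    S.card ≤ (Nat.log 2 X + 1) * (Nat.log 2 X + 1) * H.divisors.card := by
  classical
  rcases S.eq_empty_or_nonempty with h0 | ⟨v1, hv1⟩
  · rw [h0, Finset.card_empty]; exact Nat.zero_le _
  have hHz : (H : ℤ) ≠ 0 := by exact_mod_cast hH0.ne'
  have copx : ∀ v ∈ S, IsCoprime (H : ℤ) (v.1 : ℤ) := by
    intro v hv
    obtain ⟨_, _, c, hd, _⟩ := hS v hv
    exact cop_of_dvd hB (Nat.isCoprime_iff_coprime.mpr c) hd
  have copy : ∀ v ∈ S, IsCoprime (H : ℤ) (v.2 : ℤ) := by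
    intro v hv
    obtain ⟨_, _, c, hd, _⟩ := hS v hv
    refine cop_of_dvd (A := B) (B := A) (y := (v.1 : ℤ)) hA (Nat.isCoprime_iff_coprime.mpr c).symm ?_
    have : B * (v.2 : ℤ) ^ 2 - A * (v.1 : ℤ) ^ 2 = -(A * (v.1 : ℤ) ^ 2 - B * (v.2 : ℤ) ^ 2) := by
      ring
    rw [this]
    exact hd.neg_right
  have hsq : ∀ v ∈ S, ∀ w ∈ S, (H : ℤ) ∣ (v.1 : ℤ) ^ 2 * (w.2 : ℤ) ^ 2 -
      (w.1 : ℤ) ^ 2 * (v.2 : ℤ) ^ 2 := by
    intro v hv w hw
    obtain ⟨_, _, _, h1, _⟩ := hS v hv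
    obtain ⟨_, _, _, h2, _⟩ := hS w hw
    have h3 : (H : ℤ) ∣ A * ((v.1 : ℤ) ^ 2 * (w.2 : ℤ) ^ 2 - (w.1 : ℤ) ^ 2 * (v.2 : ℤ) ^ 2) := by
      have : A * ((v.1 : ℤ) ^ 2 * (w.2 : ℤ) ^ 2 - (w.1 : ℤ) ^ 2 * (v.2 : ℤ) ^ 2) =
          (A * (v.1 : ℤ) ^ 2 - B * (v.2 : ℤ) ^ 2) * (w.2 : ℤ) ^ 2 -
          (A * (w.1 : ℤ) ^ 2 - B * (w.2 : ℤ) ^ 2) * (v.2 : ℤ) ^ 2 := by ring
      rw [this]
      exact dvd_sub (Dvd.dvd.mul_right h1 _) (Dvd.dvd.mul_right h2 _)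
    exact (hA.symm).dvd_of_dvd_mul_left h3
  set f : ℕ × ℕ → (ℕ × ℕ) × ℕ := fun v => ((Nat.log 2 v.1, Nat.log 2 v.2),
    Int.gcd H ((v1.1 : ℤ) * v.2 - v.1 * v1.2)) with hf
  have hinj : Set.InjOn f S := by
    intro v hv w hw hvw
    have hv' : v ∈ S := hv
    have hw' : w ∈ S := hw
    obtain ⟨v1p, v2p, vc, _, _, _, vb⟩ := hS v hv'
    obtain ⟨w1p, w2p, wc, _, _, _, wb⟩ := hS w hw'
    have hvw' : f v = f w := hvw
    have e1 : Nat.log 2 v.1 = Nat.log 2 w.1 := (Prod.ext_iff.mp (Prod.ext_iff.mp hvw').1).1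
    have e2 : Nat.log 2 v.2 = Nat.log 2 w.2 := (Prod.ext_iff.mp (Prod.ext_iff.mp hvw').1).2
    have e3 : Int.gcd H ((v1.1 : ℤ) * v.2 - v.1 * v1.2) =
        Int.gcd H ((v1.1 : ℤ) * w.2 - w.1 * v1.2) := (Prod.ext_iff.mp hvw').2
    have hdvd : (H : ℤ) ∣ (v.1 : ℤ) * w.2 - w.1 * v.2 :=
      cls2 hHz hodd (copx v1 hv1) (copy v hv') (hsq v1 hv1 v hv') (hsq v1 hv1 w hw') e3
    have twice : ∀ x y : ℕ, 0 < y → Nat.log 2 x = Nat.log 2 y → x < 2 * y := by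
      intro x y hy hxy
      have h1 : x < 2 ^ (Nat.log 2 x + 1) := Nat.lt_pow_succ_log_self (by norm_num) x
      have h2 : 2 ^ Nat.log 2 y ≤ y := Nat.pow_log_le_self 2 (by omega)
      rw [hxy, pow_succ] at h1
      omega
    have b1 : v.1 * w.2 < H := by
      have h1 : w.2 < 2 * v.2 := twice _ _ v2p e2.symm
      have h2 : v.1 * w.2 < v.1 * (2 * v.2) := Nat.mul_lt_mul_of_pos_left h1 v1p
      have h3 : v.1 * (2 * v.2) = 2 * (v.1 * v.2) := by ring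
      omega
    have b2 : w.1 * v.2 < H := by
      have h1 : w.1 < 2 * v.1 := twice _ _ v1p e1.symm
      have h2 : w.1 * v.2 < (2 * v.1) * v.2 := Nat.mul_lt_mul_of_pos_right h1 v2p
      have h3 : (2 * v.1) * v.2 = 2 * (v.1 * v.2) := by ring
      omega
    have hz : (v.1 : ℤ) * w.2 - w.1 * v.2 = 0 := by
      apply Int.eq_zero_of_abs_lt_dvd hdvd
      have c1 : (v.1 : ℤ) * w.2 < H := by exact_mod_cast b1
      have c2 : (w.1 : ℤ) * v.2 < H := by exact_mod_cast b2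
      have c3 : (0 : ℤ) ≤ (v.1 : ℤ) * w.2 := by positivity
      have c4 : (0 : ℤ) ≤ (w.1 : ℤ) * v.2 := by positivity
      rw [abs_lt]
      constructor <;> linarith
    have hz' : v.1 * w.2 = w.1 * v.2 := by
      have : (v.1 : ℤ) * w.2 = w.1 * v.2 := by linarith
      exact_mod_cast this
    have d1 : v.1 ∣ w.1 := by
      have : v.1 ∣ w.1 * v.2 := ⟨w.2, hz'.symm⟩
      exact vc.dvd_of_dvd_mul_right this
    have d2 : w.1 ∣ v.1 := by
      have : w.1 ∣ v.1 * w.2 := ⟨v.2, hz'⟩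
      exact wc.dvd_of_dvd_mul_right this
    have e4 : v.1 = w.1 := Nat.dvd_antisymm d1 d2
    have e5 : v.2 = w.2 := by
      rw [e4] at hz'
      exact (Nat.eq_of_mul_eq_mul_left w1p hz').symm
    exact Prod.ext e4 e5
  have himg : S.image f ⊆ ((range (Nat.log 2 X + 1)) ×ˢ (range (Nat.log 2 X + 1))) ×ˢ
      H.divisors := by
    intro u hu
    rw [Finset.mem_image] at hu
    obtain ⟨v, hv, rfl⟩ := hu
    obtain ⟨_, _, _, _, b1, b2, _⟩ := hS v hv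
    rw [Finset.mem_product, Finset.mem_product, Finset.mem_range, Finset.mem_range]
    have l1 : Nat.log 2 v.1 ≤ Nat.log 2 X := Nat.log_mono_right b1
    have l2 : Nat.log 2 v.2 ≤ Nat.log 2 X := Nat.log_mono_right b2
    refine ⟨⟨Nat.lt_succ_of_le l1, Nat.lt_succ_of_le l2⟩, ?_⟩
    rw [Nat.mem_divisors]
    refine ⟨?_, hH0.ne'⟩
    exact Int.natCast_dvd_natCast.mp (Int.gcd_dvd_left (H : ℤ) ((v1.1 : ℤ) * v.2 - v.1 * v1.2))
  rw [← Finset.card_image_of_injOn hinj]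
  refine (Finset.card_le_card himg).trans (le_of_eq ?_)
  rw [Finset.card_product, Finset.card_product, Finset.card_range]

/-- solutions `(α, β, γ, η)` with fixed coefficients -/
theorem cf_fix {ka la ka' la' h h' : ℤ} {q : ℕ} (hq0 : 0 < q) (hq2 : IsCoprime (q : ℤ) 2)
    (c1 : IsCoprime ka (q : ℤ)) (c2 : IsCoprime ka' (q : ℤ)) (c3 : IsCoprime la (q : ℤ))
    (hh : h ≠ 0) (hh' : h' ≠ 0) (hq : (q : ℤ) ∣ h * h') (X : ℕ)
    (S : Finset (ℕ × ℕ × ℕ × ℕ))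
    (hS : ∀ v ∈ S, 0 < v.1 ∧ 0 < v.2.1 ∧ 0 < v.2.2.1 ∧ 0 < v.2.2.2 ∧
      Nat.Coprime v.2.1 v.2.2.1 ∧ Nat.Coprime v.1 v.2.2.2 ∧
      ka * (v.2.1 : ℤ) ^ 2 - ka' * (v.2.2.1 : ℤ) ^ 2 = h * (v.2.2.2 : ℤ) ^ 2 ∧
      la * (v.2.2.1 : ℤ) ^ 2 - la' * (v.2.1 : ℤ) ^ 2 = h * (v.1 : ℤ) ^ 2 ∧
      h' * (v.2.1 : ℤ) ^ 2 = la * (v.2.2.2 : ℤ) ^ 2 + ka' * (v.1 : ℤ) ^ 2 ∧
      h' * (v.2.2.1 : ℤ) ^ 2 = la' * (v.2.2.2 : ℤ) ^ 2 + ka * (v.1 : ℤ) ^ 2 ∧
      v.1 ≤ X ∧ v.2.1 ≤ X ∧ v.2.2.1 ≤ X ∧ v.2.2.2 ≤ X ∧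
      16 * (v.1 * v.2.1 * v.2.2.1 * v.2.2.2) ≤ q) :
    S.card ≤ 2 * ((Nat.log 2 X + 1) * (Nat.log 2 X + 1) * q.divisors.card) := by
  classical
  set H : ℕ := Nat.gcd q h.natAbs with hH
  set H' : ℕ := Nat.gcd q h'.natAbs with hH'
  have hHq : H ∣ q := Nat.gcd_dvd_left _ _
  have hHq' : H' ∣ q := Nat.gcd_dvd_left _ _
  have hH0 : 0 < H := Nat.gcd_pos_of_pos_left _ hq0
  have hH0' : 0 < H' := Nat.gcd_pos_of_pos_left _ hq0
  have hHqz : (H : ℤ) ∣ (q : ℤ) := Int.natCast_dvd_natCast.mpr hHq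
  have hHqz' : (H' : ℤ) ∣ (q : ℤ) := Int.natCast_dvd_natCast.mpr hHq'
  have hHh : (H : ℤ) ∣ h := Int.natCast_dvd.mpr (Nat.gcd_dvd_right _ _)
  have hHh' : (H' : ℤ) ∣ h' := Int.natCast_dvd.mpr (Nat.gcd_dvd_right _ _)
  have hqHH : q ≤ H * H' := by
    apply Nat.le_of_dvd (Nat.mul_pos hH0 hH0')
    have h1 : q ∣ h.natAbs * h'.natAbs := by
      rw [← Int.natAbs_mul]; exact Int.natCast_dvd.mp hq
    have h2 : q = Nat.gcd q (h.natAbs * h'.natAbs) := (Nat.gcd_eq_left h1).symm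
    calc q = Nat.gcd q (h.natAbs * h'.natAbs) := h2
      _ ∣ _ := Nat.gcd_mul_right_dvd_mul_gcd _ _ _
  set S1 := S.filter (fun v => 4 * (v.2.1 * v.2.2.1) ≤ H) with hS1
  set S2 := S.filter (fun v => 4 * (v.1 * v.2.2.2) ≤ H') with hS2
  have hcov : S ⊆ S1 ∪ S2 := by
    intro v hv
    by_contra hcon
    rw [Finset.mem_union, not_or, hS1, hS2, Finset.mem_filter, Finset.mem_filter, not_and,
      not_and] at hcon
    have a1 := hcon.1 hv
    have a2 := hcon.2 hv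
    push Not at a1 a2
    obtain ⟨_, _, _, _, _, _, _, _, _, _, _, _, _, _, hb⟩ := hS v hv
    have a3 : H * H' < (4 * (v.2.1 * v.2.2.1)) * (4 * (v.1 * v.2.2.2)) := Nat.mul_lt_mul'' a1 a2
    have a4 : (4 * (v.2.1 * v.2.2.1)) * (4 * (v.1 * v.2.2.2)) =
      16 * (v.1 * v.2.1 * v.2.2.1 * v.2.2.2) := by ring
    omega
  have pow_inj : ∀ x y : ℕ, (x : ℤ) ^ 2 = (y : ℤ) ^ 2 → x = y := by
    intro x y hxy
    have : x ^ 2 = y ^ 2 := by exact_mod_cast hxy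
    exact Nat.pow_left_injective (n := 2) (by norm_num) this
  have b1 : S1.card ≤ (Nat.log 2 X + 1) * (Nat.log 2 X + 1) * q.divisors.card := by
    set φ : ℕ × ℕ × ℕ × ℕ → ℕ × ℕ := fun v => (v.2.1, v.2.2.1) with hφ
    have hinj : Set.InjOn φ S1 := by
      intro v hv w hw hvw
      obtain ⟨_, _, _, _, _, _, v1, v2, _⟩ := hS v (Finset.mem_filter.mp hv).1
      obtain ⟨_, _, _, _, _, _, w1, w2, _⟩ := hS w (Finset.mem_filter.mp hw).1
      have hvw' : φ v = φ w := hvw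
      have e1 : v.2.1 = w.2.1 := (Prod.ext_iff.mp hvw').1
      have e2 : v.2.2.1 = w.2.2.1 := (Prod.ext_iff.mp hvw').2
      have e3 : v.2.2.2 = w.2.2.2 := by
        apply pow_inj
        rw [e1, e2, w1] at v1
        exact (mul_left_cancel₀ hh v1).symm
      have e4 : v.1 = w.1 := by
        apply pow_inj
        rw [e1, e2, w2] at v2
        exact (mul_left_cancel₀ hh v2).symm
      exact Prod.ext e4 (Prod.ext e1 (Prod.ext e2 e3))
    rw [← Finset.card_image_of_injOn hinj]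
    have h1 := cls3 (H := H) (A := ka) (B := ka') hH0 (hq2.of_isCoprime_of_dvd_left hHqz)
      (c1.of_isCoprime_of_dvd_right hHqz) (c2.of_isCoprime_of_dvd_right hHqz) X (S1.image φ) (by
        intro u hu
        rw [Finset.mem_image] at hu
        obtain ⟨v, hv, rfl⟩ := hu
        rw [hS1, Finset.mem_filter] at hv
        obtain ⟨p1, p2, p3, p4, p5, p6, p7, p8, p9, p10, p11, p12, p13, p14, p15⟩ := hS v hv.1
        refine ⟨p2, p3, p5, ?_, p12, p13, hv.2⟩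
        show (H : ℤ) ∣ ka * (v.2.1 : ℤ) ^ 2 - ka' * (v.2.2.1 : ℤ) ^ 2
        rw [p7]
        exact Dvd.dvd.mul_right hHh _)
    refine h1.trans (Nat.mul_le_mul_left _ ?_)
    exact Finset.card_le_card (Nat.divisors_subset_of_dvd hq0.ne' hHq)
  have b2 : S2.card ≤ (Nat.log 2 X + 1) * (Nat.log 2 X + 1) * q.divisors.card := by
    set φ : ℕ × ℕ × ℕ × ℕ → ℕ × ℕ := fun v => (v.1, v.2.2.2) with hφ
    have hinj : Set.InjOn φ S2 := by
      intro v hv w hw hvw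
      obtain ⟨_, _, _, _, _, _, _, _, v1, v2, _⟩ := hS v (Finset.mem_filter.mp hv).1
      obtain ⟨_, _, _, _, _, _, _, _, w1, w2, _⟩ := hS w (Finset.mem_filter.mp hw).1
      have hvw' : φ v = φ w := hvw
      have e1 : v.1 = w.1 := (Prod.ext_iff.mp hvw').1
      have e2 : v.2.2.2 = w.2.2.2 := (Prod.ext_iff.mp hvw').2
      have e3 : v.2.1 = w.2.1 := by
        apply pow_inj
        rw [e1, e2, ← w1] at v1
        exact mul_left_cancel₀ hh' v1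
      have e4 : v.2.2.1 = w.2.2.1 := by
        apply pow_inj
        rw [e1, e2, ← w2] at v2
        exact mul_left_cancel₀ hh' v2
      exact Prod.ext e1 (Prod.ext e3 (Prod.ext e4 e2))
    rw [← Finset.card_image_of_injOn hinj]
    have h1 := cls3 (H := H') (A := ka') (B := -la) hH0' (hq2.of_isCoprime_of_dvd_left hHqz')
      (c2.of_isCoprime_of_dvd_right hHqz') ((c3.of_isCoprime_of_dvd_right hHqz').neg_left) X
      (S2.image φ) (by
        intro u hu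
        rw [Finset.mem_image] at hu
        obtain ⟨v, hv, rfl⟩ := hu
        rw [hS2, Finset.mem_filter] at hv
        obtain ⟨p1, p2, p3, p4, p5, p6, p7, p8, p9, p10, p11, p12, p13, p14, p15⟩ := hS v hv.1
        refine ⟨p1, p4, p6, ?_, p11, p14, hv.2⟩
        show (H' : ℤ) ∣ ka' * (v.1 : ℤ) ^ 2 - (-la) * (v.2.2.2 : ℤ) ^ 2
        have : ka' * (v.1 : ℤ) ^ 2 - (-la) * (v.2.2.2 : ℤ) ^ 2 = h' * (v.2.1 : ℤ) ^ 2 := by
          rw [p9]; ring
        rw [this]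
        exact Dvd.dvd.mul_right hHh' _)
    refine h1.trans (Nat.mul_le_mul_left _ ?_)
    exact Finset.card_le_card (Nat.divisors_subset_of_dvd hq0.ne' hHq')
  calc S.card ≤ (S1 ∪ S2).card := Finset.card_le_card hcov
    _ ≤ S1.card + S2.card := Finset.card_union_le _ _
    _ ≤ _ := by omega

end Pool.EB3
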