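import Pool.Agent.H62.EB3.Bas

/-!
# Extensions of a brick by one edge
-/

set_option autoImplicit false

namespace Pool.EB3

open Finset

def M3 (t : Fin 3 → ℕ) : ℤ := (t 0 : ℤ) * (t 1 : ℤ) ^ 2
def L3 (t : Fin 3 → ℕ) : ℤ := (t 0 : ℤ) * (t 2 : ℤ) ^ 2
def B3 (a d0 : ℕ) (t : Fin 3 → ℕ) : ℤ := 4 * ((d0 : ℤ) ^ 2 * (a : ℤ) ^ 2) - 2 * M3 t * L3 t

open Classical in
noncomputable def G3 (X a d0 : ℕ) (t : Fin 3 → ℕ) : Finset (ℕ × ℕ) :=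
  if 4 * M3 t ^ 2 * L3 t ^ 2 - B3 a d0 t ^ 2 = 0 ∨ M3 t = 0 then ∅ else
  (SQ X (M3 t ^ 2) (B3 a d0 t) (L3 t ^ 2)).image (fun z : ℕ =>
    (z * d0, ((t 0 : ℤ) * ((z : ℤ) ^ 2 * (t 1 : ℤ) ^ 2 - (t 2 : ℤ) ^ 2)).natAbs / 2))

def D3 (m : ℕ) : Finset (Fin 3 → ℕ) := Fintype.piFinset (fun _ => m.divisors)

open Classical in
/-- the set of possible pairs (factor, new edge) -/
noncomputable def TT (X c a : ℕ) : Finset (ℕ × ℕ) :=
  ((Icc 1 X).filter (fun d0 => d0 ^ 2 * c ≤ 2 * X ∧ d0 * c ≤ X)).biUnion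
    (fun d0 => (D3 (d0 * c)).biUnion (G3 X a d0))

theorem mk3 {d c e E p q : ℕ} (hd : 0 < d) (h : d * c = E * p * q)
    (h3 : (2 * (e : ℤ)) ^ 2 = ((E : ℤ) * ((p : ℤ) ^ 2 - (q : ℤ) ^ 2)) ^ 2)
    (hz : d ≤ 2 * (Nat.gcd d p) ^ 2) :
    ∃ z d0 E p q : ℕ, d = z * d0 ∧ d0 * c = E * p * q ∧
      (2 * (e : ℤ)) ^ 2 = ((E : ℤ) * ((z : ℤ) ^ 2 * (p : ℤ) ^ 2 - (q : ℤ) ^ 2)) ^ 2 ∧
      d ≤ 2 * z ^ 2 := by
  set z := Nat.gcd d p with hzd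
  have hzpos : 0 < z := Nat.gcd_pos_of_pos_left _ hd
  obtain ⟨d0, hd0⟩ := Nat.gcd_dvd_left d p
  obtain ⟨p0, hp0⟩ := Nat.gcd_dvd_right d p
  rw [← hzd] at hd0 hp0
  refine ⟨z, d0, E, p0, q, hd0, ?_, ?_, hz⟩
  · have h5 : z * (d0 * c) = z * (E * p0 * q) := by
      calc z * (d0 * c) = (z * d0) * c := by ring
        _ = d * c := by rw [← hd0]
        _ = E * p * q := h
        _ = E * (z * p0) * q := by rw [← hp0]
        _ = _ := by ring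
    exact Nat.eq_of_mul_eq_mul_left hzpos h5
  · rw [h3]
    have : (p : ℤ) = z * p0 := by exact_mod_cast hp0
    rw [this]; ring

theorem ext_data {d c e : ℕ} (hd : 0 < d) (hc : 0 < c) (he : 0 < e) (hg : Nat.gcd d e = 1)
    (h : ∃ f : ℕ, e ^ 2 + (d * c) ^ 2 = f ^ 2) :
    ∃ z d0 E p q : ℕ, d = z * d0 ∧ d0 * c = E * p * q ∧
      (2 * (e : ℤ)) ^ 2 = ((E : ℤ) * ((z : ℤ) ^ 2 * (p : ℤ) ^ 2 - (q : ℤ) ^ 2)) ^ 2 ∧
      d ≤ 2 * z ^ 2 := by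
  obtain ⟨f, hf⟩ := h
  obtain ⟨E, p, q, hE, hp, hq, hEpq, hEe, -⟩ := pyt he (Nat.mul_pos hd hc) hf
  have hEd : Nat.gcd d E ∣ 2 := by
    set g := Nat.gcd d E with hgd
    have hgE : g ∣ E := Nat.gcd_dvd_right _ _
    have hgd' : g ∣ d := Nat.gcd_dvd_left _ _
    have h2 : g ∣ 2 * e := by
      have h3 : g ∣ 2 * e + E * q ^ 2 := by rw [hEe]; exact Dvd.dvd.mul_right hgE _
      exact (Nat.dvd_add_left (Dvd.dvd.mul_right hgE _)).mp h3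
    have h4 : g ∣ Nat.gcd (2 * d) (2 * e) := Nat.dvd_gcd (Dvd.dvd.mul_left hgd' _) h2
    rw [Nat.gcd_mul_left, hg, mul_one] at h4
    exact h4
  have hEd2 : Nat.gcd d E ≤ 2 := Nat.le_of_dvd (by norm_num) hEd
  have r1 : d ∣ Nat.gcd d E * Nat.gcd d p * Nat.gcd d q := by
    apply gcd_row
    rw [← hEpq]
    exact Dvd.dvd.mul_right (dvd_refl _) _
  have gp : ∀ y : ℕ, 0 < Nat.gcd d y := fun y => Nat.gcd_pos_of_pos_left _ hd
  have hle : d ≤ Nat.gcd d E * Nat.gcd d p * Nat.gcd d q := by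
    apply Nat.le_of_dvd _ r1
    have := gp E
    have := gp p
    have := gp q
    positivity
  have hle2 : d ≤ 2 * (Nat.gcd d p * Nat.gcd d q) := by
    calc d ≤ _ := hle
      _ = Nat.gcd d E * (Nat.gcd d p * Nat.gcd d q) := by ring
      _ ≤ _ := Nat.mul_le_mul_right _ hEd2
  have hEe' := sqeq hEe
  by_cases h1 : d ≤ 2 * (Nat.gcd d p) ^ 2
  · exact mk3 hd hEpq hEe' h1
  · by_cases h2 : d ≤ 2 * (Nat.gcd d q) ^ 2
    · exact mk3 hd (by rw [hEpq]; ring) (sqswap hEe') h2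
    · exfalso
      push Not at h1 h2
      have h3 : (2 * (Nat.gcd d p) ^ 2) * (2 * (Nat.gcd d q) ^ 2) < d * d := Nat.mul_lt_mul'' h1 h2
      have h4 : d * d ≤ (2 * (Nat.gcd d p * Nat.gcd d q)) * (2 * (Nat.gcd d p * Nat.gcd d q)) :=
        Nat.mul_le_mul hle2 hle2
      have h5 : (2 * (Nat.gcd d p * Nat.gcd d q)) * (2 * (Nat.gcd d p * Nat.gcd d q)) =
        (2 * (Nat.gcd d p) ^ 2) * (2 * (Nat.gcd d q) ^ 2) := by ring
      omega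

theorem coverT {X c a d e : ℕ} (hc : 0 < c) (ha : 0 < a) (hac : a ≠ c) (hd : 0 < d) (he : 0 < e)
    (hX : d * c ≤ X) (hg : Nat.gcd d e = 1) (h1 : ∃ f : ℕ, e ^ 2 + (d * c) ^ 2 = f ^ 2)
    (h2 : ∃ f : ℕ, e ^ 2 + (d * a) ^ 2 = f ^ 2) : (d, e) ∈ TT X c a := by
  classical
  obtain ⟨z, d0, E, p, q, g1, g2, g3, g4⟩ := ext_data hd hc he hg h1
  obtain ⟨f, hf⟩ := h2
  have hz0 : 0 < z := by
    rcases Nat.eq_zero_or_pos z with h0 | h0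
    · rw [h0] at g1; simp at g1; omega
    · exact h0
  have hd0 : 0 < d0 := by
    rcases Nat.eq_zero_or_pos d0 with h0 | h0
    · rw [h0] at g1; simp at g1; omega
    · exact h0
  have hdd : d0 ≤ d := by rw [g1]; exact Nat.le_mul_of_pos_left _ hz0
  have hzd : z ≤ d := by rw [g1]; exact Nat.le_mul_of_pos_right _ hd0
  have hdX : d ≤ X := le_trans (Nat.le_mul_of_pos_right _ hc) hX
  have h5 : d0 * c ≤ X := le_trans (Nat.mul_le_mul_right _ hdd) hX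
  have h6 : d0 ^ 2 * c ≤ 2 * X := by
    have h7 : d0 ≤ 2 * z := by
      have h8 : z * d0 ≤ z * (2 * z) := by
        calc z * d0 = d := g1.symm
          _ ≤ 2 * z ^ 2 := g4
          _ = _ := by ring
      exact Nat.le_of_mul_le_mul_left h8 hz0
    calc d0 ^ 2 * c = d0 * d0 * c := by ring
      _ ≤ (2 * z) * d0 * c := Nat.mul_le_mul_right _ (Nat.mul_le_mul_right _ h7)
      _ = 2 * ((z * d0) * c) := by ring
      _ = 2 * (d * c) := by rw [← g1]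
      _ ≤ 2 * X := Nat.mul_le_mul_left _ hX
  have hm : 0 < d0 * c := Nat.mul_pos hd0 hc
  unfold TT
  rw [Finset.mem_biUnion]
  refine ⟨d0, ?_, ?_⟩
  · rw [Finset.mem_filter, Finset.mem_Icc]
    exact ⟨⟨hd0, hdd.trans hdX⟩, h6, h5⟩
  rw [Finset.mem_biUnion]
  refine ⟨![E, p, q], ?_, ?_⟩
  · unfold D3
    rw [Fintype.mem_piFinset]
    intro i
    rw [Nat.mem_divisors]
    refine ⟨?_, hm.ne'⟩
    fin_cases i
    · show E ∣ d0 * c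
      exact ⟨p * q, by rw [g2]; ring⟩
    · show p ∣ d0 * c
      exact ⟨E * q, by rw [g2]; ring⟩
    · show q ∣ d0 * c
      exact ⟨E * p, by rw [g2]; ring⟩
  have hM : M3 ![E, p, q] = (E : ℤ) * (p : ℤ) ^ 2 := rfl
  have hL : L3 ![E, p, q] = (E : ℤ) * (q : ℤ) ^ 2 := rfl
  have hB : B3 a d0 ![E, p, q] = 4 * ((d0 : ℤ) ^ 2 * (a : ℤ) ^ 2) -
      2 * ((E : ℤ) * (p : ℤ) ^ 2) * ((E : ℤ) * (q : ℤ) ^ 2) := rfl
  have hmE : (d0 : ℤ) * c = E * p * q := by exact_mod_cast g2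
  have hd0' : (0 : ℤ) < d0 := by exact_mod_cast hd0
  have hc' : (0 : ℤ) < c := by exact_mod_cast hc
  have ha' : (0 : ℤ) < a := by exact_mod_cast ha
  have hMne : M3 ![E, p, q] ≠ 0 := by
    rw [hM]
    intro h0
    have h7 : (d0 : ℤ) * c = 0 := by
      rw [hmE]
      rcases mul_eq_zero.mp h0 with h8 | h8
      · rw [h8]; ring
      · have : (p : ℤ) = 0 := pow_eq_zero_iff (two_ne_zero) |>.mp h8
        rw [this]; ring
    have h8 : (0 : ℤ) < (d0 : ℤ) * c := by positivity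
    omega
  have hML : ((E : ℤ) * (p : ℤ) ^ 2) * ((E : ℤ) * (q : ℤ) ^ 2) = ((d0 : ℤ) * c) ^ 2 := by
    rw [hmE]; ring
  have hD : 4 * M3 ![E, p, q] ^ 2 * L3 ![E, p, q] ^ 2 - B3 a d0 ![E, p, q] ^ 2 ≠ 0 := by
    rw [hM, hL, hB]
    have e1 : 4 * ((E : ℤ) * (p : ℤ) ^ 2) ^ 2 * ((E : ℤ) * (q : ℤ) ^ 2) ^ 2 -
        (4 * ((d0 : ℤ) ^ 2 * (a : ℤ) ^ 2) -
          2 * ((E : ℤ) * (p : ℤ) ^ 2) * ((E : ℤ) * (q : ℤ) ^ 2)) ^ 2 =
        (4 * (((E : ℤ) * (p : ℤ) ^ 2) * ((E : ℤ) * (q : ℤ) ^ 2)) -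
          4 * ((d0 : ℤ) ^ 2 * (a : ℤ) ^ 2)) * (4 * ((d0 : ℤ) ^ 2 * (a : ℤ) ^ 2)) := by ring
    rw [e1, hML]
    have e2 : (4 * ((d0 : ℤ) * c) ^ 2 - 4 * ((d0 : ℤ) ^ 2 * (a : ℤ) ^ 2)) =
        4 * (d0 : ℤ) ^ 2 * ((c : ℤ) ^ 2 - (a : ℤ) ^ 2) := by ring
    rw [e2]
    have e3 : (c : ℤ) ^ 2 - (a : ℤ) ^ 2 ≠ 0 := by
      intro h0
      apply hac
      have h7 : (a : ℤ) ^ 2 = (c : ℤ) ^ 2 := by linarith
      have h8 : a ^ 2 = c ^ 2 := by exact_mod_cast h7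
      exact Nat.pow_left_injective (n := 2) (by norm_num) h8
    have e4 : (4 * (d0 : ℤ) ^ 2) ≠ 0 := by positivity
    have e5 : (4 * ((d0 : ℤ) ^ 2 * (a : ℤ) ^ 2)) ≠ 0 := by positivity
    exact mul_ne_zero (mul_ne_zero e4 e3) e5
  unfold G3
  rw [if_neg (by push Not; exact ⟨hD, hMne⟩), Finset.mem_image]
  refine ⟨z, ?_, ?_⟩
  · unfold SQ
    rw [Finset.mem_filter, Finset.mem_Icc]
    refine ⟨⟨hz0, hzd.trans hdX⟩, 2 * (f : ℤ), ?_⟩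
    rw [hM, hL, hB]
    have h6 : (e : ℤ) ^ 2 + ((d : ℤ) * (a : ℤ)) ^ 2 = (f : ℤ) ^ 2 := by exact_mod_cast hf
    have h7 : (d : ℤ) = z * d0 := by exact_mod_cast g1
    rw [h7] at h6
    linear_combination 4 * h6 - g3
  · refine Prod.ext ?_ ?_
    · exact g1.symm
    · exact half g3

theorem G3_card (ε : ℝ) (hε : 0 < ε) : ∃ C : ℝ, 1 ≤ C ∧ ∀ (X c a d0 : ℕ) (t : Fin 3 → ℕ), 1 ≤ X →
    c ≤ X → a ≤ c ^ 2 → d0 ≤ X → (∀ i, t i ≤ X) →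
    ((G3 X a d0 t).card : ℝ) ≤ C * (X : ℝ) ^ ε := by
  classical
  obtain ⟨C, hC, h⟩ := t1b ε hε 12
  refine ⟨C, hC, fun X c a d0 t hX hcX hac hd0 ht => ?_⟩
  unfold G3
  split_ifs with h0
  · rw [Finset.card_empty]; push_cast; positivity
  · push Not at h0
    have h1 : ((SQ X (M3 t ^ 2) (B3 a d0 t) (L3 t ^ 2)).card : ℝ) ≤ C * (X : ℝ) ^ ε := by
      refine h X X (M3 t) (B3 a d0 t) (L3 t) hX h0.2 h0.1 ?_
      have hX0 : (0 : ℤ) ≤ X := Int.natCast_nonneg X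
      have hX1 : (1 : ℤ) ≤ X := by exact_mod_cast hX
      have hb : ∀ i, (0 : ℤ) ≤ t i ∧ (t i : ℤ) ≤ X := fun i =>
        ⟨Int.natCast_nonneg _, by exact_mod_cast ht i⟩
      set W : ℤ := (d0 : ℤ) ^ 2 * (a : ℤ) ^ 2 with hW
      have hW0 : 0 ≤ W := by positivity
      have hW1 : W ≤ (X : ℤ) ^ 6 := by
        have e1 : (d0 : ℤ) ^ 2 ≤ (X : ℤ) ^ 2 :=
          pow_le_pow_left₀ (Int.natCast_nonneg _) (by exact_mod_cast hd0) 2
        have e2 : (a : ℤ) ≤ (X : ℤ) ^ 2 := by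
          have : a ≤ X ^ 2 := hac.trans (Nat.pow_le_pow_left hcX 2)
          exact_mod_cast this
        have e3 : (a : ℤ) ^ 2 ≤ ((X : ℤ) ^ 2) ^ 2 := pow_le_pow_left₀ (Int.natCast_nonneg _) e2 2
        calc W ≤ (X : ℤ) ^ 2 * ((X : ℤ) ^ 2) ^ 2 :=
              mul_le_mul e1 e3 (sq_nonneg _) (by positivity)
          _ = _ := by ring
      have hML0 : 0 ≤ M3 t * L3 t := by
        unfold M3 L3
        have := (hb 0).1
        positivity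
      have hML1 : M3 t * L3 t ≤ (X : ℤ) ^ 6 := by
        unfold M3 L3
        have e1 : (t 1 : ℤ) ^ 2 ≤ (X : ℤ) ^ 2 := pow_le_pow_left₀ (hb 1).1 (hb 1).2 2
        have e2 : (t 2 : ℤ) ^ 2 ≤ (X : ℤ) ^ 2 := pow_le_pow_left₀ (hb 2).1 (hb 2).2 2
        have e3 : (t 0 : ℤ) * (t 1 : ℤ) ^ 2 ≤ X * (X : ℤ) ^ 2 :=
          mul_le_mul (hb 0).2 e1 (sq_nonneg _) hX0
        have e4 : (t 0 : ℤ) * (t 2 : ℤ) ^ 2 ≤ X * (X : ℤ) ^ 2 :=
          mul_le_mul (hb 0).2 e2 (sq_nonneg _) hX0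
        calc (t 0 : ℤ) * (t 1 : ℤ) ^ 2 * ((t 0 : ℤ) * (t 2 : ℤ) ^ 2)
            ≤ (X * (X : ℤ) ^ 2) * (X * (X : ℤ) ^ 2) :=
              mul_le_mul e3 e4 (mul_nonneg (hb 0).1 (sq_nonneg _)) (by positivity)
          _ = _ := by ring
      have hfac : 4 * M3 t ^ 2 * L3 t ^ 2 - B3 a d0 t ^ 2 =
          (4 * (M3 t * L3 t) - 4 * W) * (4 * W) := by
        unfold B3; rw [← hW]; ring
      rw [hfac, abs_mul, abs_of_nonneg (by positivity : (0 : ℤ) ≤ 4 * W)]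
      have e7 : |4 * (M3 t * L3 t) - 4 * W| ≤ 4 * (X : ℤ) ^ 6 := by
        rw [abs_le]
        constructor <;> linarith
      have e8 : 4 * W ≤ 4 * (X : ℤ) ^ 6 := by linarith
      calc |4 * (M3 t * L3 t) - 4 * W| * (4 * W) ≤ (4 * (X : ℤ) ^ 6) * (4 * (X : ℤ) ^ 6) :=
            mul_le_mul e7 e8 (by positivity) (by positivity)
        _ = 16 * (X : ℤ) ^ 12 := by ring
        _ ≤ 100 ^ 12 * (X : ℤ) ^ 12 := by
            apply mul_le_mul_of_nonneg_right (by norm_num) (by positivity)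
        _ = (100 * (X : ℤ)) ^ 12 := by ring
    refine le_trans ?_ h1
    exact_mod_cast Finset.card_image_le

theorem TT_card (ε : ℝ) (hε : 0 < ε) : ∃ C : ℝ, 1 ≤ C ∧ ∀ (X c a : ℕ), 1 ≤ X → 1 ≤ c → c ≤ X →
    a ≤ c ^ 2 → ((TT X c a).card : ℝ) ≤ C * Real.sqrt ((X : ℝ) / c) * (X : ℝ) ^ ε := by
  classical
  obtain ⟨C1, hC1, h1⟩ := Pool.Agent.H93.BT.divisor_bound (ε / 6) (by positivity)
  obtain ⟨C2, hC2, h2⟩ := G3_card (ε / 2) (by positivity)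
  have hC1' : 1 ≤ C1 ^ 3 := one_le_pow₀ hC1
  refine ⟨2 * (C1 ^ 3 * C2), by nlinarith, fun X c a hX hc hcX hac => ?_⟩
  have hX1 : (1 : ℝ) ≤ X := by exact_mod_cast hX
  have hX0 : (0 : ℝ) < X := by linarith
  have hc0 : (0 : ℝ) < c := by exact_mod_cast hc
  set T := (Icc 1 X).filter (fun d0 => d0 ^ 2 * c ≤ 2 * X ∧ d0 * c ≤ X) with hT
  have hTc : (T.card : ℝ) ≤ 2 * Real.sqrt ((X : ℝ) / c) := by
    have h3 : T ⊆ Icc 1 ⌊2 * Real.sqrt ((X : ℝ) / c)⌋₊ := by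
      intro d0 hd
      rw [hT, Finset.mem_filter, Finset.mem_Icc] at hd
      rw [Finset.mem_Icc]
      refine ⟨hd.1.1, Nat.le_floor ?_⟩
      have h4 : (d0 : ℝ) ^ 2 * c ≤ 2 * X := by exact_mod_cast hd.2.1
      have h5 : (d0 : ℝ) ^ 2 ≤ 4 * ((X : ℝ) / c) := by
        rw [← mul_div_assoc, le_div_iff₀ hc0]; linarith
      have h6 : (d0 : ℝ) ≤ Real.sqrt (4 * ((X : ℝ) / c)) := Real.le_sqrt_of_sq_le h5
      rw [Real.sqrt_mul (by norm_num)] at h6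
      have h7 : Real.sqrt 4 = 2 := by
        rw [show (4 : ℝ) = 2 ^ 2 by norm_num]; exact Real.sqrt_sq (by norm_num)
      rw [h7] at h6
      exact h6
    have h4 := Finset.card_le_card h3
    rw [Nat.card_Icc, Nat.add_sub_cancel] at h4
    calc (T.card : ℝ) ≤ (⌊2 * Real.sqrt ((X : ℝ) / c)⌋₊ : ℝ) := by exact_mod_cast h4
      _ ≤ _ := Nat.floor_le (by positivity)
  have h3 : ((TT X c a).card : ℝ) ≤ T.card *
      (C1 ^ 3 * (X : ℝ) ^ (ε / 2) * (C2 * (X : ℝ) ^ (ε / 2))) := by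
    unfold TT
    rw [← hT]
    refine card_bi' _ _ _ fun d0 hd => ?_
    rw [hT, Finset.mem_filter, Finset.mem_Icc] at hd
    have hm1 : 1 ≤ d0 * c := Nat.mul_pos hd.1.1 hc
    have hcard : ((D3 (d0 * c)).card : ℝ) ≤ C1 ^ 3 * (X : ℝ) ^ (ε / 2) := by
      have h4 : (D3 (d0 * c)).card = (d0 * c).divisors.card ^ 3 := by
        unfold D3
        rw [Fintype.card_piFinset_const]
      have h5 := h1 (d0 * c) (by omega)
      have h6 : ((d0 * c : ℕ) : ℝ) ^ (ε / 6) ≤ (X : ℝ) ^ (ε / 6) :=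
        Real.rpow_le_rpow (Nat.cast_nonneg _) (by exact_mod_cast hd.2.2) (by positivity)
      rw [h4]
      push_cast
      push_cast at h5 h6
      calc ((d0 * c).divisors.card : ℝ) ^ 3 ≤ (C1 * (X : ℝ) ^ (ε / 6)) ^ 3 :=
            pow_le_pow_left₀ (Nat.cast_nonneg _)
              (h5.trans (mul_le_mul_of_nonneg_left h6 (by linarith))) 3
        _ = C1 ^ 3 * ((X : ℝ) ^ (ε / 6)) ^ 3 := by ring
        _ = C1 ^ 3 * (X : ℝ) ^ (ε / 2) := by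
            rw [← Real.rpow_natCast ((X : ℝ) ^ (ε / 6)), ← Real.rpow_mul hX0.le]
            congr 2
            push_cast
            ring
    refine (card_bi' _ _ (C2 * (X : ℝ) ^ (ε / 2)) fun t ht => ?_).trans ?_
    · refine h2 X c a d0 t hX hcX hac hd.1.2 fun i => ?_
      unfold D3 at ht
      rw [Fintype.mem_piFinset] at ht
      exact (Nat.divisor_le (ht i)).trans hd.2.2
    · exact mul_le_mul_of_nonneg_right hcard (by positivity)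
  have hee : (X : ℝ) ^ (ε / 2) * (X : ℝ) ^ (ε / 2) = (X : ℝ) ^ ε := by
    rw [← Real.rpow_add hX0]; congr 1; ring
  calc ((TT X c a).card : ℝ) ≤ T.card *
      (C1 ^ 3 * (X : ℝ) ^ (ε / 2) * (C2 * (X : ℝ) ^ (ε / 2))) := h3
    _ ≤ (2 * Real.sqrt ((X : ℝ) / c)) *
        (C1 ^ 3 * (X : ℝ) ^ (ε / 2) * (C2 * (X : ℝ) ^ (ε / 2))) :=
        mul_le_mul_of_nonneg_right hTc (by positivity)
    _ = 2 * (C1 ^ 3 * C2) * Real.sqrt ((X : ℝ) / c) *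
        ((X : ℝ) ^ (ε / 2) * (X : ℝ) ^ (ε / 2)) := by ring
    _ = _ := by rw [hee]

end Pool.EB3
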