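import Pool.Agent.H62.EB3.Asm

/-!
# The count of primitive three dimensional bricks
-/

set_option autoImplicit false

namespace Pool.EB3

open Finset

/-- `c` is at most the product of the five gcds -/
theorem five {c E p q F r s : ℕ} (hc : 0 < c) (h1 : c = E * p * q) (h2 : c = F * r * s)
    (hpq : Nat.Coprime p q) :
    c ≤ E * F * (Nat.gcd p s * Nat.gcd q r) * (Nat.gcd p r * Nat.gcd q s) := by
  have pos_of : ∀ x y : ℕ, c = x * y → 0 < x ∧ 0 < y := by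
    intro x y hxy
    constructor
    · rcases Nat.eq_zero_or_pos x with h0 | h0
      · rw [h0, zero_mul] at hxy; omega
      · exact h0
    · rcases Nat.eq_zero_or_pos y with h0 | h0
      · rw [h0, mul_zero] at hxy; omega
      · exact h0
  have hq0 : 0 < q := (pos_of _ _ h1).2
  have hp0 : 0 < p := (pos_of (E * q) p (by rw [h1]; ring)).2
  have hF0 : 0 < F := (pos_of F (r * s) (by rw [h2]; ring)).1
  have r2 : p ∣ Nat.gcd p F * Nat.gcd p r * Nat.gcd p s := by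
    apply gcd_row
    rw [← h2, h1]
    exact Dvd.dvd.mul_right (Dvd.dvd.mul_left (dvd_refl _) _) _
  have r3 : q ∣ Nat.gcd q F * Nat.gcd q r * Nat.gcd q s := by
    apply gcd_row
    rw [← h2, h1]
    exact Dvd.dvd.mul_left (dvd_refl _) _
  have gp : ∀ y : ℕ, 0 < Nat.gcd p y := fun y => Nat.gcd_pos_of_pos_left _ hp0
  have gq : ∀ y : ℕ, 0 < Nat.gcd q y := fun y => Nat.gcd_pos_of_pos_left _ hq0
  have l2 : p ≤ Nat.gcd p F * Nat.gcd p r * Nat.gcd p s := by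
    apply Nat.le_of_dvd _ r2
    have := gp F
    have := gp r
    have := gp s
    positivity
  have l3 : q ≤ Nat.gcd q F * Nat.gcd q r * Nat.gcd q s := by
    apply Nat.le_of_dvd _ r3
    have := gq F
    have := gq r
    have := gq s
    positivity
  have lF : Nat.gcd p F * Nat.gcd q F ≤ F := by
    apply Nat.le_of_dvd hF0
    have c1 : Nat.Coprime (Nat.gcd p F) (Nat.gcd q F) :=
      Nat.Coprime.coprime_dvd_left (Nat.gcd_dvd_left _ _)
        (Nat.Coprime.coprime_dvd_right (Nat.gcd_dvd_left _ _) hpq)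
    exact c1.mul_dvd_of_dvd_of_dvd (Nat.gcd_dvd_right _ _) (Nat.gcd_dvd_right _ _)
  calc c = E * (p * q) := by rw [h1]; ring
    _ ≤ E * ((Nat.gcd p F * Nat.gcd p r * Nat.gcd p s) *
        (Nat.gcd q F * Nat.gcd q r * Nat.gcd q s)) :=
        Nat.mul_le_mul_left _ (Nat.mul_le_mul l2 l3)
    _ = E * ((Nat.gcd p F * Nat.gcd q F) * ((Nat.gcd p s * Nat.gcd q r) *
        (Nat.gcd p r * Nat.gcd q s))) := by ring
    _ ≤ E * (F * ((Nat.gcd p s * Nat.gcd q r) * (Nat.gcd p r * Nat.gcd q s))) :=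
        Nat.mul_le_mul_left _ (Nat.mul_le_mul_right _ lF)
    _ = _ := by ring

/-- `E` is at most twice the gcd of the edges -/
theorem E_le {c a E p q : ℕ} (hc : 0 < c) (h1 : c = E * p * q)
    (h3 : 2 * a + E * q ^ 2 = E * p ^ 2) : E ≤ 2 * Nat.gcd c a := by
  apply Nat.le_of_dvd (Nat.mul_pos (by norm_num) (Nat.gcd_pos_of_pos_left _ hc))
  have e1 : E ∣ 2 * c := by
    rw [h1]
    exact Dvd.dvd.mul_left (Dvd.dvd.mul_right (Dvd.dvd.mul_right dvd_rfl _) _) _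
  have e2 : E ∣ 2 * a := by
    have h4 : E ∣ 2 * a + E * q ^ 2 := by rw [h3]; exact Dvd.intro _ rfl
    exact (Nat.dvd_add_left (Dvd.intro _ rfl)).mp h4
  rw [← Nat.gcd_mul_left]
  exact Nat.dvd_gcd e1 e2

/-- from a large quotient to a small divisor -/
theorem quot {c d X K : ℕ} (hcX : c ≤ X) (hd : d ∣ c) (hc : 0 < c)
    (h : K * X ^ 4 < (c / d) ^ 5) : K * d ^ 5 < c := by
  obtain ⟨m, hm⟩ := hd
  have hd0 : 0 < d := by
    rcases Nat.eq_zero_or_pos d with h0 | h0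
    · rw [h0, zero_mul] at hm; omega
    · exact h0
  have hdiv : c / d = m := by
    conv_lhs => rw [hm]
    exact Nat.mul_div_cancel_left _ hd0
  rw [hdiv] at h
  have h1 : K * c ^ 4 < m ^ 5 := lt_of_le_of_lt (Nat.mul_le_mul_left _ (Nat.pow_le_pow_left hcX 4)) h
  have h2 : (K * d ^ 5) * c ^ 4 < c * c ^ 4 := by
    calc (K * d ^ 5) * c ^ 4 = (K * c ^ 4) * d ^ 5 := by ring
      _ < m ^ 5 * d ^ 5 := Nat.mul_lt_mul_of_pos_right h1 (by positivity)
      _ = (d * m) ^ 5 := by ring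
      _ = c ^ 5 := by rw [← hm]
      _ = c * c ^ 4 := by ring
  exact Nat.lt_of_mul_lt_mul_right h2

/-- a large divisor `z` of `c` with `c < 64 z^4` -/
theorem quot4 {c z X : ℕ} (hcX : c ≤ X) (hz : z ∣ c) (hc : 0 < c) (h : c ≤ 64 * z ^ 4) :
    (c / z) ^ 5 ≤ 256 * X ^ 4 := by
  obtain ⟨m, hm⟩ := hz
  have hz0 : 0 < z := by
    rcases Nat.eq_zero_or_pos z with h0 | h0
    · rw [h0, zero_mul] at hm; omega
    · exact h0
  have hdiv : c / z = m := by
    conv_lhs => rw [hm]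
    exact Nat.mul_div_cancel_left _ hz0
  rw [hdiv]
  have h1 : m ^ 4 ≤ 64 * c ^ 3 := by
    have h2 : m ^ 4 * z ^ 4 ≤ (64 * c ^ 3) * z ^ 4 := by
      calc m ^ 4 * z ^ 4 = (z * m) ^ 4 := by ring
        _ = c ^ 3 * c := by rw [← hm]; ring
        _ ≤ c ^ 3 * (64 * z ^ 4) := Nat.mul_le_mul_left _ h
        _ = _ := by ring
    exact Nat.le_of_mul_le_mul_right h2 (by positivity)
  have hX0 : 0 < X := lt_of_lt_of_le hc hcX
  have h2 : (m ^ 5) ^ 4 ≤ (256 * X ^ 4) ^ 4 := by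
    calc (m ^ 5) ^ 4 = (m ^ 4) ^ 5 := by ring
      _ ≤ (64 * c ^ 3) ^ 5 := Nat.pow_le_pow_left h1 5
      _ = 2 ^ 30 * c ^ 15 := by ring
      _ ≤ 2 ^ 32 * X ^ 15 := Nat.mul_le_mul (by norm_num) (Nat.pow_le_pow_left hcX 15)
      _ ≤ 2 ^ 32 * X ^ 16 :=
          Nat.mul_le_mul_left _ (Nat.pow_le_pow_right hX0 (by norm_num))
      _ = (256 * X ^ 4) ^ 4 := by ring
  exact (Nat.pow_le_pow_iff_left (by norm_num)).mp h2

/-- every primitive brick lies in one of the sets -/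
theorem cover {c a b X : ℕ} (hc : 0 < c) (ha : 0 < a) (hb : 0 < b) (hcX : c ≤ X)
    (hca : ∃ f : ℕ, a ^ 2 + c ^ 2 = f ^ 2) (hcb : ∃ f : ℕ, b ^ 2 + c ^ 2 = f ^ 2)
    (hab : ∃ f : ℕ, a ^ 2 + b ^ 2 = f ^ 2)
    (hg : ∀ g : ℕ, g ∣ c → g ∣ a → g ∣ b → g = 1) :
    (c, a, b) ∈ SA X ∨ (c, b, a) ∈ SA X ∨ (c, a, b) ∈ SC X ∨ (c, a, b) ∈ SD X := by
  classical
  have hba : ∃ f : ℕ, b ^ 2 + a ^ 2 = f ^ 2 := by
    obtain ⟨f, hf⟩ := hab
    exact ⟨f, by rw [add_comm]; exact hf⟩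
  have hne : a ≠ b := by
    rintro rfl
    obtain ⟨f, hf⟩ := hab
    exact not_double ha hf
  by_cases hA : (c / Nat.gcd c a) ^ 5 ≤ 8 * X ^ 4
  · left; exact coverA hc ha hb hcX hca hcb hab hg hA
  by_cases hB : (c / Nat.gcd c b) ^ 5 ≤ 8 * X ^ 4
  · right; left
    exact coverA hc hb ha hcX hcb hca hba (fun g h1 h2 h3 => hg g h1 h3 h2) hB
  push Not at hA hB
  obtain ⟨f1, hf1⟩ := hca
  obtain ⟨f2, hf2⟩ := hcb
  obtain ⟨E, p, q, hE, hp, hq, hEpq, hEa, hpq⟩ := pyt ha hc hf1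
  obtain ⟨F, r, s, hF, hr, hs, hFrs, hFb, hrs⟩ := pyt hb hc hf2
  have hEF : Nat.gcd E F ∣ 2 := by
    set g := Nat.gcd E F with hgd
    have hgE : g ∣ E := Nat.gcd_dvd_left _ _
    have hgF : g ∣ F := Nat.gcd_dvd_right _ _
    have h1 : g ∣ 2 * c := by
      rw [hEpq]
      exact Dvd.dvd.mul_left (Dvd.dvd.mul_right (Dvd.dvd.mul_right hgE _) _) _
    have h2 : g ∣ 2 * a := by
      have h3 : g ∣ 2 * a + E * q ^ 2 := by rw [hEa]; exact Dvd.dvd.mul_right hgE _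
      exact (Nat.dvd_add_left (Dvd.dvd.mul_right hgE _)).mp h3
    have h2' : g ∣ 2 * b := by
      have h3 : g ∣ 2 * b + F * s ^ 2 := by rw [hFb]; exact Dvd.dvd.mul_right hgF _
      exact (Nat.dvd_add_left (Dvd.dvd.mul_right hgF _)).mp h3
    have h3 : Nat.gcd (Nat.gcd c a) b = 1 := by
      apply hg
      · exact (Nat.gcd_dvd_left _ _).trans (Nat.gcd_dvd_left _ _)
      · exact (Nat.gcd_dvd_left _ _).trans (Nat.gcd_dvd_right _ _)
      · exact Nat.gcd_dvd_right _ _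
    have h4 : g ∣ Nat.gcd (Nat.gcd (2 * c) (2 * a)) (2 * b) :=
      Nat.dvd_gcd (Nat.dvd_gcd h1 h2) h2'
    rw [Nat.gcd_mul_left, Nat.gcd_mul_left, h3, mul_one] at h4
    exact h4
  right; right
  set z12 := Nat.gcd p s with hz12
  set z21 := Nat.gcd q r with hz21
  set z11 := Nat.gcd p r with hz11
  set z22 := Nat.gcd q s with hz22
  have hEa' := sqeq hEa
  have hFb' := sqeq hFb
  have c1 : c = E * q * p := by rw [hEpq]; ring
  have c2 : c = F * s * r := by rw [hFrs]; ring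
  have dp : p ∣ c := ⟨E * q, by rw [hEpq]; ring⟩
  have dq : q ∣ c := ⟨E * p, by rw [hEpq]; ring⟩
  have d12 : z12 ∣ c := (Nat.gcd_dvd_left _ _).trans dp
  have d21 : z21 ∣ c := (Nat.gcd_dvd_left _ _).trans dq
  have d11 : z11 ∣ c := (Nat.gcd_dvd_left _ _).trans dp
  have d22 : z22 ∣ c := (Nat.gcd_dvd_left _ _).trans dq
  have cop12 : Nat.Coprime z12 z21 :=
    Nat.Coprime.coprime_dvd_left (Nat.gcd_dvd_left _ _)
      (Nat.Coprime.coprime_dvd_right (Nat.gcd_dvd_left _ _) hpq)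
  have dzz : z12 * z21 ∣ c := cop12.mul_dvd_of_dvd_of_dvd d12 d21
  -- singles
  by_cases h11 : (c / z11) ^ 5 ≤ 256 * X ^ 4
  · right
    exact coverD hc hcX hne hab hEpq hFrs hEa' hFb' h11
  by_cases h22 : (c / z22) ^ 5 ≤ 256 * X ^ 4
  · right
    exact coverD hc hcX hne hab c1 c2 (sqswap hEa') (sqswap hFb') h22
  by_cases h12 : (c / z12) ^ 5 ≤ 256 * X ^ 4
  · right
    exact coverD hc hcX hne hab hEpq c2 hEa' (sqswap hFb') h12
  by_cases h21 : (c / z21) ^ 5 ≤ 256 * X ^ 4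
  · right
    exact coverD hc hcX hne hab c1 hFrs (sqswap hEa') hFb' h21
  left
  have hz : 64 * (z12 * z21) ≤ c / (z12 * z21) := by
    by_contra hcon
    push Not at hcon
    have hzz0 : 0 < z12 * z21 := Nat.pos_of_dvd_of_pos dzz hc
    have h5 : c < 64 * (z12 * z21) ^ 2 := by
      obtain ⟨m, hm⟩ := dzz
      have hdiv : c / (z12 * z21) = m := by
        conv_lhs => rw [hm]
        exact Nat.mul_div_cancel_left _ hzz0
      rw [hdiv] at hcon
      calc c = (z12 * z21) * m := hm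
        _ < (z12 * z21) * (64 * (z12 * z21)) := Nat.mul_lt_mul_of_pos_left hcon hzz0
        _ = _ := by ring
    rcases le_total z12 z21 with h6 | h6
    · apply h21
      apply quot4 hcX d21 hc
      calc c ≤ 64 * (z12 * z21) ^ 2 := h5.le
        _ ≤ 64 * (z21 * z21) ^ 2 :=
            Nat.mul_le_mul_left _ (Nat.pow_le_pow_left (Nat.mul_le_mul_right _ h6) 2)
        _ = _ := by ring
    · apply h12
      apply quot4 hcX d12 hc
      calc c ≤ 64 * (z12 * z21) ^ 2 := h5.le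
        _ ≤ 64 * (z12 * z12) ^ 2 :=
            Nat.mul_le_mul_left _ (Nat.pow_le_pow_left (Nat.mul_le_mul_left _ h6) 2)
        _ = _ := by ring
  apply coverC hc ha hb hcX hab hEpq hFrs hEa hFb hpq hrs hg hEF hz
  by_contra hcon
  push Not at hcon h11 h22
  -- all quantities are small
  have q1 := quot hcX (Nat.gcd_dvd_left c a) hc hA
  have q2 := quot hcX (Nat.gcd_dvd_left c b) hc hB
  have q3 := quot hcX dzz hc hcon
  have q4 := quot hcX d11 hc h11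
  have q5 := quot hcX d22 hc h22
  have bE : E ^ 5 < 4 * c := by
    calc E ^ 5 ≤ (2 * Nat.gcd c a) ^ 5 := Nat.pow_le_pow_left (E_le hc hEpq hEa) 5
      _ = 4 * (8 * Nat.gcd c a ^ 5) := by ring
      _ < 4 * c := by omega
  have bF : F ^ 5 < 4 * c := by
    calc F ^ 5 ≤ (2 * Nat.gcd c b) ^ 5 := Nat.pow_le_pow_left (E_le hc hFrs hFb) 5
      _ = 4 * (8 * Nat.gcd c b ^ 5) := by ring
      _ < 4 * c := by omega
  have hfive := five hc hEpq hFrs hpq
  have h6 : c ^ 5 ≤ (E * F * (z12 * z21) * (z11 * z22)) ^ 5 := Nat.pow_le_pow_left hfive 5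
  have h7 : (8 * 256 * 256) * (E * F * (z12 * z21) * (z11 * z22)) ^ 5 <
      16 * c ^ 5 := by
    have h8 : E ^ 5 * F ^ 5 * (8 * (z12 * z21) ^ 5) * ((256 * z11 ^ 5) * (256 * z22 ^ 5)) <
        (4 * c) * (4 * c) * c * (c * c) :=
      Nat.mul_lt_mul'' (Nat.mul_lt_mul'' (Nat.mul_lt_mul'' bE bF) q3) (Nat.mul_lt_mul'' q4 q5)
    calc (8 * 256 * 256) * (E * F * (z12 * z21) * (z11 * z22)) ^ 5
        = E ^ 5 * F ^ 5 * (8 * (z12 * z21) ^ 5) * ((256 * z11 ^ 5) * (256 * z22 ^ 5)) := by ring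
      _ < (4 * c) * (4 * c) * c * (c * c) := h8
      _ = 16 * c ^ 5 := by ring
  have h8 : 0 < c ^ 5 := by positivity
  have h9 : (8 * 256 * 256) * c ^ 5 ≤ (8 * 256 * 256) *
    (E * F * (z12 * z21) * (z11 * z22)) ^ 5 := Nat.mul_le_mul_left _ h6
  omega

/-- **primitive three dimensional bricks with a given small edge** -/
theorem cnt3 (ε : ℝ) (hε : 0 < ε) : ∃ C : ℝ, 1 ≤ C ∧ ∀ X : ℕ, 1 ≤ X →
    ∃ S : Finset (ℕ × ℕ × ℕ), ((S.card : ℝ) ≤ C * (X : ℝ) ^ (4 / 5 + ε)) ∧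
    ∀ c a b : ℕ, 0 < c → 0 < a → 0 < b → c ≤ X → (∃ f : ℕ, a ^ 2 + c ^ 2 = f ^ 2) →
      (∃ f : ℕ, b ^ 2 + c ^ 2 = f ^ 2) → (∃ f : ℕ, a ^ 2 + b ^ 2 = f ^ 2) →
      (∀ g : ℕ, g ∣ c → g ∣ a → g ∣ b → g = 1) → (c, a, b) ∈ S := by
  classical
  obtain ⟨C1, hC1, h1⟩ := SA_card ε hε
  obtain ⟨C2, hC2, h2⟩ := gen_card F3 8 (by norm_num) F3_card ε hε
  obtain ⟨C3, hC3, h3⟩ := gen_card F2 256 le_rfl F2_card ε hε
  refine ⟨2 * C1 + C2 + C3, by linarith, fun X hX => ?_⟩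
  refine ⟨((SA X ∪ (SA X).image (fun t => (t.1, t.2.2, t.2.1))) ∪ SC X) ∪ SD X, ?_, ?_⟩
  · have h4 : (((SA X ∪ (SA X).image (fun t => (t.1, t.2.2, t.2.1))) ∪ SC X) ∪ SD X).card ≤
        (SA X).card + (SA X).card + (SC X).card + (SD X).card := by
      refine (Finset.card_union_le _ _).trans (Nat.add_le_add_right ?_ _)
      refine (Finset.card_union_le _ _).trans (Nat.add_le_add_right ?_ _)
      exact (Finset.card_union_le _ _).trans (Nat.add_le_add_left Finset.card_image_le _)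
    have h5 : ((((SA X ∪ (SA X).image (fun t => (t.1, t.2.2, t.2.1))) ∪ SC X) ∪ SD X).card : ℝ) ≤
        (SA X).card + (SA X).card + (SC X).card + (SD X).card := by exact_mod_cast h4
    have := h1 X hX
    have k2 : ((SC X).card : ℝ) ≤ C2 * (X : ℝ) ^ (4 / 5 + ε) := h2 X hX
    have k3 : ((SD X).card : ℝ) ≤ C3 * (X : ℝ) ^ (4 / 5 + ε) := h3 X hX
    linarith
  · intro c a b hc ha hb hcX hca hcb hab hg
    rcases cover hc ha hb hcX hca hcb hab hg with h | h | h | h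
    · exact Finset.mem_union_left _ (Finset.mem_union_left _ (Finset.mem_union_left _ h))
    · refine Finset.mem_union_left _ (Finset.mem_union_left _ (Finset.mem_union_right _ ?_))
      rw [Finset.mem_image]
      exact ⟨(c, b, a), h, rfl⟩
    · exact Finset.mem_union_left _ (Finset.mem_union_right _ h)
    · exact Finset.mem_union_right _ h

end Pool.EB3
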