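import Pool.Agent.H62.EB3.Fin

/-!
# Induction on the dimension
-/

set_option autoImplicit false

namespace Pool.EB3

open Finset

def Brick {n : ℕ} (x : Fin n → ℕ) : Prop :=
  (∀ i, 0 < x i) ∧ ∀ i j, i ≠ j → ∃ f : ℕ, x i ^ 2 + x j ^ 2 = f ^ 2

def Prim {n : ℕ} (x : Fin n → ℕ) : Prop := ∀ g : ℕ, (∀ i, g ∣ x i) → g = 1

def PP (k : ℕ) : Prop := ∀ ε : ℝ, 0 < ε → ∃ C : ℝ, 1 ≤ C ∧ ∀ X : ℕ, 1 ≤ X →
  ∃ S : Finset (Fin (k + 3) → ℕ), ((S.card : ℝ) ≤ C * (X : ℝ) ^ (4 / 5 + ε)) ∧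
    ∀ x : Fin (k + 3) → ℕ, Brick x → Prim x → x 0 ≤ X → x ∈ S

theorem pp0 : PP 0 := by
  classical
  intro ε hε
  obtain ⟨C, hC, h⟩ := cnt3 ε hε
  refine ⟨C, hC, fun X hX => ?_⟩
  obtain ⟨S, hS, hcov⟩ := h X hX
  refine ⟨S.image (fun t => ![t.1, t.2.1, t.2.2]), ?_, ?_⟩
  · refine le_trans ?_ hS
    exact_mod_cast Finset.card_image_le
  · intro x hx hp hxX
    rw [Finset.mem_image]
    refine ⟨(x 0, x 1, x 2), ?_, ?_⟩
    · refine hcov _ _ _ (hx.1 0) (hx.1 1) (hx.1 2) hxX ?_ ?_ ?_ ?_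
      · exact hx.2 1 0 (by decide)
      · exact hx.2 2 0 (by decide)
      · exact hx.2 1 2 (by decide)
      · intro g h0 h1 h2
        apply hp
        intro i
        fin_cases i
        · exact h0
        · exact h1
        · exact h2
    · funext i
      fin_cases i <;> rfl

theorem log_bound (ε : ℝ) (hε : 0 < ε) : ∃ C : ℝ, 1 ≤ C ∧ ∀ X : ℕ, 1 ≤ X →
    ((Nat.log 2 X : ℝ) + 1) ≤ C * (X : ℝ) ^ ε := by
  obtain ⟨C, hC, h⟩ := Pool.Agent.H93.BT.local_small ε hε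
  refine ⟨C, hC, fun X hX => ?_⟩
  refine (h (Nat.log 2 X)).trans (mul_le_mul_of_nonneg_left ?_ (by linarith))
  have h1 : 2 ^ Nat.log 2 X ≤ X := Nat.pow_log_le_self 2 (by omega)
  have h2 : (2 : ℝ) ^ (Nat.log 2 X) ≤ X := by exact_mod_cast h1
  calc (2 : ℝ) ^ (ε * (Nat.log 2 X : ℝ)) = ((2 : ℝ) ^ (Nat.log 2 X)) ^ ε := by
        rw [← Real.rpow_natCast, ← Real.rpow_mul (by norm_num)]
        congr 1; ring
    _ ≤ (X : ℝ) ^ ε := Real.rpow_le_rpow (by positivity) h2 hε.le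

/-- decomposition of a primitive brick -/
theorem decomp {k : ℕ} {y : Fin (k + 4) → ℕ} (hy : Brick y) (hp : Prim y) :
    ∃ (d : ℕ) (x : Fin (k + 3) → ℕ), 0 < d ∧ Brick x ∧ Prim x ∧
      (∀ i, y i.castSucc = d * x i) ∧ Nat.gcd d (y (Fin.last _)) = 1 := by
  classical
  set d := Finset.univ.gcd (fun i : Fin (k + 3) => y i.castSucc) with hd
  have hdvd : ∀ i : Fin (k + 3), d ∣ y i.castSucc := fun i => Finset.gcd_dvd (Finset.mem_univ i)
  have hd0 : 0 < d := by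
    have h1 := hy.1 (Fin.castSucc (0 : Fin (k + 3)))
    rcases Nat.eq_zero_or_pos d with h0 | h0
    · have := hdvd 0
      rw [h0] at this
      have := Nat.eq_zero_of_zero_dvd this
      omega
    · exact h0
  choose x hx using hdvd
  refine ⟨d, x, hd0, ⟨?_, ?_⟩, ?_, hx, ?_⟩
  · intro i
    have h1 := hy.1 i.castSucc
    rw [hx i] at h1
    exact Nat.pos_of_mul_pos_left h1 |> fun h => h
  · intro i j hij
    obtain ⟨f, hf⟩ := hy.2 i.castSucc j.castSucc (by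
      intro h; exact hij (Fin.castSucc_injective _ h))
    rw [hx i, hx j] at hf
    have h1 : d ^ 2 ∣ f ^ 2 := ⟨x i ^ 2 + x j ^ 2, by rw [← hf]; ring⟩
    have h2 : d ∣ f := (Nat.pow_dvd_pow_iff (by norm_num)).mp h1
    obtain ⟨g, hg⟩ := h2
    refine ⟨g, ?_⟩
    have h3 : d ^ 2 * (x i ^ 2 + x j ^ 2) = d ^ 2 * g ^ 2 := by
      calc d ^ 2 * (x i ^ 2 + x j ^ 2) = (d * x i) ^ 2 + (d * x j) ^ 2 := by ring
        _ = f ^ 2 := hf
        _ = _ := by rw [hg]; ring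
    exact Nat.eq_of_mul_eq_mul_left (by positivity) h3
  · intro g hg
    have h1 : d * g ∣ d := by
      rw [hd]
      apply Finset.dvd_gcd
      intro i _
      rw [← hd]
      show d * g ∣ y i.castSucc
      rw [hx i]
      exact Nat.mul_dvd_mul_left _ (hg i)
    have h2 : d * g ≤ d * 1 := by
      rw [mul_one]; exact Nat.le_of_dvd hd0 h1
    have h3 : g ≤ 1 := Nat.le_of_mul_le_mul_left h2 hd0
    have h4 : g ≠ 0 := by
      rintro rfl
      rw [mul_zero] at h1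
      have := Nat.eq_zero_of_zero_dvd h1
      omega
    omega
  · apply hp
    intro i
    refine Fin.lastCases ?_ (fun j => ?_) i
    · exact Nat.gcd_dvd_right _ _
    · rw [hx j]
      exact Dvd.dvd.mul_right (Nat.gcd_dvd_left _ _) _

theorem step (k : ℕ) (hk : PP k) : PP (k + 1) := by
  classical
  intro ε hε
  obtain ⟨C1, hC1, h1⟩ := hk (ε / 3) (by positivity)
  obtain ⟨C2, hC2, h2⟩ := TT_card (ε / 3) (by positivity)
  obtain ⟨C3, hC3, h3⟩ := log_bound (ε / 3) (by positivity)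
  have hK : (1 : ℝ) ≤ (2 : ℝ) ^ (4 / 5 + ε / 3) := Real.one_le_rpow (by norm_num) (by positivity)
  have hC12 : 1 ≤ C1 * C2 := by nlinarith
  have hC12K : 1 ≤ C1 * C2 * (2 : ℝ) ^ (4 / 5 + ε / 3) := by nlinarith
  refine ⟨C3 * (C1 * C2 * (2 : ℝ) ^ (4 / 5 + ε / 3)), by nlinarith, fun X hX => ?_⟩
  have hX1 : (1 : ℝ) ≤ X := by exact_mod_cast hX
  have hX0 : (0 : ℝ) < X := by linarith
  have hS : ∀ j : ℕ, ∃ S : Finset (Fin (k + 3) → ℕ),
      ((S.card : ℝ) ≤ C1 * ((2 ^ (j + 1) : ℕ) : ℝ) ^ (4 / 5 + ε / 3)) ∧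
      ∀ x : Fin (k + 3) → ℕ, Brick x → Prim x → x 0 ≤ 2 ^ (j + 1) → x ∈ S :=
    fun j => h1 (2 ^ (j + 1)) Nat.one_le_two_pow
  choose S hSc hScov using hS
  set U : ℕ → Finset (Fin (k + 4) → ℕ) := fun j =>
    ((S j).filter (fun x => 2 ^ j ≤ x 0 ∧ x 0 ≤ X ∧ x 1 ≤ x 0 ^ 2)).biUnion
      (fun x => (TT X (x 0) (x 1)).image
        (fun t => (Fin.snoc (fun i => t.1 * x i) t.2 : Fin (k + 4) → ℕ))) with hU
  refine ⟨(range (Nat.log 2 X + 1)).biUnion U, ?_, ?_⟩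
  · -- count
    have hUc : ∀ j ∈ range (Nat.log 2 X + 1), ((U j).card : ℝ) ≤
        C1 * C2 * (2 : ℝ) ^ (4 / 5 + ε / 3) * (X : ℝ) ^ (4 / 5 + 2 * (ε / 3)) := by
      intro j hj
      rw [Finset.mem_range] at hj
      have hjX : 2 ^ j ≤ X :=
        (Nat.pow_le_pow_right (by norm_num) (by omega)).trans (Nat.pow_log_le_self 2 (by omega))
      set t : ℝ := (2 : ℝ) ^ j with ht
      have ht0 : 0 < t := by positivity
      have ht1 : 1 ≤ t := one_le_pow₀ (by norm_num)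
      have htX : t ≤ X := by rw [ht]; exact_mod_cast hjX
      have e1 : ((U j).card : ℝ) ≤ ((S j).filter
          (fun x => 2 ^ j ≤ x 0 ∧ x 0 ≤ X ∧ x 1 ≤ x 0 ^ 2)).card *
          (C2 * Real.sqrt ((X : ℝ) / t) * (X : ℝ) ^ (ε / 3)) := by
        rw [hU]
        refine card_bi' _ _ _ fun x hx => ?_
        rw [Finset.mem_filter] at hx
        obtain ⟨_, hx1, hx2, hx3⟩ := hx
        have hx0 : 1 ≤ x 0 := Nat.one_le_two_pow.trans hx1
        have e2 := h2 X (x 0) (x 1) hX hx0 hx2 hx3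
        have e3 : (((TT X (x 0) (x 1)).image
          (fun t => (Fin.snoc (fun i => t.1 * x i) t.2 : Fin (k + 4) → ℕ))).card : ℝ) ≤
            (TT X (x 0) (x 1)).card := by exact_mod_cast Finset.card_image_le
        refine e3.trans (e2.trans ?_)
        apply mul_le_mul_of_nonneg_right _ (by positivity)
        apply mul_le_mul_of_nonneg_left _ (by linarith)
        apply Real.sqrt_le_sqrt
        have e4 : t ≤ (x 0 : ℝ) := by rw [ht]; exact_mod_cast hx1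
        exact div_le_div_of_nonneg_left hX0.le ht0 e4
      have e2 : (((S j).filter
          (fun x => 2 ^ j ≤ x 0 ∧ x 0 ≤ X ∧ x 1 ≤ x 0 ^ 2)).card : ℝ) ≤
          C1 * ((2 : ℝ) ^ (4 / 5 + ε / 3) * t ^ (4 / 5 + ε / 3)) := by
        have e3 : (((S j).filter
          (fun x => 2 ^ j ≤ x 0 ∧ x 0 ≤ X ∧ x 1 ≤ x 0 ^ 2)).card : ℝ) ≤ (S j).card := by
          exact_mod_cast Finset.card_filter_le _ _
        refine e3.trans ((hSc j).trans (le_of_eq ?_))
        rw [← Real.mul_rpow (by norm_num) ht0.le, ht]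
        push_cast
        rw [pow_succ]
        congr 2
        ring
      have e3 : t ^ (4 / 5 + ε / 3) * Real.sqrt ((X : ℝ) / t) ≤ (X : ℝ) ^ (4 / 5 + ε / 3) := by
        rw [Real.sqrt_eq_rpow, Real.div_rpow hX0.le ht0.le]
        have e4 : t ^ (4 / 5 + ε / 3) = t ^ (3 / 10 + ε / 3) * t ^ (1 / 2 : ℝ) := by
          rw [← Real.rpow_add ht0]; congr 1; ring
        have e5 : (X : ℝ) ^ (4 / 5 + ε / 3) = (X : ℝ) ^ (3 / 10 + ε / 3) * (X : ℝ) ^ (1 / 2 : ℝ) := by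
          rw [← Real.rpow_add hX0]; congr 1; ring
        have e6 : t ^ (3 / 10 + ε / 3) ≤ (X : ℝ) ^ (3 / 10 + ε / 3) :=
          Real.rpow_le_rpow ht0.le htX (by positivity)
        have e7 : 0 < t ^ (1 / 2 : ℝ) := by positivity
        rw [e4, e5]
        calc t ^ (3 / 10 + ε / 3) * t ^ (1 / 2 : ℝ) * ((X : ℝ) ^ (1 / 2 : ℝ) / t ^ (1 / 2 : ℝ))
            = t ^ (3 / 10 + ε / 3) * (X : ℝ) ^ (1 / 2 : ℝ) := by field_simp
          _ ≤ _ := mul_le_mul_of_nonneg_right e6 (by positivity)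
      calc ((U j).card : ℝ) ≤ _ := e1
        _ ≤ (C1 * ((2 : ℝ) ^ (4 / 5 + ε / 3) * t ^ (4 / 5 + ε / 3))) *
            (C2 * Real.sqrt ((X : ℝ) / t) * (X : ℝ) ^ (ε / 3)) :=
            mul_le_mul_of_nonneg_right e2 (by positivity)
        _ = C1 * C2 * (2 : ℝ) ^ (4 / 5 + ε / 3) *
            ((t ^ (4 / 5 + ε / 3) * Real.sqrt ((X : ℝ) / t)) * (X : ℝ) ^ (ε / 3)) := by ring
        _ ≤ C1 * C2 * (2 : ℝ) ^ (4 / 5 + ε / 3) *
            ((X : ℝ) ^ (4 / 5 + ε / 3) * (X : ℝ) ^ (ε / 3)) := by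
            apply mul_le_mul_of_nonneg_left _ (by positivity)
            exact mul_le_mul_of_nonneg_right e3 (by positivity)
        _ = _ := by
            rw [← Real.rpow_add hX0]
            congr 2
            ring
    have e8 := card_bi' _ _ _ hUc
    rw [Finset.card_range] at e8
    have e9 := h3 X hX
    refine e8.trans ?_
    push_cast
    calc ((Nat.log 2 X : ℝ) + 1) * (C1 * C2 * (2 : ℝ) ^ (4 / 5 + ε / 3) *
          (X : ℝ) ^ (4 / 5 + 2 * (ε / 3)))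
        ≤ (C3 * (X : ℝ) ^ (ε / 3)) * (C1 * C2 * (2 : ℝ) ^ (4 / 5 + ε / 3) *
          (X : ℝ) ^ (4 / 5 + 2 * (ε / 3))) :=
          mul_le_mul_of_nonneg_right e9 (by positivity)
      _ = C3 * (C1 * C2 * (2 : ℝ) ^ (4 / 5 + ε / 3)) *
          ((X : ℝ) ^ (4 / 5 + 2 * (ε / 3)) * (X : ℝ) ^ (ε / 3)) := by ring
      _ = _ := by
          rw [← Real.rpow_add hX0]
          congr 2
          ring
  · -- cover
    intro y hy hp hyX
    obtain ⟨d, x, hd0, hxb, hxp, hyx, hg⟩ := decomp hy hp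
    have hy0 : y 0 = d * x 0 := hyx 0
    have hx0pos := hxb.1 0
    have hx1pos := hxb.1 1
    have h01 : (1 : Fin (k + 3)) ≠ 0 := by
      intro h
      have := congrArg Fin.val h
      simp at this
    have hx0X : x 0 ≤ X := by
      calc x 0 ≤ d * x 0 := Nat.le_mul_of_pos_left _ hd0
        _ = y 0 := hy0.symm
        _ ≤ X := hyX
    have hne : x 1 ≠ x 0 := by
      intro h
      obtain ⟨f, hf⟩ := hxb.2 1 0 h01
      rw [h] at hf
      exact not_double hx0pos hf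
    have hle : x 1 ≤ x 0 ^ 2 := by
      obtain ⟨f, hf⟩ := hxb.2 1 0 h01
      exact edge_le hx1pos hx0pos hf
    rw [Finset.mem_biUnion]
    refine ⟨Nat.log 2 (x 0), ?_, ?_⟩
    · rw [Finset.mem_range]
      exact Nat.lt_succ_of_le (Nat.log_mono_right hx0X)
    · rw [hU]
      simp only
      rw [Finset.mem_biUnion]
      refine ⟨x, ?_, ?_⟩
      · rw [Finset.mem_filter]
        refine ⟨hScov _ x hxb hxp (Nat.lt_pow_succ_log_self (by norm_num) _).le,
          Nat.pow_log_le_self 2 (by omega), hx0X, hle⟩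
      · rw [Finset.mem_image]
        refine ⟨(d, y (Fin.last _)), ?_, ?_⟩
        · refine coverT hx0pos hx1pos hne hd0 (hy.1 _) (by rw [← hy0]; exact hyX) hg ?_ ?_
          · obtain ⟨f, hf⟩ := hy.2 (Fin.last _) (Fin.castSucc 0) (by
              intro h; exact (Fin.castSucc_lt_last (0 : Fin (k + 3))).ne h.symm)
            rw [hyx 0] at hf
            exact ⟨f, hf⟩
          · obtain ⟨f, hf⟩ := hy.2 (Fin.last _) (Fin.castSucc 1) (by
              intro h; exact (Fin.castSucc_lt_last (1 : Fin (k + 3))).ne h.symm)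
            rw [hyx 1] at hf
            exact ⟨f, hf⟩
        · funext i
          refine Fin.lastCases ?_ (fun j => ?_) i
          · simp
          · simp only [Fin.snoc_castSucc]
            exact (hyx j).symm

theorem all_pp (k : ℕ) : PP k := by
  induction k with
  | zero => exact pp0
  | succ k ih => exact step k ih

/-- **main theorem** -/
theorem main (n : ℕ) (hn : 3 ≤ n) (ε : ℝ) (hε : 0 < ε) : ∃ C : ℝ, ∀ X : ℝ, 1 ≤ X →
    {x : Fin n → ℕ | Brick x ∧ Prim x ∧ ∃ i, (x i : ℝ) ≤ X}.Finite ∧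
    ({x : Fin n → ℕ | Brick x ∧ Prim x ∧ ∃ i, (x i : ℝ) ≤ X}.ncard : ℝ) ≤
      C * X ^ (4 / 5 + ε) := by
  classical
  obtain ⟨k, rfl⟩ : ∃ k, n = k + 3 := ⟨n - 3, by omega⟩
  obtain ⟨C, hC, h⟩ := all_pp k ε hε
  refine ⟨(k + 3) * C, fun X hX => ?_⟩
  have hfl : 1 ≤ ⌊X⌋₊ := Nat.le_floor (by exact_mod_cast hX)
  obtain ⟨S, hS, hcov⟩ := h ⌊X⌋₊ hfl
  set S' : Finset (Fin (k + 3) → ℕ) := (univ : Finset (Fin (k + 3))).biUnion
    (fun i => S.image (fun x => x ∘ (Equiv.swap 0 i))) with hS'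
  have hsub : {x : Fin (k + 3) → ℕ | Brick x ∧ Prim x ∧ ∃ i, (x i : ℝ) ≤ X} ⊆ (S' : Set _) := by
    rintro x ⟨hb, hp, i, hi⟩
    rw [Finset.mem_coe, hS', Finset.mem_biUnion]
    refine ⟨i, mem_univ _, ?_⟩
    rw [Finset.mem_image]
    refine ⟨x ∘ (Equiv.swap 0 i), ?_, ?_⟩
    · apply hcov
      · refine ⟨fun j => hb.1 _, fun j l hjl => hb.2 _ _ ?_⟩
        intro h; exact hjl ((Equiv.swap 0 i).injective h)
      · intro g hg
        apply hp
        intro j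
        have := hg (Equiv.swap 0 i j)
        simpa using this
      · have : (x ∘ (Equiv.swap 0 i)) 0 = x i := by simp
        rw [this]
        exact Nat.le_floor hi
    · funext j
      simp
  have hcard : (S'.card : ℝ) ≤ (k + 3) * C * X ^ (4 / 5 + ε) := by
    have h1 : (S'.card : ℝ) ≤ (univ : Finset (Fin (k + 3))).card *
        (C * ((⌊X⌋₊ : ℕ) : ℝ) ^ (4 / 5 + ε)) := by
      rw [hS']
      refine card_bi' _ _ _ fun i _ => ?_
      refine le_trans ?_ hS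
      exact_mod_cast Finset.card_image_le
    rw [Finset.card_univ, Fintype.card_fin] at h1
    have h2 : ((⌊X⌋₊ : ℕ) : ℝ) ^ (4 / 5 + ε) ≤ X ^ (4 / 5 + ε) :=
      Real.rpow_le_rpow (Nat.cast_nonneg _) (Nat.floor_le (by linarith)) (by positivity)
    push_cast at h1
    calc (S'.card : ℝ) ≤ _ := h1
      _ ≤ ((k : ℝ) + 3) * (C * X ^ (4 / 5 + ε)) := by
          apply mul_le_mul_of_nonneg_left _ (by positivity)
          exact mul_le_mul_of_nonneg_left h2 (by linarith)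
      _ = _ := by ring
  refine ⟨S'.finite_toSet.subset hsub, ?_⟩
  have h3 := Set.ncard_le_ncard hsub S'.finite_toSet
  rw [Set.ncard_coe_finset] at h3
  have h4 : ({x : Fin (k + 3) → ℕ | Brick x ∧ Prim x ∧ ∃ i, (x i : ℝ) ≤ X}.ncard : ℝ) ≤
      S'.card := by exact_mod_cast h3
  exact h4.trans hcard

end Pool.EB3
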