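import Pool.Agent.H62.EB3.Bas

/-!
# Solutions of `x^2 - D y^2 = N` in a box
-/

set_option autoImplicit false

namespace Pool.EB3

open Finset

/-! ## the equation `s^2 - D t^2 = 4` -/

/-- value of a solution -/
noncomputable def vl (D : ℤ) (v : ℤ × ℤ) : ℝ := ((v.1 : ℝ) + v.2 * Real.sqrt D) / 2

theorem vl_mul {D : ℤ} (hD : 0 < D) {v : ℤ × ℤ} (h : v.1 ^ 2 - D * v.2 ^ 2 = 4) :
    vl D v * (((v.1 : ℝ) - v.2 * Real.sqrt D) / 2) = 1 := by
  have h1 : (v.1 : ℝ) ^ 2 - D * (v.2 : ℝ) ^ 2 = 4 := by exact_mod_cast h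
  have h2 : Real.sqrt D ^ 2 = D := Real.sq_sqrt (by exact_mod_cast hD.le)
  unfold vl
  have e : ((v.1 : ℝ) + v.2 * Real.sqrt D) / 2 * (((v.1 : ℝ) - v.2 * Real.sqrt D) / 2) =
      ((v.1 : ℝ) ^ 2 - Real.sqrt D ^ 2 * (v.2 : ℝ) ^ 2) / 4 := by ring
  rw [e, h2, h1]; norm_num

theorem vl_gt {D : ℤ} (hD : 0 < D) {v : ℤ × ℤ} (h : v.1 ^ 2 - D * v.2 ^ 2 = 4) (h1 : 0 < v.1)
    (h2 : 0 < v.2) : 1 < vl D v ∧ vl D v < v.1 := by
  have hm := vl_mul hD h
  have hD' : (0 : ℝ) < D := by exact_mod_cast hD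
  have hs : 0 < Real.sqrt D := Real.sqrt_pos.mpr hD'
  have h1' : (0 : ℝ) < v.1 := by exact_mod_cast h1
  have h2' : (0 : ℝ) < v.2 := by exact_mod_cast h2
  have hv : 0 < vl D v := by unfold vl; positivity
  set c : ℝ := ((v.1 : ℝ) - v.2 * Real.sqrt D) / 2 with hc
  have hcpos : 0 < c := by
    by_contra hcon
    push Not at hcon
    have : vl D v * c ≤ 0 := mul_nonpos_of_nonneg_of_nonpos hv.le hcon
    linarith
  have hlt : c < vl D v := by
    rw [hc]; unfold vl
    have : 0 < (v.2 : ℝ) * Real.sqrt D := by positivity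
    linarith
  have hsum : vl D v + c = v.1 := by rw [hc]; unfold vl; ring
  constructor
  · by_contra hcon
    push Not at hcon
    nlinarith
  · linarith

theorem spacing {D : ℤ} (hD : 0 < D) {v w : ℤ × ℤ} (hv : v.1 ^ 2 - D * v.2 ^ 2 = 4)
    (hw : w.1 ^ 2 - D * w.2 ^ 2 = 4) (hv1 : 0 < v.1) (hv2 : 0 < v.2) (hw1 : 0 < w.1)
    (hw2 : 0 < w.2) (hlt : vl D w < vl D v) : 2 * vl D w ≤ vl D v := by
  have e1 := vl_mul hD hv
  have e2 := vl_mul hD hw
  have g1 := (vl_gt hD hv hv1 hv2).1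
  have g2 := (vl_gt hD hw hw1 hw2).1
  set a := vl D v with ha
  set b := vl D w with hb
  set a' : ℝ := ((v.1 : ℝ) - v.2 * Real.sqrt D) / 2 with ha'
  set b' : ℝ := ((w.1 : ℝ) - w.2 * Real.sqrt D) / 2 with hb'
  have ha0 : 0 < a := by linarith
  have hb0 : 0 < b := by linarith
  have h2 : Real.sqrt D ^ 2 = D := Real.sq_sqrt (by exact_mod_cast hD.le)
  -- a b' + a' b is half an integer
  have e3 : 2 * (a * b' + a' * b) = ((v.1 * w.1 - D * v.2 * w.2 : ℤ) : ℝ) := by
    rw [ha, hb, ha', hb']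
    unfold vl
    push_cast
    have : 2 * ((((v.1 : ℝ) + v.2 * Real.sqrt D) / 2) * (((w.1 : ℝ) - w.2 * Real.sqrt D) / 2) +
      (((v.1 : ℝ) - v.2 * Real.sqrt D) / 2) * (((w.1 : ℝ) + w.2 * Real.sqrt D) / 2)) =
      (v.1 : ℝ) * w.1 - Real.sqrt D ^ 2 * v.2 * w.2 := by ring
    rw [this, h2]
  set r := a * b' with hr
  have hb'e : b' = 1 / b := by
    rw [eq_div_iff hb0.ne', mul_comm]; exact e2
  have ha'e : a' = 1 / a := by
    rw [eq_div_iff ha0.ne', mul_comm]; exact e1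
  have hr' : r = a / b := by rw [hr, hb'e]; ring
  have hrr : a' * b = 1 / r := by
    rw [ha'e, hr']; field_simp
  have hr1 : 1 < r := by rw [hr', one_lt_div hb0]; exact hlt
  have hr0 : 0 < r := by linarith
  rw [hrr] at e3
  have hgt : 4 < 2 * (r + 1 / r) := by
    have h5 : 0 < (r - 1) ^ 2 / r := by
      have : 0 < (r - 1) ^ 2 := by
        have : 0 < r - 1 := by linarith
        positivity
      positivity
    have h6 : (r - 1) ^ 2 / r = r + 1 / r - 2 := by field_simp; ring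
    linarith
  rw [e3] at hgt
  have hge : (5 : ℤ) ≤ v.1 * w.1 - D * v.2 * w.2 := by
    have : (4 : ℤ) < v.1 * w.1 - D * v.2 * w.2 := by exact_mod_cast hgt
    omega
  have hge' : (5 : ℝ) ≤ 2 * (r + 1 / r) := by rw [e3]; exact_mod_cast hge
  have h7 : 5 * r ≤ 2 * (r ^ 2 + 1) := by
    have : 5 * r ≤ 2 * (r + 1 / r) * r := mul_le_mul_of_nonneg_right hge' hr0.le
    have e4 : 2 * (r + 1 / r) * r = 2 * (r ^ 2 + 1) := by field_simp
    linarith
  have h8 : 2 ≤ r := by nlinarith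
  rw [hr', le_div_iff₀ hb0] at h8
  exact h8

/-- positive solutions -/
theorem pos_count {D : ℤ} (hD : 0 < D) (B : ℕ) (S : Finset (ℤ × ℤ))
    (hS : ∀ v ∈ S, v.1 ^ 2 - D * v.2 ^ 2 = 4 ∧ 0 < v.1 ∧ 0 < v.2 ∧ v.1 ≤ B) :
    S.card ≤ Nat.log 2 B + 1 := by
  classical
  have key : S.card ≤ (range (Nat.log 2 B + 1)).card := by
    refine Finset.card_le_card_of_injOn (fun v => ⌊Real.logb 2 (vl D v)⌋₊) ?_ ?_
    · intro v hv
      obtain ⟨h1, h2, h3, h4⟩ := hS v hv
      have hg := vl_gt hD h1 h2 h3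
      have hB : (v.1 : ℝ) ≤ B := by exact_mod_cast h4
      have hB0 : B ≠ 0 := by
        rintro rfl
        have : v.1 ≤ 0 := by exact_mod_cast h4
        omega
      have h5 : Real.logb 2 (vl D v) < Nat.log 2 B + 1 := by
        have h6 : vl D v < (2 : ℝ) ^ ((Nat.log 2 B + 1 : ℕ) : ℝ) := by
          rw [Real.rpow_natCast]
          have h7 : B < 2 ^ (Nat.log 2 B + 1) := Nat.lt_pow_succ_log_self (by norm_num) B
          have h8 : (B : ℝ) < (2 : ℝ) ^ (Nat.log 2 B + 1) := by exact_mod_cast h7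
          linarith
        have h9 := Real.logb_lt_logb (b := 2) (by norm_num) (by linarith) h6
        rw [Real.logb_rpow (by norm_num) (by norm_num)] at h9
        push_cast at h9
        exact h9
      show _ ∈ ((range (Nat.log 2 B + 1) : Finset ℕ) : Set ℕ)
      rw [Finset.mem_coe, Finset.mem_range]
      have h10 : 0 ≤ Real.logb 2 (vl D v) := Real.logb_nonneg (by norm_num) hg.1.le
      rw [Nat.floor_lt h10]
      push_cast
      exact h5
    · -- injectivity
      have main : ∀ v ∈ S, ∀ w ∈ S, vl D w < vl D v →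
          ⌊Real.logb 2 (vl D w)⌋₊ < ⌊Real.logb 2 (vl D v)⌋₊ := by
        intro v hv w hw hlt
        obtain ⟨h1, h2, h3, h4⟩ := hS v hv
        obtain ⟨k1, k2, k3, k4⟩ := hS w hw
        have hsp := spacing hD h1 k1 h2 h3 k2 k3 hlt
        have hgw := (vl_gt hD k1 k2 k3).1
        have h5 : Real.logb 2 (vl D w) + 1 ≤ Real.logb 2 (vl D v) := by
          have h6 : Real.logb 2 (2 * vl D w) ≤ Real.logb 2 (vl D v) :=
            Real.logb_le_logb_of_le (by norm_num) (by linarith) hsp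
          rw [Real.logb_mul (by norm_num) (by linarith), Real.logb_self_eq_one (by norm_num)] at h6
          linarith
        have h6 : 0 ≤ Real.logb 2 (vl D w) := Real.logb_nonneg (by norm_num) hgw.le
        have h7 : ⌊Real.logb 2 (vl D w)⌋₊ + 1 ≤ ⌊Real.logb 2 (vl D v)⌋₊ := by
          apply Nat.le_floor
          push_cast
          have := Nat.floor_le h6
          linarith
        omega
      intro v hv w hw heq
      have hv' : v ∈ S := hv
      have hw' : w ∈ S := hw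
      simp only at heq
      rcases lt_trichotomy (vl D v) (vl D w) with h | h | h
      · have := main w hw' v hv' h; omega
      · obtain ⟨h1, h2, h3, h4⟩ := hS v hv'
        obtain ⟨k1, k2, k3, k4⟩ := hS w hw'
        have e1 := vl_mul hD h1
        have e2 := vl_mul hD k1
        have g1 := (vl_gt hD h1 h2 h3).1
        rw [← h] at e2
        have e3 : ((v.1 : ℝ) - v.2 * Real.sqrt D) / 2 = ((w.1 : ℝ) - w.2 * Real.sqrt D) / 2 := by
          have : vl D v ≠ 0 := by linarith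
          exact mul_left_cancel₀ this (e1.trans e2.symm)
        have e4 : (v.1 : ℝ) = w.1 := by
          unfold vl at h; linarith
        have e5 : v.1 = w.1 := by exact_mod_cast e4
        have e6 : v.2 = w.2 := by
          have h9 : D * v.2 ^ 2 = D * w.2 ^ 2 := by rw [e5] at h1; linarith
          have h10 : v.2 ^ 2 = w.2 ^ 2 := mul_left_cancel₀ hD.ne' h9
          have := abs_eq_abs.mpr (sq_eq_sq_iff_eq_or_eq_neg.mp h10)
          rwa [abs_of_pos h3, abs_of_pos k3] at this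
        exact Prod.ext e5 e6
      · have := main v hv' w hw' h; omega
  rwa [Finset.card_range] at key

/-- all solutions of `s^2 - D t^2 = 4` -/
theorem four_count {D : ℤ} (hD : 0 < D) (B : ℕ) (S : Finset (ℤ × ℤ))
    (hS : ∀ v ∈ S, v.1 ^ 2 - D * v.2 ^ 2 = 4 ∧ |v.1| ≤ B) :
    S.card ≤ 4 * (Nat.log 2 B + 1) + 2 := by
  classical
  set P : Finset (ℤ × ℤ) := (S.filter (fun v => v.2 ≠ 0)).image (fun v => (|v.1|, |v.2|)) with hP
  have hPc : P.card ≤ Nat.log 2 B + 1 := by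
    apply pos_count hD B
    intro v hv
    rw [hP, Finset.mem_image] at hv
    obtain ⟨w, hw, rfl⟩ := hv
    rw [Finset.mem_filter] at hw
    obtain ⟨h1, h2⟩ := hS w hw.1
    refine ⟨?_, ?_, ?_, h2⟩
    · simp only [sq_abs]; exact h1
    · show 0 < |w.1|
      rw [abs_pos]
      intro h0
      rw [h0] at h1
      have h5 : 0 ≤ D * w.2 ^ 2 := by positivity
      linarith
    · show 0 < |w.2|
      rw [abs_pos]; exact hw.2
  set sg : Finset (ℤ × ℤ) := {(1, 1), (1, -1), (-1, 1), (-1, -1)} with hsg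
  have hsub : S ⊆ ((sg ×ˢ P).image (fun t => (t.1.1 * t.2.1, t.1.2 * t.2.2))) ∪
      {((2 : ℤ), (0 : ℤ)), (-2, 0)} := by
    intro v hv
    obtain ⟨h1, h2⟩ := hS v hv
    by_cases h0 : v.2 = 0
    · apply Finset.mem_union_right
      rw [h0] at h1
      have h3 : v.1 ^ 2 = 2 ^ 2 := by linarith
      rw [Finset.mem_insert, Finset.mem_singleton]
      rcases sq_eq_sq_iff_eq_or_eq_neg.mp h3 with h4 | h4
      · left; exact Prod.ext h4 h0
      · right; exact Prod.ext h4 h0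
    · apply Finset.mem_union_left
      rw [Finset.mem_image]
      have hm : (|v.1|, |v.2|) ∈ P := by
        rw [hP, Finset.mem_image]
        exact ⟨v, Finset.mem_filter.mpr ⟨hv, h0⟩, rfl⟩
      rcases abs_choice v.1 with h3 | h3 <;> rcases abs_choice v.2 with h4 | h4
      · refine ⟨((1, 1), (|v.1|, |v.2|)), Finset.mem_product.mpr ⟨by simp [hsg], hm⟩, ?_⟩
        refine Prod.ext ?_ ?_
        · show 1 * |v.1| = v.1; rw [h3, one_mul]
        · show 1 * |v.2| = v.2; rw [h4, one_mul]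
      · refine ⟨((1, -1), (|v.1|, |v.2|)), Finset.mem_product.mpr ⟨by simp [hsg], hm⟩, ?_⟩
        refine Prod.ext ?_ ?_
        · show 1 * |v.1| = v.1; rw [h3, one_mul]
        · show -1 * |v.2| = v.2; rw [h4]; ring
      · refine ⟨((-1, 1), (|v.1|, |v.2|)), Finset.mem_product.mpr ⟨by simp [hsg], hm⟩, ?_⟩
        refine Prod.ext ?_ ?_
        · show -1 * |v.1| = v.1; rw [h3]; ring
        · show 1 * |v.2| = v.2; rw [h4, one_mul]
      · refine ⟨((-1, -1), (|v.1|, |v.2|)), Finset.mem_product.mpr ⟨by simp [hsg], hm⟩, ?_⟩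
        refine Prod.ext ?_ ?_
        · show -1 * |v.1| = v.1; rw [h3]; ring
        · show -1 * |v.2| = v.2; rw [h4]; ring
  have hsgc : sg.card ≤ 4 := Finset.card_le_four
  calc S.card ≤ _ := Finset.card_le_card hsub
    _ ≤ _ + _ := Finset.card_union_le _ _
    _ ≤ sg.card * P.card + 2 := by
        apply Nat.add_le_add
        · exact Finset.card_image_le.trans (le_of_eq (Finset.card_product _ _))
        · exact Finset.card_le_two
    _ ≤ 4 * (Nat.log 2 B + 1) + 2 := Nat.add_le_add_right (Nat.mul_le_mul hsgc hPc) _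

/-! ## classes of solutions -/

theorem sqf_two {g D : ℤ} (hD : Squarefree D) (h : g ^ 2 ∣ 4 * D) : g ∣ 2 := by
  rcases Int.even_or_odd g with he | ho
  · obtain ⟨k, hk⟩ := he
    have hk2 : g = 2 * k := by rw [hk]; ring
    have h1 : 4 * (k * k) ∣ 4 * D := by
      have : g ^ 2 = 4 * (k * k) := by rw [hk2]; ring
      rwa [this] at h
    have h2 : k * k ∣ D := Int.dvd_of_mul_dvd_mul_left (by norm_num) h1
    have h3 : IsUnit k := hD k h2
    rw [hk2]
    have h4 : k ∣ 1 := isUnit_iff_dvd_one.mp h3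
    have := mul_dvd_mul_left 2 h4
    rwa [mul_one] at this
  · have hcop : IsCoprime (g ^ 2) 4 := by
      apply IsCoprime.pow_left
      have h1 : IsCoprime g 2 := by
        obtain ⟨k, hk⟩ := ho
        exact ⟨1, -k, by rw [hk]; ring⟩
      have : (4 : ℤ) = 2 * 2 := by norm_num
      rw [this]
      exact h1.mul_right h1
    have h1 : g ^ 2 ∣ D := hcop.dvd_of_dvd_mul_left h
    have h2 : IsUnit g := hD g (by rw [← sq]; exact h1)
    exact (isUnit_iff_dvd_one.mp h2).trans (one_dvd _)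

theorem cls {D N x1 y1 x2 y2 x3 y3 : ℤ} (hD : Squarefree D) (hN : N ≠ 0)
    (h1 : x1 ^ 2 - D * y1 ^ 2 = N) (h2 : x2 ^ 2 - D * y2 ^ 2 = N) (h3 : x3 ^ 2 - D * y3 ^ 2 = N)
    (c1 : IsCoprime x1 y1) (c2 : IsCoprime x2 y2)
    (hd : Int.gcd N (x1 * y2 - x2 * y1) = Int.gcd N (x1 * y3 - x3 * y1)) :
    N ∣ 2 * (x2 * y3 - x3 * y2) := by
  set d : ℤ := (Int.gcd N (x1 * y2 - x2 * y1) : ℤ) with hdd
  have hd1 : d ∣ N := Int.gcd_dvd_left _ _
  have hd2 : d ∣ x1 * y2 - x2 * y1 := Int.gcd_dvd_right _ _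
  have hd3 : d ∣ x1 * y3 - x3 * y1 := by
    rw [hdd, hd]; exact Int.gcd_dvd_right _ _
  have hd0 : d ≠ 0 := by
    intro h0; rw [h0] at hd1; exact hN (zero_dvd_iff.mp hd1)
  obtain ⟨e, he⟩ := hd1
  -- e divides the sums
  have plus : ∀ x y : ℤ, x ^ 2 - D * y ^ 2 = N → (Int.gcd N (x1 * y - x * y1) : ℤ) = d →
      e ∣ x1 * y + x * y1 := by
    intro x y hxy hgd
    obtain ⟨k, hk⟩ : d ∣ x1 * y - x * y1 := by rw [← hgd]; exact Int.gcd_dvd_right _ _
    have hcop : IsCoprime e k := by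
      -- d = s N + t (..)
      have hb := Int.gcd_eq_gcd_ab N (x1 * y - x * y1)
      rw [hgd, he, hk] at hb
      refine ⟨Int.gcdA N (x1 * y - x * y1), Int.gcdB N (x1 * y - x * y1), ?_⟩
      rw [← he, ← hk] at hb
      have h5 : d * (Int.gcdA N (x1 * y - x * y1) * e +
          Int.gcdB N (x1 * y - x * y1) * k) = d * 1 := by
        calc d * (Int.gcdA N (x1 * y - x * y1) * e + Int.gcdB N (x1 * y - x * y1) * k)
            = (d * e) * Int.gcdA N (x1 * y - x * y1) +
              (d * k) * Int.gcdB N (x1 * y - x * y1) := by ring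
          _ = N * Int.gcdA N (x1 * y - x * y1) +
              (x1 * y - x * y1) * Int.gcdB N (x1 * y - x * y1) := by rw [← he, ← hk]
          _ = d := hb.symm
          _ = d * 1 := by ring
      exact mul_left_cancel₀ hd0 h5
    have h6 : (x1 * y - x * y1) * (x1 * y + x * y1) = N * (y ^ 2 - y1 ^ 2) := by
      linear_combination y ^ 2 * h1 - y1 ^ 2 * hxy
    rw [hk, he] at h6
    have h7 : d * (k * (x1 * y + x * y1)) = d * (e * (y ^ 2 - y1 ^ 2)) := by
      linear_combination h6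
    have h8 := mul_left_cancel₀ hd0 h7
    have h9 : e ∣ k * (x1 * y + x * y1) := ⟨_, h8⟩
    exact hcop.dvd_of_dvd_mul_left h9
  have p2 := plus x2 y2 h2 rfl
  have p3 := plus x3 y3 h3 (by rw [← hd])
  set T := x2 * y3 - x3 * y2 with hT
  have dT : d ∣ T := by
    have a1 : d ∣ x1 * T := by
      have : x1 * T = x2 * (x1 * y3 - x3 * y1) - x3 * (x1 * y2 - x2 * y1) := by rw [hT]; ring
      rw [this]
      exact dvd_sub (Dvd.dvd.mul_left hd3 _) (Dvd.dvd.mul_left hd2 _)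
    have a2 : d ∣ y1 * T := by
      have : y1 * T = y2 * (x1 * y3 - x3 * y1) - y3 * (x1 * y2 - x2 * y1) := by rw [hT]; ring
      rw [this]
      exact dvd_sub (Dvd.dvd.mul_left hd3 _) (Dvd.dvd.mul_left hd2 _)
    obtain ⟨r, s, hrs⟩ := c1
    have : T = r * (x1 * T) + s * (y1 * T) := by
      calc T = (r * x1 + s * y1) * T := by rw [hrs, one_mul]
        _ = _ := by ring
    rw [this]
    exact dvd_add (Dvd.dvd.mul_left a1 _) (Dvd.dvd.mul_left a2 _)
  have eT : e ∣ T := by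
    have a1 : e ∣ x1 * T := by
      have : x1 * T = x2 * (x1 * y3 + x3 * y1) - x3 * (x1 * y2 + x2 * y1) := by rw [hT]; ring
      rw [this]
      exact dvd_sub (Dvd.dvd.mul_left p3 _) (Dvd.dvd.mul_left p2 _)
    have a2 : e ∣ y1 * T := by
      have : y1 * T = y3 * (x1 * y2 + x2 * y1) - y2 * (x1 * y3 + x3 * y1) := by rw [hT]; ring
      rw [this]
      exact dvd_sub (Dvd.dvd.mul_left p2 _) (Dvd.dvd.mul_left p3 _)
    obtain ⟨r, s, hrs⟩ := c1
    have : T = r * (x1 * T) + s * (y1 * T) := by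
      calc T = (r * x1 + s * y1) * T := by rw [hrs, one_mul]
        _ = _ := by ring
    rw [this]
    exact dvd_add (Dvd.dvd.mul_left a1 _) (Dvd.dvd.mul_left a2 _)
  have copN : ∀ x y : ℤ, x ^ 2 - D * y ^ 2 = N → IsCoprime x y → IsCoprime N y := by
    intro x y hxy hc
    have h5 : IsCoprime (x ^ 2) y := hc.pow_left
    have h6 : N = x ^ 2 + (-(D * y)) * y := by rw [← hxy]; ring
    rw [h6]
    exact IsCoprime.add_mul_right_left_iff.mpr h5
  set g : ℤ := (Int.gcd d e : ℤ) with hg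
  have hgd : g ∣ d := Int.gcd_dvd_left _ _
  have hge : g ∣ e := Int.gcd_dvd_right _ _
  have hgN : g ∣ N := by rw [he]; exact Dvd.dvd.mul_right hgd _
  have hg2N : g ^ 2 ∣ N := by rw [he, sq]; exact mul_dvd_mul hgd hge
  have cg1 : IsCoprime g y1 := (copN x1 y1 h1 c1).of_isCoprime_of_dvd_left hgN
  have cg2 : IsCoprime g y2 := (copN x2 y2 h2 c2).of_isCoprime_of_dvd_left hgN
  have hg2 : g ∣ 2 := by
    have e1 : g ∣ 2 * x1 * y2 := by
      have : 2 * x1 * y2 = (x1 * y2 - x2 * y1) + (x1 * y2 + x2 * y1) := by ring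
      rw [this]
      exact dvd_add (hgd.trans hd2) (hge.trans p2)
    have e2 : g ∣ 2 * x1 := cg2.dvd_of_dvd_mul_right e1
    have e3 : g ^ 2 ∣ (2 * x1) ^ 2 := pow_dvd_pow_of_dvd e2 2
    have e4 : g ^ 2 ∣ 4 * D * y1 ^ 2 := by
      have : 4 * D * y1 ^ 2 = (2 * x1) ^ 2 - N * 4 := by rw [← h1]; ring
      rw [this]
      exact dvd_sub e3 (Dvd.dvd.mul_right hg2N _)
    have e5 : IsCoprime (g ^ 2) (y1 ^ 2) := cg1.pow
    exact sqf_two hD (e5.dvd_of_dvd_mul_right e4)
  have hb := Int.gcd_eq_gcd_ab d e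
  rw [← hg] at hb
  obtain ⟨t, ht⟩ := dT
  obtain ⟨t', ht'⟩ := eT
  obtain ⟨k, hk⟩ := hg2
  refine ⟨k * (Int.gcdA d e * t' + Int.gcdB d e * t), ?_⟩
  calc 2 * T = k * (g * T) := by rw [hk]; ring
    _ = k * ((d * Int.gcdA d e + e * Int.gcdB d e) * T) := by rw [← hb]
    _ = k * (d * Int.gcdA d e * T + e * Int.gcdB d e * T) := by ring
    _ = k * (d * Int.gcdA d e * (e * t') + e * Int.gcdB d e * (d * t)) := by
        rw [← ht', ← ht]
    _ = (d * e) * (k * (Int.gcdA d e * t' + Int.gcdB d e * t)) := by ring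
    _ = _ := by rw [← he]

end Pool.EB3
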