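import Pool.Agent.H62.EB3.Pell

/-!
# Solutions of `x^2 - D y^2 = N` in a box: uniform bound
-/

set_option autoImplicit false

namespace Pool.EB3

open Finset

/-- the logarithmic factor -/
def LB (M : ℕ) : ℕ := 4 * (Nat.log 2 M + 1) + 2

theorem LB_mono {M M' : ℕ} (h : M ≤ M') : LB M ≤ LB M' := by
  unfold LB
  have := Nat.log_mono_right (b := 2) h
  omega

theorem copr_count {D N : ℤ} (hD0 : 0 < D) (hD : Squarefree D) (hN : N ≠ 0) (B : ℕ)
    (S : Finset (ℤ × ℤ)) (hS : ∀ v ∈ S, v.1 ^ 2 - D * v.2 ^ 2 = N ∧ IsCoprime v.1 v.2 ∧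
      |v.1| ≤ B ∧ |v.2| ≤ B) :
    S.card ≤ LB (4 * D.natAbs * B ^ 2) * N.natAbs.divisors.card := by
  classical
  rcases S.eq_empty_or_nonempty with h0 | ⟨v1, hv1⟩
  · rw [h0, Finset.card_empty]; exact Nat.zero_le _
  obtain ⟨e1, c1, -, -⟩ := hS v1 hv1
  set f : ℤ × ℤ → ℕ := fun v => Int.gcd N (v1.1 * v.2 - v.1 * v1.2) with hf
  have himg : S.image f ⊆ N.natAbs.divisors := by
    intro a ha
    rw [Finset.mem_image] at ha
    obtain ⟨v, _, rfl⟩ := ha
    rw [Nat.mem_divisors]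
    refine ⟨?_, Int.natAbs_ne_zero.mpr hN⟩
    exact Int.natCast_dvd.mp (Int.gcd_dvd_left _ _)
  have hfib : ∀ a ∈ S.image f, (S.filter (fun v => f v = a)).card ≤
      LB (4 * D.natAbs * B ^ 2) := by
    intro a _
    set T := S.filter (fun v => f v = a) with hT
    rcases T.eq_empty_or_nonempty with h0 | ⟨v2, hv2⟩
    · rw [h0, Finset.card_empty]; exact Nat.zero_le _
    have hv2' := hv2
    rw [hT, Finset.mem_filter] at hv2'
    obtain ⟨e2, c2, b2, b2'⟩ := hS v2 hv2'.1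
    have hdv : ∀ v ∈ T, N ∣ 2 * (v2.1 * v.2 - v.1 * v2.2) := by
      intro v hv
      rw [hT, Finset.mem_filter] at hv
      obtain ⟨e3, -, -, -⟩ := hS v hv.1
      apply cls hD hN e1 e2 e3 c1 c2
      have h5 : f v2 = f v := by rw [hv2'.2, hv.2]
      exact h5
    have hdt : ∀ v ∈ T, N ∣ 2 * (v2.2 * v.1 - v2.1 * v.2) := by
      intro v hv
      have : 2 * (v2.2 * v.1 - v2.1 * v.2) = -(2 * (v2.1 * v.2 - v.1 * v2.2)) := by ring
      rw [this]
      exact (hdv v hv).neg_right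
    have hprod : ∀ v ∈ T, (2 * (v2.1 * v.1 - D * v2.2 * v.2)) ^ 2 -
        D * (2 * (v2.2 * v.1 - v2.1 * v.2)) ^ 2 = 4 * N ^ 2 := by
      intro v hv
      rw [hT, Finset.mem_filter] at hv
      obtain ⟨e3, -, -, -⟩ := hS v hv.1
      have : (2 * (v2.1 * v.1 - D * v2.2 * v.2)) ^ 2 -
        D * (2 * (v2.2 * v.1 - v2.1 * v.2)) ^ 2 =
        4 * ((v2.1 ^ 2 - D * v2.2 ^ 2) * (v.1 ^ 2 - D * v.2 ^ 2)) := by ring
      rw [this, e2, e3]; ring
    have hds : ∀ v ∈ T, N ∣ 2 * (v2.1 * v.1 - D * v2.2 * v.2) := by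
      intro v hv
      have h5 : N ^ 2 ∣ (2 * (v2.1 * v.1 - D * v2.2 * v.2)) ^ 2 := by
        have : (2 * (v2.1 * v.1 - D * v2.2 * v.2)) ^ 2 =
            N ^ 2 * 4 + D * (2 * (v2.2 * v.1 - v2.1 * v.2)) ^ 2 := by
          linarith [hprod v hv]
        rw [this]
        exact dvd_add (dvd_mul_right _ _) (Dvd.dvd.mul_left (pow_dvd_pow_of_dvd (hdt v hv) 2) _)
      exact (Int.pow_dvd_pow_iff (by norm_num)).mp h5
    set ψ : ℤ × ℤ → ℤ × ℤ := fun v => ((2 * (v2.1 * v.1 - D * v2.2 * v.2)) / N,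
      (2 * (v2.2 * v.1 - v2.1 * v.2)) / N) with hψ
    have hψ1 : ∀ v ∈ T, N * (ψ v).1 = 2 * (v2.1 * v.1 - D * v2.2 * v.2) := fun v hv =>
      Int.mul_ediv_cancel' (hds v hv)
    have hψ2 : ∀ v ∈ T, N * (ψ v).2 = 2 * (v2.2 * v.1 - v2.1 * v.2) := fun v hv =>
      Int.mul_ediv_cancel' (hdt v hv)
    have hinj : Set.InjOn ψ T := by
      intro v hv w hw hvw
      have hv' : v ∈ T := hv
      have hw' : w ∈ T := hw
      have a1 := hψ1 v hv'
      have a2 := hψ2 v hv'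
      have b1 := hψ1 w hw'
      have b2 := hψ2 w hw'
      rw [← hvw] at b1 b2
      have x1 : N * (2 * (v.1 - w.1)) = 0 := by
        have : N = v2.1 ^ 2 - D * v2.2 ^ 2 := e2.symm
        have k1 : 2 * (v2.1 * v.1 - D * v2.2 * v.2) = 2 * (v2.1 * w.1 - D * v2.2 * w.2) := by
          rw [← a1, ← b1]
        have k2 : 2 * (v2.2 * v.1 - v2.1 * v.2) = 2 * (v2.2 * w.1 - v2.1 * w.2) := by
          rw [← a2, ← b2]
        rw [this]
        linear_combination v2.1 * k1 - D * v2.2 * k2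
      have x2 : N * (2 * (v.2 - w.2)) = 0 := by
        have : N = v2.1 ^ 2 - D * v2.2 ^ 2 := e2.symm
        have k1 : 2 * (v2.1 * v.1 - D * v2.2 * v.2) = 2 * (v2.1 * w.1 - D * v2.2 * w.2) := by
          rw [← a1, ← b1]
        have k2 : 2 * (v2.2 * v.1 - v2.1 * v.2) = 2 * (v2.2 * w.1 - v2.1 * w.2) := by
          rw [← a2, ← b2]
        rw [this]
        linear_combination v2.2 * k1 - v2.1 * k2
      refine Prod.ext ?_ ?_
      · rcases mul_eq_zero.mp x1 with h | h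
        · exact absurd h hN
        · linarith
      · rcases mul_eq_zero.mp x2 with h | h
        · exact absurd h hN
        · linarith
    rw [← Finset.card_image_of_injOn hinj]
    apply four_count hD0
    intro u hu
    rw [Finset.mem_image] at hu
    obtain ⟨v, hv, rfl⟩ := hu
    have a1 := hψ1 v hv
    have a2 := hψ2 v hv
    have a3 := hprod v hv
    rw [← a1, ← a2] at a3
    constructor
    · have h5 : N ^ 2 * ((ψ v).1 ^ 2 - D * (ψ v).2 ^ 2) = N ^ 2 * 4 := by linear_combination a3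
      exact mul_left_cancel₀ (pow_ne_zero 2 hN) h5
    · have hv' := hv
      rw [hT, Finset.mem_filter] at hv'
      obtain ⟨-, -, b3, b3'⟩ := hS v hv'.1
      have hB0 : (0 : ℤ) ≤ B := Int.natCast_nonneg B
      have h5 : |(ψ v).1| ≤ |N * (ψ v).1| := by
        rw [abs_mul]
        have : 1 ≤ |N| := Int.one_le_abs hN
        nlinarith [abs_nonneg (ψ v).1]
      have h6 : |v2.1 * v.1| ≤ (B : ℤ) * B := by
        rw [abs_mul]; exact mul_le_mul b2 b3 (abs_nonneg _) hB0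
      have h7 : |v2.2 * v.2| ≤ (B : ℤ) * B := by
        rw [abs_mul]; exact mul_le_mul b2' b3' (abs_nonneg _) hB0
      have h8 : |D * v2.2 * v.2| ≤ D * ((B : ℤ) * B) := by
        have : D * v2.2 * v.2 = D * (v2.2 * v.2) := by ring
        rw [this, abs_mul, abs_of_pos hD0]
        exact mul_le_mul_of_nonneg_left h7 hD0.le
      have h9 : |v2.1 * v.1 - D * v2.2 * v.2| ≤ (B : ℤ) * B + D * ((B : ℤ) * B) :=
        (abs_sub _ _).trans (add_le_add h6 h8)
      have h10 : |N * (ψ v).1| ≤ 2 * ((B : ℤ) * B + D * ((B : ℤ) * B)) := by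
        rw [a1, abs_mul]
        have : |(2 : ℤ)| = 2 := by norm_num
        rw [this]
        linarith
      have h11 : (B : ℤ) * B ≤ D * ((B : ℤ) * B) := by
        have : (0 : ℤ) ≤ (B : ℤ) * B := by positivity
        nlinarith
      have hDn : ((D.natAbs : ℕ) : ℤ) = D := Int.natAbs_of_nonneg hD0.le
      push_cast
      rw [abs_of_pos hD0]
      nlinarith
  calc S.card ≤ LB (4 * D.natAbs * B ^ 2) * (S.image f).card :=
        Finset.card_le_mul_card_image S _ hfib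
    _ ≤ _ := Nat.mul_le_mul_left _ (Finset.card_le_card himg)

theorem sqf_count {D N : ℤ} (hD0 : 0 < D) (hD : Squarefree D) (hN : N ≠ 0) (B : ℕ)
    (S : Finset (ℤ × ℤ)) (hS : ∀ v ∈ S, v.1 ^ 2 - D * v.2 ^ 2 = N ∧ |v.1| ≤ B ∧ |v.2| ≤ B) :
    S.card ≤ LB (4 * D.natAbs * B ^ 2) * N.natAbs.divisors.card * N.natAbs.divisors.card := by
  classical
  set f : ℤ × ℤ → ℕ := fun v => Int.gcd v.1 v.2 with hf
  have hgdvd : ∀ v ∈ S, ((f v : ℕ) : ℤ) ^ 2 ∣ N := by
    intro v hv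
    obtain ⟨e, -, -⟩ := hS v hv
    rw [← e]
    exact dvd_sub (pow_dvd_pow_of_dvd (Int.gcd_dvd_left _ _) 2)
      (Dvd.dvd.mul_left (pow_dvd_pow_of_dvd (Int.gcd_dvd_right _ _) 2) _)
  have himg : S.image f ⊆ N.natAbs.divisors := by
    intro a ha
    rw [Finset.mem_image] at ha
    obtain ⟨v, hv, rfl⟩ := ha
    rw [Nat.mem_divisors]
    refine ⟨?_, Int.natAbs_ne_zero.mpr hN⟩
    apply Int.natCast_dvd.mp
    exact (dvd_pow_self _ (by norm_num)).trans (hgdvd v hv)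
  have hfib : ∀ a ∈ S.image f, (S.filter (fun v => f v = a)).card ≤
      LB (4 * D.natAbs * B ^ 2) * N.natAbs.divisors.card := by
    intro a ha
    set T := S.filter (fun v => f v = a) with hT
    rw [Finset.mem_image] at ha
    obtain ⟨v0, hv0, hav0⟩ := ha
    have haN : (a : ℤ) ^ 2 ∣ N := by rw [← hav0]; exact hgdvd v0 hv0
    obtain ⟨N', hN'⟩ := haN
    have ha0 : (a : ℤ) ≠ 0 := by
      intro h0
      rw [h0] at hN'
      apply hN
      rw [hN']; ring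
    have hapos : (0 : ℤ) < a := lt_of_le_of_ne (Int.natCast_nonneg a) (Ne.symm ha0)
    have hN'0 : N' ≠ 0 := by
      intro h0; rw [h0, mul_zero] at hN'; exact hN hN'
    set φ : ℤ × ℤ → ℤ × ℤ := fun v => (v.1 / a, v.2 / a) with hφ
    have hd : ∀ v ∈ T, v.1 = a * (φ v).1 ∧ v.2 = a * (φ v).2 := by
      intro v hv
      rw [hT, Finset.mem_filter] at hv
      have h1 : (a : ℤ) ∣ v.1 := by rw [← hv.2]; exact Int.gcd_dvd_left _ _
      have h2 : (a : ℤ) ∣ v.2 := by rw [← hv.2]; exact Int.gcd_dvd_right _ _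
      exact ⟨(Int.mul_ediv_cancel' h1).symm, (Int.mul_ediv_cancel' h2).symm⟩
    have hinj : Set.InjOn φ T := by
      intro v hv w hw hvw
      obtain ⟨a1, a2⟩ := hd v hv
      obtain ⟨b1, b2⟩ := hd w hw
      refine Prod.ext ?_ ?_
      · rw [a1, b1, hvw]
      · rw [a2, b2, hvw]
    rw [← Finset.card_image_of_injOn hinj]
    have h5 : (T.image φ).card ≤ LB (4 * D.natAbs * B ^ 2) * N'.natAbs.divisors.card := by
      apply copr_count hD0 hD hN'0
      intro u hu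
      rw [Finset.mem_image] at hu
      obtain ⟨v, hv, rfl⟩ := hu
      obtain ⟨a1, a2⟩ := hd v hv
      have hv' := hv
      rw [hT, Finset.mem_filter] at hv'
      obtain ⟨e, b, b'⟩ := hS v hv'.1
      have habs : ∀ x y : ℤ, y = a * x → |x| ≤ |y| := by
        intro x y hxy
        rw [hxy, abs_mul]
        have : 1 ≤ |(a : ℤ)| := Int.one_le_abs ha0
        nlinarith [abs_nonneg x]
      refine ⟨?_, ?_, ?_, ?_⟩
      · have h6 : (a : ℤ) ^ 2 * ((φ v).1 ^ 2 - D * (φ v).2 ^ 2) = (a : ℤ) ^ 2 * N' := by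
          rw [← hN', ← e]
          conv_rhs => rw [a1, a2]
          ring
        exact mul_left_cancel₀ (pow_ne_zero 2 ha0) h6
      · rw [Int.isCoprime_iff_gcd_eq_one]
        have h6 : Int.gcd v.1 v.2 = a := hv'.2
        rw [a1, a2, Int.gcd_mul_left] at h6
        have h7 : (a : ℤ).natAbs = a := Int.natAbs_natCast a
        rw [h7] at h6
        have h8 : a * Int.gcd (φ v).1 (φ v).2 = a * 1 := by rw [h6, mul_one]
        have ha' : 0 < a := by exact_mod_cast hapos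
        exact Nat.eq_of_mul_eq_mul_left ha' h8
      · exact (habs _ _ a1).trans b
      · exact (habs _ _ a2).trans b'
    refine h5.trans (Nat.mul_le_mul_left _ ?_)
    apply Finset.card_le_card
    apply Nat.divisors_subset_of_dvd (Int.natAbs_ne_zero.mpr hN)
    apply Int.natAbs_dvd_natAbs.mpr
    exact ⟨(a : ℤ) ^ 2, by rw [hN']; ring⟩
  calc S.card ≤ LB (4 * D.natAbs * B ^ 2) * N.natAbs.divisors.card * (S.image f).card :=
        Finset.card_le_mul_card_image S _ hfib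
    _ ≤ _ := Nat.mul_le_mul_left _ (Finset.card_le_card himg)

theorem gen_count {D : ℕ} {N : ℤ} (hD0 : 0 < D) (hN : N ≠ 0) (B : ℕ)
    (S : Finset (ℤ × ℤ))
    (hS : ∀ v ∈ S, v.1 ^ 2 - (D : ℤ) * v.2 ^ 2 = N ∧ |v.1| ≤ B ∧ |v.2| ≤ B) :
    S.card ≤ LB (4 * D * (D * B) ^ 2) * N.natAbs.divisors.card * N.natAbs.divisors.card := by
  classical
  obtain ⟨a, b, hab, hsq⟩ := Nat.sq_mul_squarefree D
  have hb0 : 0 < b := by
    rcases Nat.eq_zero_or_pos b with h0 | h0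
    · rw [h0] at hab; simp at hab; omega
    · exact h0
  have ha0 : 0 < a := by
    rcases Nat.eq_zero_or_pos a with h0 | h0
    · rw [h0] at hab; simp at hab; omega
    · exact h0
  have hb0' : (0 : ℤ) < b := by exact_mod_cast hb0
  have hbD : b ≤ D := by
    rw [← hab]
    calc b = b * 1 * 1 := by ring
      _ ≤ b * b * a := Nat.mul_le_mul (Nat.mul_le_mul_left _ hb0) ha0
      _ = _ := by ring
  have haD : a ≤ D := by
    rw [← hab]
    exact Nat.le_mul_of_pos_left _ (by positivity)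
  set φ : ℤ × ℤ → ℤ × ℤ := fun v => (v.1, b * v.2) with hφ
  have hinj : Set.InjOn φ S := by
    intro v _ w _ hvw
    have hvw' : φ v = φ w := hvw
    have h1 : v.1 = w.1 := (Prod.ext_iff.mp hvw').1
    have h2 : (b : ℤ) * v.2 = b * w.2 := (Prod.ext_iff.mp hvw').2
    exact Prod.ext h1 (mul_left_cancel₀ hb0'.ne' h2)
  rw [← Finset.card_image_of_injOn hinj]
  have h5 := sqf_count (D := (a : ℤ)) (N := N) (by exact_mod_cast ha0)
    (Int.squarefree_natCast.mpr hsq) hN (D * B) (S.image φ) (by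
      intro u hu
      rw [Finset.mem_image] at hu
      obtain ⟨v, hv, rfl⟩ := hu
      obtain ⟨e, b1, b2⟩ := hS v hv
      have hBB : (B : ℤ) ≤ D * B := by
        have : (1 : ℤ) ≤ D := by exact_mod_cast hD0
        have hB0 : (0 : ℤ) ≤ B := Int.natCast_nonneg B
        nlinarith
      refine ⟨?_, ?_, ?_⟩
      · rw [← e, ← hab]
        push_cast
        show v.1 ^ 2 - (a : ℤ) * (b * v.2) ^ 2 = _
        ring
      · push_cast; exact b1.trans hBB
      · show |(b : ℤ) * v.2| ≤ _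
        rw [abs_mul, abs_of_pos hb0']
        push_cast
        exact mul_le_mul (by exact_mod_cast hbD) b2 (abs_nonneg _) (Int.natCast_nonneg _))
  refine h5.trans ?_
  apply Nat.mul_le_mul_right
  apply Nat.mul_le_mul_right
  apply LB_mono
  rw [Int.natAbs_natCast]
  exact Nat.mul_le_mul_right _ (Nat.mul_le_mul_left _ haD)

/-- logarithms are small -/
theorem LB_small (ε : ℝ) (hε : 0 < ε) (K : ℕ) : ∃ C : ℝ, 1 ≤ C ∧ ∀ X M : ℕ, 1 ≤ X →
    M ≤ (100 * X) ^ K → (LB M : ℝ) ≤ C * (X : ℝ) ^ ε := by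
  obtain ⟨C, hC, h⟩ := Pool.Agent.H93.BT.local_small (ε / (K + 1)) (by positivity)
  refine ⟨6 * (C * (100 : ℝ) ^ ε), ?_, fun X M hX hM => ?_⟩
  · have : (1 : ℝ) ≤ (100 : ℝ) ^ ε := Real.one_le_rpow (by norm_num) hε.le
    nlinarith
  have hX1 : (1 : ℝ) ≤ X := by exact_mod_cast hX
  have hX0 : (0 : ℝ) < X := by linarith
  have h100 : (1 : ℝ) ≤ 100 * X := by linarith
  have h0 : ((Nat.log 2 M : ℝ) + 1) ≤ C * ((100 : ℝ) ^ ε * (X : ℝ) ^ ε) := by
    refine (h (Nat.log 2 M)).trans (mul_le_mul_of_nonneg_left ?_ (by linarith))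
    have h2 : (2 : ℝ) ^ (Nat.log 2 M) ≤ (100 * (X : ℝ)) ^ K := by
      rcases Nat.eq_zero_or_pos M with hM0 | hM0
      · rw [hM0]
        simp only [Nat.log_zero_right, pow_zero]
        exact one_le_pow₀ h100
      · have h1 : 2 ^ Nat.log 2 M ≤ M := Nat.pow_log_le_self 2 (by omega)
        have h3 : (2 : ℝ) ^ (Nat.log 2 M) ≤ M := by exact_mod_cast h1
        have h4 : (M : ℝ) ≤ (100 * (X : ℝ)) ^ K := by exact_mod_cast hM
        linarith
    calc (2 : ℝ) ^ (ε / (K + 1) * (Nat.log 2 M : ℝ)) =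
          ((2 : ℝ) ^ (Nat.log 2 M)) ^ (ε / ((K : ℝ) + 1)) := by
          rw [← Real.rpow_natCast, ← Real.rpow_mul (by norm_num)]
          congr 1; ring
      _ ≤ ((100 * (X : ℝ)) ^ K) ^ (ε / ((K : ℝ) + 1)) :=
          Real.rpow_le_rpow (by positivity) h2 (by positivity)
      _ = (100 * (X : ℝ)) ^ ((K : ℝ) * (ε / ((K : ℝ) + 1))) := by
          rw [← Real.rpow_natCast, ← Real.rpow_mul (by linarith)]
      _ ≤ (100 * (X : ℝ)) ^ ε := by
          apply Real.rpow_le_rpow_of_exponent_le h100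
          have hK : (0 : ℝ) ≤ K := Nat.cast_nonneg _
          rw [← mul_div_assoc, div_le_iff₀ (by positivity)]
          nlinarith
      _ = (100 : ℝ) ^ ε * (X : ℝ) ^ ε := Real.mul_rpow (by norm_num) hX0.le
  have h1 : (LB M : ℝ) ≤ 6 * ((Nat.log 2 M : ℝ) + 1) := by
    unfold LB
    push_cast
    have : (0 : ℝ) ≤ Nat.log 2 M := Nat.cast_nonneg _
    linarith
  calc (LB M : ℝ) ≤ 6 * ((Nat.log 2 M : ℝ) + 1) := h1
    _ ≤ 6 * (C * ((100 : ℝ) ^ ε * (X : ℝ) ^ ε)) := by linarith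
    _ = _ := by ring

/-- **uniform bound for Pell type equations** -/
theorem pell (ε : ℝ) (hε : 0 < ε) (K : ℕ) : ∃ C : ℝ, 1 ≤ C ∧ ∀ (X D : ℕ) (N : ℤ), 1 ≤ X →
    0 < D → N ≠ 0 → D ≤ (100 * X) ^ K → |N| ≤ (100 * (X : ℤ)) ^ K →
    ∀ S : Finset (ℤ × ℤ), (∀ v ∈ S, v.1 ^ 2 - (D : ℤ) * v.2 ^ 2 = N ∧
      |v.1| ≤ (100 * (X : ℤ)) ^ K ∧ |v.2| ≤ (100 * (X : ℤ)) ^ K) →
    (S.card : ℝ) ≤ C * (X : ℝ) ^ ε := by
  obtain ⟨C1, hC1, h1⟩ := LB_small (ε / 3) (by positivity) (5 * K + 1)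
  obtain ⟨C2, hC2, h2⟩ := divb (ε / 3) (by positivity) K
  have hC22 : 1 ≤ C2 * C2 := by nlinarith
  refine ⟨C1 * C2 * C2, by nlinarith, fun X D N hX hD hN hDK hNK S hS => ?_⟩
  have hX1 : (1 : ℝ) ≤ X := by exact_mod_cast hX
  have hX0 : (0 : ℝ) < X := by linarith
  have h3 := gen_count hD hN ((100 * X) ^ K) S (by
    intro v hv
    obtain ⟨a, b, c⟩ := hS v hv
    refine ⟨a, ?_, ?_⟩
    · push_cast; exact b
    · push_cast; exact c)
  have h4 := h2 X N hX hN hNK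
  have h5 := h1 X (4 * D * (D * (100 * X) ^ K) ^ 2) hX (by
    calc 4 * D * (D * (100 * X) ^ K) ^ 2
        ≤ (100 * X) * (100 * X) ^ K * ((100 * X) ^ K * (100 * X) ^ K) ^ 2 := by
          apply Nat.mul_le_mul
          · exact Nat.mul_le_mul (by omega) hDK
          · exact Nat.pow_le_pow_left (Nat.mul_le_mul_right _ hDK) 2
      _ = (100 * X) ^ (5 * K + 1) := by ring)
  have h6 : (S.card : ℝ) ≤ (LB (4 * D * (D * (100 * X) ^ K) ^ 2) : ℝ) *
      (N.natAbs.divisors.card : ℝ) * (N.natAbs.divisors.card : ℝ) := by exact_mod_cast h3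
  have hee : (X : ℝ) ^ (ε / 3) * (X : ℝ) ^ (ε / 3) * (X : ℝ) ^ (ε / 3) = (X : ℝ) ^ ε := by
    rw [← Real.rpow_add hX0, ← Real.rpow_add hX0]; congr 1; ring
  have hp : 0 ≤ (X : ℝ) ^ (ε / 3) := by positivity
  calc (S.card : ℝ) ≤ _ := h6
    _ ≤ (C1 * (X : ℝ) ^ (ε / 3)) * (C2 * (X : ℝ) ^ (ε / 3)) * (C2 * (X : ℝ) ^ (ε / 3)) := by
        apply mul_le_mul _ h4 (Nat.cast_nonneg _) (by positivity)
        exact mul_le_mul h5 h4 (Nat.cast_nonneg _) (by positivity)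
    _ = C1 * C2 * C2 * ((X : ℝ) ^ (ε / 3) * (X : ℝ) ^ (ε / 3) * (X : ℝ) ^ (ε / 3)) := by ring
    _ = _ := by rw [hee]

end Pool.EB3
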