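import Pool.Agent.H62.EB3.Clp
import Pool.Agent.H62.EB3.Pell2

/-!
# Pairs `(z, z')` with `(u z^2 - v z'^2)^2 + (t z'^2 - w z^2)^2` a square
-/

set_option autoImplicit false

namespace Pool.EB3

open Finset

theorem npaux {p k l w u : ℤ} (hp : Prime p) (hp2 : ¬ p ∣ 2) (hkl : IsCoprime k l)
    (h : p ∣ k ^ 2 + l ^ 2) (hq : p ∣ w * (k ^ 2 - l ^ 2) + 2 * u * k * l) : p ∣ u ^ 2 + w ^ 2 := by
  have hk : ¬ p ∣ k := by
    intro hk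
    have h1 : p ∣ l ^ 2 := by
      have : l ^ 2 = (k ^ 2 + l ^ 2) - k ^ 2 := by ring
      rw [this]
      exact dvd_sub h (hk.trans (dvd_pow_self k (by norm_num)))
    have h2 : p ∣ l := hp.dvd_of_dvd_pow h1
    exact hp.not_unit (hkl.isUnit_of_dvd' hk h2)
  have h1 : p ∣ 2 * (k * (w * k + u * l)) := by
    have : 2 * (k * (w * k + u * l)) =
        (w * (k ^ 2 - l ^ 2) + 2 * u * k * l) + w * (k ^ 2 + l ^ 2) := by ring
    rw [this]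
    exact dvd_add hq (Dvd.dvd.mul_left h _)
  have h2 : p ∣ w * k + u * l := by
    rcases hp.dvd_or_dvd h1 with h3 | h3
    · exact absurd h3 hp2
    · rcases hp.dvd_or_dvd h3 with h4 | h4
      · exact absurd h4 hk
      · exact h4
  have h3 : p ∣ (u ^ 2 + w ^ 2) * k ^ 2 := by
    have : (u ^ 2 + w ^ 2) * k ^ 2 = (w * k - u * l) * (w * k + u * l) +
        u ^ 2 * (k ^ 2 + l ^ 2) := by ring
    rw [this]
    exact dvd_add (Dvd.dvd.mul_left h2 _) (Dvd.dvd.mul_left h _)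
  rcases hp.dvd_or_dvd h3 with h4 | h4
  · exact h4
  · exact absurd (hp.dvd_of_dvd_pow h4) hk

open Classical in
/-- coprime pairs, positive legs, square condition, small second leg -/
noncomputable def PR2 (X u v w t : ℕ) : Finset (ℕ × ℕ) :=
  ((Icc 1 X) ×ˢ (Icc 1 X)).filter (fun z => Nat.Coprime z.1 z.2 ∧
    ∃ A B f : ℕ, 0 < A ∧ 0 < B ∧ A + v * z.2 ^ 2 = u * z.1 ^ 2 ∧ B + w * z.1 ^ 2 = t * z.2 ^ 2 ∧
      A ^ 2 + B ^ 2 = f ^ 2 ∧ 64 * B + v * w ≤ u * t)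

/-- data of a pair -/
def R2 (u v w t D : ℕ) (z s : ℕ × ℕ) : Prop :=
  0 < s.1 ∧ 0 < s.2 ∧ Nat.Coprime s.1 s.2 ∧ 128 * (s.1 * s.2) ≤ D ∧
    (D : ℤ) * (z.1 : ℤ) ^ 2 = t * ((s.1 : ℤ) ^ 2 - (s.2 : ℤ) ^ 2) + 2 * v * s.1 * s.2 ∧
    (D : ℤ) * (z.2 : ℤ) ^ 2 = w * ((s.1 : ℤ) ^ 2 - (s.2 : ℤ) ^ 2) + 2 * u * s.1 * s.2

open Classical in
theorem pair_data {X u v w t : ℕ} {z : ℕ × ℕ} (hz : z ∈ PR2 X u v w t) (hD : v * w < u * t) :
    ∃ D : ℕ, D ∣ 2 * (u * t - v * w) ∧ ∃ s : ℕ × ℕ, R2 u v w t D z s := by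
  unfold PR2 at hz
  rw [Finset.mem_filter, Finset.mem_product, Finset.mem_Icc, Finset.mem_Icc] at hz
  obtain ⟨⟨⟨z1, _⟩, ⟨z2, _⟩⟩, hc, A, B, f, hA, hB, h1, h2, h3, h4⟩ := hz
  obtain ⟨G, k, l, hG, hk, hl, hGkl, hGA, hkl⟩ := pyt hA hB h3
  set Δ : ℕ := u * t - v * w with hΔ
  have hΔ0 : 0 < Δ := Nat.sub_pos_of_lt hD
  have hΔz : (Δ : ℤ) = (u : ℤ) * t - v * w := by
    rw [hΔ, Nat.cast_sub hD.le]; push_cast; ring
  have h1z : (A : ℤ) + v * (z.2 : ℤ) ^ 2 = u * (z.1 : ℤ) ^ 2 := by exact_mod_cast h1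
  have h2z : (B : ℤ) + w * (z.1 : ℤ) ^ 2 = t * (z.2 : ℤ) ^ 2 := by exact_mod_cast h2
  have hBz : (B : ℤ) = G * k * l := by exact_mod_cast hGkl
  have hAz : 2 * (A : ℤ) + G * (l : ℤ) ^ 2 = G * (k : ℤ) ^ 2 := by exact_mod_cast hGA
  have e1 : 2 * (Δ : ℤ) * (z.1 : ℤ) ^ 2 =
      G * (t * ((k : ℤ) ^ 2 - (l : ℤ) ^ 2) + 2 * v * k * l) := by
    rw [hΔz]
    linear_combination (-2 * (t : ℤ)) * h1z - 2 * (v : ℤ) * h2z + t * hAz + 2 * (v : ℤ) * hBz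
  have e2 : 2 * (Δ : ℤ) * (z.2 : ℤ) ^ 2 =
      G * (w * ((k : ℤ) ^ 2 - (l : ℤ) ^ 2) + 2 * u * k * l) := by
    rw [hΔz]
    linear_combination (-2 * (w : ℤ)) * h1z - 2 * (u : ℤ) * h2z + w * hAz + 2 * (u : ℤ) * hBz
  have hcz : IsCoprime ((z.1 : ℤ) ^ 2) ((z.2 : ℤ) ^ 2) := (Nat.isCoprime_iff_coprime.mpr hc).pow
  have hGD : (G : ℤ) ∣ 2 * (Δ : ℤ) := by
    obtain ⟨r, s, hrs⟩ := hcz
    have : 2 * (Δ : ℤ) = r * (2 * (Δ : ℤ) * (z.1 : ℤ) ^ 2) + s * (2 * (Δ : ℤ) * (z.2 : ℤ) ^ 2) := by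
      calc 2 * (Δ : ℤ) = (r * (z.1 : ℤ) ^ 2 + s * (z.2 : ℤ) ^ 2) * (2 * (Δ : ℤ)) := by
            rw [hrs, one_mul]
        _ = _ := by ring
    rw [this, e1, e2]
    exact dvd_add (Dvd.dvd.mul_left (dvd_mul_right _ _) _)
      (Dvd.dvd.mul_left (dvd_mul_right _ _) _)
  have hGD' : G ∣ 2 * Δ := by exact_mod_cast hGD
  obtain ⟨D, hDD⟩ := hGD'
  have hDDz : 2 * (Δ : ℤ) = G * D := by exact_mod_cast hDD
  have hGz : (G : ℤ) ≠ 0 := by exact_mod_cast hG.ne'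
  refine ⟨D, ⟨G, by rw [hDD]; ring⟩, (k, l), hk, hl, hkl, ?_, ?_, ?_⟩
  · have h5 : G * (128 * (k * l)) ≤ G * D := by
      rw [← hDD]
      calc G * (128 * (k * l)) = 128 * B := by rw [hGkl]; ring
        _ = 2 * (64 * B) := by ring
        _ ≤ 2 * Δ := by
            apply Nat.mul_le_mul_left
            rw [hΔ]
            exact Nat.le_sub_of_add_le h4
    exact Nat.le_of_mul_le_mul_left h5 hG
  · have h5 : (G : ℤ) * (D * (z.1 : ℤ) ^ 2) =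
        G * (t * ((k : ℤ) ^ 2 - (l : ℤ) ^ 2) + 2 * v * k * l) := by
      rw [← e1, hDDz]; ring
    exact mul_left_cancel₀ hGz h5
  · have h5 : (G : ℤ) * (D * (z.2 : ℤ) ^ 2) =
        G * (w * ((k : ℤ) ^ 2 - (l : ℤ) ^ 2) + 2 * u * k * l) := by
      rw [← e2, hDDz]; ring
    exact mul_left_cancel₀ hGz h5

theorem PR2_fix {X u v w t : ℕ} (hD : v * w < u * t)
    (hNP : ∀ p : ℕ, p.Prime → p ≠ 2 → (p : ℤ) ∣ (u : ℤ) ^ 2 + (w : ℤ) ^ 2 →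
      (p : ℤ) ∣ (v : ℤ) ^ 2 + (t : ℤ) ^ 2 → ¬ (p : ℤ) ∣ (u : ℤ) * t - v * w)
    (hG4 : ∃ r1 r2 r3 r4 : ℤ, r1 * w + r2 * t + r3 * (2 * u) + r4 * (2 * v) = 4) :
    (PR2 X u v w t).card ≤ ((Nat.log 2 (2 * (u * t - v * w)) + 1) *
      (Nat.log 2 (2 * (u * t - v * w)) + 1) * (2 * (u * t - v * w)).divisors.card) *
      (2 * (u * t - v * w)).divisors.card := by
  classical
  set Δ : ℕ := u * t - v * w with hΔ
  have hΔ0 : 0 < Δ := Nat.sub_pos_of_lt hD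
  have hΔz : (Δ : ℤ) = (u : ℤ) * t - v * w := by
    rw [hΔ, Nat.cast_sub hD.le]; push_cast; ring
  set Fb : ℕ → Finset (ℕ × ℕ) := fun D => (PR2 X u v w t).filter (fun z => ∃ s, R2 u v w t D z s)
    with hFb
  have hcover : PR2 X u v w t ⊆ (2 * Δ).divisors.biUnion Fb := by
    intro z hz
    obtain ⟨D, hDd, s, hs⟩ := pair_data hz hD
    rw [Finset.mem_biUnion]
    exact ⟨D, Nat.mem_divisors.mpr ⟨hDd, by omega⟩, Finset.mem_filter.mpr ⟨hz, s, hs⟩⟩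
  have hfib : ∀ D ∈ (2 * Δ).divisors, (Fb D).card ≤
      (Nat.log 2 (2 * Δ) + 1) * (Nat.log 2 (2 * Δ) + 1) * (2 * Δ).divisors.card := by
    intro D hDd
    rw [Nat.mem_divisors] at hDd
    have hD0 : 0 < D := Nat.pos_of_dvd_of_pos hDd.1 (by omega)
    have hDz : (D : ℤ) ≠ 0 := by exact_mod_cast hD0.ne'
    have hDle : D ≤ 2 * Δ := Nat.le_of_dvd (by omega) hDd.1
    have hex : ∀ z : ℕ × ℕ, ∃ s : ℕ × ℕ, z ∈ Fb D → R2 u v w t D z s := by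
      intro z
      by_cases hz : z ∈ Fb D
      · obtain ⟨s, hs⟩ := (Finset.mem_filter.mp hz).2
        exact ⟨s, fun _ => hs⟩
      · exact ⟨(0, 0), fun h => absurd h hz⟩
    choose s hs using hex
    have hinj : Set.InjOn s (Fb D) := by
      intro z hz y hy hzy
      obtain ⟨_, _, _, _, a1, a2⟩ := hs z hz
      obtain ⟨_, _, _, _, b1, b2⟩ := hs y hy
      rw [hzy, ← b1] at a1
      rw [hzy, ← b2] at a2
      have e1 := mul_left_cancel₀ hDz a1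
      have e2 := mul_left_cancel₀ hDz a2
      have e1' : z.1 ^ 2 = y.1 ^ 2 := by exact_mod_cast e1
      have e2' : z.2 ^ 2 = y.2 ^ 2 := by exact_mod_cast e2
      exact Prod.ext (Nat.pow_left_injective (n := 2) (by norm_num) e1')
        (Nat.pow_left_injective (n := 2) (by norm_num) e2')
    rw [← Finset.card_image_of_injOn hinj]
    have h1 := cls6 hD0 (2 * Δ) ((Fb D).image s) ?_ ?_ ?_
    · refine h1.trans (Nat.mul_le_mul_left _ ?_)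
      exact Finset.card_le_card (Nat.divisors_subset_of_dvd (by omega) hDd.1)
    · intro x hx
      rw [Finset.mem_image] at hx
      obtain ⟨z, hz, rfl⟩ := hx
      obtain ⟨a1, a2, a3, a4, _, _⟩ := hs z hz
      have m1 : (s z).1 ≤ (s z).1 * (s z).2 := Nat.le_mul_of_pos_right _ a2
      have m2 : (s z).2 ≤ (s z).1 * (s z).2 := Nat.le_mul_of_pos_left _ a1
      exact ⟨a1, a2, a3, by omega, by omega, a4⟩
    · intro x hx y hy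
      rw [Finset.mem_image] at hx hy
      obtain ⟨z, hz, rfl⟩ := hx
      obtain ⟨z', hz', rfl⟩ := hy
      obtain ⟨_, _, _, _, a1, a2⟩ := hs z hz
      obtain ⟨_, _, _, _, b1, b2⟩ := hs z' hz'
      set k1 : ℤ := ((s z).1 : ℤ)
      set l1 : ℤ := ((s z).2 : ℤ)
      set k2 : ℤ := ((s z').1 : ℤ)
      set l2 : ℤ := ((s z').2 : ℤ)
      set TT : ℤ := (k1 * l2 - k2 * l1) * (k1 * k2 + l1 * l2) with hTT
      have d1 : (D : ℤ) ∣ w * TT := by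
        refine ⟨(z.2 : ℤ) ^ 2 * (k2 * l2) - (z'.2 : ℤ) ^ 2 * (k1 * l1), ?_⟩
        rw [hTT]
        linear_combination (-(k2 * l2)) * a2 + (k1 * l1) * b2
      have d2 : (D : ℤ) ∣ t * TT := by
        refine ⟨(z.1 : ℤ) ^ 2 * (k2 * l2) - (z'.1 : ℤ) ^ 2 * (k1 * l1), ?_⟩
        rw [hTT]
        linear_combination (-(k2 * l2)) * a1 + (k1 * l1) * b1
      have d3 : (D : ℤ) ∣ 2 * u * TT := by
        refine ⟨(k1 ^ 2 - l1 ^ 2) * (z'.2 : ℤ) ^ 2 - (k2 ^ 2 - l2 ^ 2) * (z.2 : ℤ) ^ 2, ?_⟩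
        rw [hTT]
        linear_combination (-(k1 ^ 2 - l1 ^ 2)) * b2 + (k2 ^ 2 - l2 ^ 2) * a2
      have d4 : (D : ℤ) ∣ 2 * v * TT := by
        refine ⟨(k1 ^ 2 - l1 ^ 2) * (z'.1 : ℤ) ^ 2 - (k2 ^ 2 - l2 ^ 2) * (z.1 : ℤ) ^ 2, ?_⟩
        rw [hTT]
        linear_combination (-(k1 ^ 2 - l1 ^ 2)) * b1 + (k2 ^ 2 - l2 ^ 2) * a1
      obtain ⟨r1, r2, r3, r4, hr⟩ := hG4
      have : 4 * TT = r1 * (w * TT) + r2 * (t * TT) + r3 * (2 * u * TT) + r4 * (2 * v * TT) := by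
        calc 4 * TT = (r1 * w + r2 * t + r3 * (2 * u) + r4 * (2 * v)) * TT := by rw [hr]
          _ = _ := by ring
      rw [this]
      exact dvd_add (dvd_add (dvd_add (Dvd.dvd.mul_left d1 _) (Dvd.dvd.mul_left d2 _))
        (Dvd.dvd.mul_left d3 _)) (Dvd.dvd.mul_left d4 _)
    · intro x hx y hy p hp hp2 hpD hT1 hT2
      rw [Finset.mem_image] at hx hy
      obtain ⟨z, hz, rfl⟩ := hx
      obtain ⟨z', hz', rfl⟩ := hy
      obtain ⟨_, _, ac, _, a1, a2⟩ := hs z hz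
      obtain ⟨_, _, bc, _, b1, b2⟩ := hs z' hz'
      have acz : IsCoprime ((s z).1 : ℤ) ((s z).2 : ℤ) := Nat.isCoprime_iff_coprime.mpr ac
      have bcz : IsCoprime ((s z').1 : ℤ) ((s z').2 : ℤ) := Nat.isCoprime_iff_coprime.mpr bc
      set k1 : ℤ := ((s z).1 : ℤ)
      set l1 : ℤ := ((s z).2 : ℤ)
      set k2 : ℤ := ((s z').1 : ℤ)
      set l2 : ℤ := ((s z').2 : ℤ)
      have hpp : Prime (p : ℤ) := Nat.prime_iff_prime_int.mp hp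
      have hp2' : ¬ (p : ℤ) ∣ 2 := by
        intro h
        have h' : p ∣ 2 := by exact_mod_cast h
        exact hp2 ((Nat.prime_dvd_prime_iff_eq hp Nat.prime_two).mp h')
      have hprod : (p : ℤ) ∣ (k1 ^ 2 + l1 ^ 2) * (k2 ^ 2 + l2 ^ 2) := by
        have : (k1 ^ 2 + l1 ^ 2) * (k2 ^ 2 + l2 ^ 2) =
            (k1 * l2 - k2 * l1) * (k1 * l2 - k2 * l1) +
            (k1 * k2 + l1 * l2) * (k1 * k2 + l1 * l2) := by ring
        rw [this]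
        exact dvd_add (Dvd.dvd.mul_left hT1 _) (Dvd.dvd.mul_left hT2 _)
      have hpΔ : (p : ℤ) ∣ (u : ℤ) * t - v * w := by
        rw [← hΔz]
        have h5 : (p : ℤ) ∣ 2 * (Δ : ℤ) := hpD.trans (by exact_mod_cast hDd.1)
        rcases hpp.dvd_or_dvd h5 with h6 | h6
        · exact absurd h6 hp2'
        · exact h6
      rcases hpp.dvd_or_dvd hprod with h5 | h5
      · have q1 : (p : ℤ) ∣ (u : ℤ) ^ 2 + (w : ℤ) ^ 2 :=
          npaux hpp hp2' acz h5 (by rw [← a2]; exact Dvd.dvd.mul_right hpD _)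
        have q2 : (p : ℤ) ∣ (v : ℤ) ^ 2 + (t : ℤ) ^ 2 :=
          npaux hpp hp2' acz h5 (by rw [← a1]; exact Dvd.dvd.mul_right hpD _)
        exact hNP p hp hp2 q1 q2 hpΔ
      · have q1 : (p : ℤ) ∣ (u : ℤ) ^ 2 + (w : ℤ) ^ 2 :=
          npaux hpp hp2' bcz h5 (by rw [← b2]; exact Dvd.dvd.mul_right hpD _)
        have q2 : (p : ℤ) ∣ (v : ℤ) ^ 2 + (t : ℤ) ^ 2 :=
          npaux hpp hp2' bcz h5 (by rw [← b1]; exact Dvd.dvd.mul_right hpD _)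
        exact hNP p hp hp2 q1 q2 hpΔ
  calc (PR2 X u v w t).card ≤ _ := Finset.card_le_card hcover
    _ ≤ _ := Finset.card_biUnion_le_card_mul _ _ _ hfib
    _ = _ := by ring

theorem PR2_card (ε : ℝ) (hε : 0 < ε) : ∃ C : ℝ, 1 ≤ C ∧ ∀ (X u v w t : ℕ), 1 ≤ X →
    v * w < u * t → u ≤ X ^ 3 → t ≤ X ^ 3 →
    (∀ p : ℕ, p.Prime → p ≠ 2 → (p : ℤ) ∣ (u : ℤ) ^ 2 + (w : ℤ) ^ 2 →
      (p : ℤ) ∣ (v : ℤ) ^ 2 + (t : ℤ) ^ 2 → ¬ (p : ℤ) ∣ (u : ℤ) * t - v * w) →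
    (∃ r1 r2 r3 r4 : ℤ, r1 * w + r2 * t + r3 * (2 * u) + r4 * (2 * v) = 4) →
    ((PR2 X u v w t).card : ℝ) ≤ C * (X : ℝ) ^ ε := by
  obtain ⟨C1, hC1, h1⟩ := divb (ε / 4) (by positivity) 6
  obtain ⟨C2, hC2, h2⟩ := LB_small (ε / 4) (by positivity) 6
  refine ⟨C2 * C2 * C1 * C1, ?_, ?_⟩
  · have e1 : 1 ≤ C2 * C2 := by nlinarith
    have e2 : 1 ≤ C2 * C2 * C1 := by nlinarith
    nlinarith
  intro X u v w t hX hD hu ht hNP hG4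
  have hX1 : (1 : ℝ) ≤ X := by exact_mod_cast hX
  have hX0 : (0 : ℝ) < X := by linarith
  have hfix := PR2_fix (X := X) hD hNP hG4
  set Δ : ℕ := u * t - v * w with hΔ
  have hΔ0 : 0 < Δ := Nat.sub_pos_of_lt hD
  have hb : 2 * Δ ≤ (100 * X) ^ 6 := by
    calc 2 * Δ ≤ 2 * (u * t) := Nat.mul_le_mul_left _ (Nat.sub_le _ _)
      _ ≤ 2 * (X ^ 3 * X ^ 3) := Nat.mul_le_mul_left _ (Nat.mul_le_mul hu ht)
      _ = 2 * X ^ 6 := by ring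
      _ ≤ 100 ^ 6 * X ^ 6 := Nat.mul_le_mul_right _ (by norm_num)
      _ = (100 * X) ^ 6 := by ring
  have t1 : (((2 * Δ).divisors.card : ℕ) : ℝ) ≤ C1 * (X : ℝ) ^ (ε / 4) := by
    have h3 := h1 X ((2 * Δ : ℕ) : ℤ) hX (by exact_mod_cast (by omega : 2 * Δ ≠ 0)) (by
      rw [abs_of_nonneg (Int.natCast_nonneg _)]
      exact_mod_cast hb)
    rwa [Int.natAbs_natCast] at h3
  have tl : ((Nat.log 2 (2 * Δ) : ℝ) + 1) ≤ C2 * (X : ℝ) ^ (ε / 4) := by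
    have h3 := h2 X (2 * Δ) hX hb
    have h4 : ((Nat.log 2 (2 * Δ) : ℝ) + 1) ≤ (LB (2 * Δ) : ℝ) := by
      unfold LB
      push_cast
      have : (0 : ℝ) ≤ Nat.log 2 (2 * Δ) := Nat.cast_nonneg _
      linarith
    linarith
  have hfix' : ((PR2 X u v w t).card : ℝ) ≤ (((Nat.log 2 (2 * Δ) : ℝ) + 1) *
      ((Nat.log 2 (2 * Δ) : ℝ) + 1) * ((2 * Δ).divisors.card : ℝ)) *
      ((2 * Δ).divisors.card : ℝ) := by exact_mod_cast hfix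
  set Y : ℝ := (X : ℝ) ^ (ε / 4) with hY
  have hY0 : 0 ≤ Y := by positivity
  have hY4 : Y ^ 4 = (X : ℝ) ^ ε := by
    rw [hY, ← Real.rpow_natCast, ← Real.rpow_mul hX0.le]
    congr 1
    push_cast
    ring
  have p0 : (0 : ℝ) ≤ (Nat.log 2 (2 * Δ) : ℝ) + 1 := by positivity
  have p1 : (0 : ℝ) ≤ C2 * Y := by positivity
  have p2 : (0 : ℝ) ≤ C1 * Y := by positivity
  calc ((PR2 X u v w t).card : ℝ) ≤ _ := hfix'
    _ ≤ ((C2 * Y) * (C2 * Y) * (C1 * Y)) * (C1 * Y) := by gcongr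
    _ = C2 * C2 * C1 * C1 * Y ^ 4 := by ring
    _ = _ := by rw [hY4]

end Pool.EB3
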