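import Pool.Agent.H62.EB3.Cnc
import Pool.Agent.H62.EB3.Pell2

/-!
# Concordant forms `e^2 + (d c)^2`, `e^2 + (d a)^2`: representation and count
-/

set_option autoImplicit false

namespace Pool.EB3

open Finset

/-- splitting of `d` along a parametrisation -/
theorem split1 {d c e : ℕ} (hd : 0 < d) (hc : 0 < c) (he : 0 < e) (hg : Nat.gcd d e = 1)
    (h : ∃ f : ℕ, e ^ 2 + (d * c) ^ 2 = f ^ 2) :
    ∃ G k0 l0 z1 z2 s : ℕ, 0 < G ∧ 0 < k0 ∧ 0 < l0 ∧ 0 < z1 ∧ 0 < z2 ∧ s ∣ 2 ∧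
      Nat.Coprime z1 z2 ∧ d = z1 * z2 * s ∧ G * k0 * l0 = s * c ∧
      2 * e + G * (z2 * l0) ^ 2 = G * (z1 * k0) ^ 2 := by
  obtain ⟨f, hf⟩ := h
  obtain ⟨G, k, l, hG, hk, hl, hGkl, hGe, hcop⟩ := pyt he (Nat.mul_pos hd hc) hf
  have hGd : Nat.gcd d G ∣ 2 := by
    set g := Nat.gcd d G with hgd
    have hgG : g ∣ G := Nat.gcd_dvd_right _ _
    have hgd' : g ∣ d := Nat.gcd_dvd_left _ _
    have h2 : g ∣ 2 * e := by
      have h3 : g ∣ 2 * e + G * l ^ 2 := by rw [hGe]; exact Dvd.dvd.mul_right hgG _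
      exact (Nat.dvd_add_left (Dvd.dvd.mul_right hgG _)).mp h3
    have h4 : g ∣ Nat.gcd (2 * d) (2 * e) := Nat.dvd_gcd (Dvd.dvd.mul_left hgd' _) h2
    rw [Nat.gcd_mul_left, hg, mul_one] at h4
    exact h4
  set z1 := Nat.gcd d k with hz1
  set z2 := Nat.gcd d l with hz2
  have z1p : 0 < z1 := Nat.gcd_pos_of_pos_left _ hd
  have z2p : 0 < z2 := Nat.gcd_pos_of_pos_left _ hd
  have z1d : z1 ∣ d := Nat.gcd_dvd_left _ _
  have z2d : z2 ∣ d := Nat.gcd_dvd_left _ _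
  obtain ⟨k0, hk0⟩ : z1 ∣ k := Nat.gcd_dvd_right _ _
  obtain ⟨l0, hl0⟩ : z2 ∣ l := Nat.gcd_dvd_right _ _
  have hz12 : Nat.Coprime z1 z2 :=
    Nat.Coprime.coprime_dvd_left (Nat.gcd_dvd_right _ _)
      (Nat.Coprime.coprime_dvd_right (Nat.gcd_dvd_right _ _) hcop)
  obtain ⟨s, hs⟩ : z1 * z2 ∣ d := hz12.mul_dvd_of_dvd_of_dvd z1d z2d
  have hs2 : s ∣ 2 := by
    have r1 : d ∣ Nat.gcd d G * Nat.gcd d k * Nat.gcd d l := by
      apply gcd_row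
      rw [← hGkl]
      exact Dvd.dvd.mul_right (dvd_refl _) _
    rw [← hz1, ← hz2] at r1
    have r2 : (z1 * z2) * s ∣ (z1 * z2) * Nat.gcd d G := by
      rw [← hs]
      have : (z1 * z2) * Nat.gcd d G = Nat.gcd d G * z1 * z2 := by ring
      rw [this]; exact r1
    have r3 : s ∣ Nat.gcd d G := Nat.dvd_of_mul_dvd_mul_left (Nat.mul_pos z1p z2p) r2
    exact r3.trans hGd
  have hk0p : 0 < k0 := by
    rcases Nat.eq_zero_or_pos k0 with h0 | h0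
    · rw [h0, mul_zero] at hk0; omega
    · exact h0
  have hl0p : 0 < l0 := by
    rcases Nat.eq_zero_or_pos l0 with h0 | h0
    · rw [h0, mul_zero] at hl0; omega
    · exact h0
  refine ⟨G, k0, l0, z1, z2, s, hG, hk0p, hl0p, z1p, z2p, hs2, hz12, hs, ?_, ?_⟩
  · have h5 : (z1 * z2) * (G * k0 * l0) = (z1 * z2) * (s * c) := by
      calc (z1 * z2) * (G * k0 * l0) = G * (z1 * k0) * (z2 * l0) := by ring
        _ = d * c := by rw [← hk0, ← hl0, ← hGkl]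
        _ = (z1 * z2 * s) * c := by rw [← hs]
        _ = _ := by ring
    exact Nat.eq_of_mul_eq_mul_left (Nat.mul_pos z1p z2p) h5
  · rw [← hk0, ← hl0]; exact hGe

/-- two coprime splittings -/
theorem split2 {z x y s d : ℕ} (hz : z ∣ d) (hd : d = x * y * s) (hs : s ∣ 2)
    (hxy : Nat.Coprime x y) (hzp : 0 < z) : ∃ t : ℕ, t ∣ 2 ∧ z = Nat.gcd z x * Nat.gcd z y * t := by
  have c : Nat.Coprime (Nat.gcd z x) (Nat.gcd z y) :=
    Nat.Coprime.coprime_dvd_left (Nat.gcd_dvd_right _ _)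
      (Nat.Coprime.coprime_dvd_right (Nat.gcd_dvd_right _ _) hxy)
  obtain ⟨t, ht⟩ : Nat.gcd z x * Nat.gcd z y ∣ z :=
    c.mul_dvd_of_dvd_of_dvd (Nat.gcd_dvd_left _ _) (Nat.gcd_dvd_left _ _)
  refine ⟨t, ?_, ht⟩
  have r1 : z ∣ Nat.gcd z x * Nat.gcd z y * Nat.gcd z s := by
    apply gcd_row
    rw [← hd]; exact hz
  have gx : 0 < Nat.gcd z x := Nat.gcd_pos_of_pos_left _ hzp
  have gy : 0 < Nat.gcd z y := Nat.gcd_pos_of_pos_left _ hzp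
  have r2 : (Nat.gcd z x * Nat.gcd z y) * t ∣ (Nat.gcd z x * Nat.gcd z y) * Nat.gcd z s := by
    rw [← ht]; exact r1
  have r3 : t ∣ Nat.gcd z s := Nat.dvd_of_mul_dvd_mul_left (Nat.mul_pos gx gy) r2
  exact (r3.trans (Nat.gcd_dvd_right _ _)).trans hs

/-- the representation -/
theorem rep {d c a e : ℕ} (hd : 0 < d) (hc : 0 < c) (ha : 0 < a) (he : 0 < e)
    (hg : Nat.gcd d e = 1) (h1 : ∃ f : ℕ, e ^ 2 + (d * c) ^ 2 = f ^ 2)
    (h2 : ∃ f : ℕ, e ^ 2 + (d * a) ^ 2 = f ^ 2) :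
    ∃ (ka la ka' la' w α β γ η : ℕ), 0 < α ∧ 0 < β ∧ 0 < γ ∧ 0 < η ∧ w ∣ 8 ∧
      ka * la = w ^ 2 * c ^ 2 ∧ ka' * la' = w ^ 2 * a ^ 2 ∧ d = w * (α * β * γ * η) ∧
      2 * e + la * (γ * η) ^ 2 = ka * (α * β) ^ 2 ∧
      2 * e + la' * (β * η) ^ 2 = ka' * (α * γ) ^ 2 ∧
      Nat.Coprime β γ ∧ Nat.Coprime α η := by
  obtain ⟨G, k0, l0, z1, z2, s, hG, hk0, hl0, z1p, z2p, hs, hz, hds, hGc, hGe⟩ :=
    split1 hd hc he hg h1
  obtain ⟨G', k0', l0', z1', z2', s', hG', hk0', hl0', z1p', z2p', hs', hz', hds', hGc', hGe'⟩ :=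
    split1 hd ha he hg h2
  have z1d : z1 ∣ d := ⟨z2 * s, by rw [hds]; ring⟩
  have z2d : z2 ∣ d := ⟨z1 * s, by rw [hds]; ring⟩
  have z1d' : z1' ∣ d := ⟨z2' * s', by rw [hds']; ring⟩
  have z2d' : z2' ∣ d := ⟨z1' * s', by rw [hds']; ring⟩
  obtain ⟨t1, ht1, hz1⟩ := split2 z1d hds' hs' hz' z1p
  obtain ⟨t2, ht2, hz2⟩ := split2 z2d hds' hs' hz' z2p
  obtain ⟨t1', ht1', hz1'⟩ := split2 z1d' hds hs hz z1p'
  obtain ⟨t2', ht2', hz2'⟩ := split2 z2d' hds hs hz z2p'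
  rw [Nat.gcd_comm z1' z1, Nat.gcd_comm z1' z2] at hz1'
  rw [Nat.gcd_comm z2' z1, Nat.gcd_comm z2' z2] at hz2'
  set α := Nat.gcd z1 z1' with hα
  set β := Nat.gcd z1 z2' with hβ
  set γ := Nat.gcd z2 z1' with hγ
  set η := Nat.gcd z2 z2' with hη
  have αp : 0 < α := Nat.gcd_pos_of_pos_left _ z1p
  have βp : 0 < β := Nat.gcd_pos_of_pos_left _ z1p
  have γp : 0 < γ := Nat.gcd_pos_of_pos_left _ z2p
  have ηp : 0 < η := Nat.gcd_pos_of_pos_left _ z2p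
  have hw1 : d = (s * t1 * t2) * (α * β * γ * η) := by
    calc d = z1 * z2 * s := hds
      _ = (α * β * t1) * (γ * η * t2) * s := by rw [← hz1, ← hz2]
      _ = _ := by ring
  have hw2 : d = (s' * t1' * t2') * (α * β * γ * η) := by
    calc d = z1' * z2' * s' := hds'
      _ = (α * γ * t1') * (β * η * t2') * s' := by rw [← hz1', ← hz2']
      _ = _ := by ring
  have hww : s * t1 * t2 = s' * t1' * t2' := by
    have : (α * β * γ * η) * (s * t1 * t2) = (α * β * γ * η) * (s' * t1' * t2') := by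
      calc (α * β * γ * η) * (s * t1 * t2) = (s * t1 * t2) * (α * β * γ * η) := by ring
        _ = d := hw1.symm
        _ = (s' * t1' * t2') * (α * β * γ * η) := hw2
        _ = _ := by ring
    exact Nat.eq_of_mul_eq_mul_left (by positivity) this
  refine ⟨G * (t1 * k0) ^ 2, G * (t2 * l0) ^ 2, G' * (t1' * k0') ^ 2, G' * (t2' * l0') ^ 2,
    s * t1 * t2, α, β, γ, η, αp, βp, γp, ηp, ?_, ?_, ?_, hw1, ?_, ?_, ?_, ?_⟩
  · have : (8 : ℕ) = 2 * 2 * 2 := by norm_num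
    rw [this]
    exact Nat.mul_dvd_mul (Nat.mul_dvd_mul hs ht1) ht2
  · calc G * (t1 * k0) ^ 2 * (G * (t2 * l0) ^ 2) = (t1 * t2) ^ 2 * (G * k0 * l0) ^ 2 := by ring
      _ = (t1 * t2) ^ 2 * (s * c) ^ 2 := by rw [hGc]
      _ = _ := by ring
  · calc G' * (t1' * k0') ^ 2 * (G' * (t2' * l0') ^ 2) =
          (t1' * t2') ^ 2 * (G' * k0' * l0') ^ 2 := by ring
      _ = (t1' * t2') ^ 2 * (s' * a) ^ 2 := by rw [hGc']
      _ = (s' * t1' * t2') ^ 2 * a ^ 2 := by ring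
      _ = _ := by rw [← hww]
  · have e1 : G * (t2 * l0) ^ 2 * (γ * η) ^ 2 = G * (z2 * l0) ^ 2 := by
      conv_rhs => rw [hz2]
      ring
    have e2 : G * (t1 * k0) ^ 2 * (α * β) ^ 2 = G * (z1 * k0) ^ 2 := by
      conv_rhs => rw [hz1]
      ring
    rw [e1, e2]; exact hGe
  · have e1 : G' * (t2' * l0') ^ 2 * (β * η) ^ 2 = G' * (z2' * l0') ^ 2 := by
      conv_rhs => rw [hz2']
      ring
    have e2 : G' * (t1' * k0') ^ 2 * (α * γ) ^ 2 = G' * (z1' * k0') ^ 2 := by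
      conv_rhs => rw [hz1']
      ring
    rw [e1, e2]; exact hGe'
  · exact Nat.Coprime.coprime_dvd_left (Nat.gcd_dvd_left _ _)
      (Nat.Coprime.coprime_dvd_right (Nat.gcd_dvd_left _ _) hz)
  · exact Nat.Coprime.coprime_dvd_left (Nat.gcd_dvd_left _ _)
      (Nat.Coprime.coprime_dvd_right (Nat.gcd_dvd_left _ _) hz)

/-- the second descent -/
theorem rep2 {ka la ka' la' w α β γ η c a e : ℤ} (hαη : IsCoprime α η) (hβγ : IsCoprime β γ)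
    (hη : 0 < η) (hβ : 0 < β) (hγ : 0 < γ) (hw : w ≠ 0) (hla : 0 < la)
    (hka' : 0 < ka')
    (hca : c ^ 2 ≠ a ^ 2) (h1 : ka * la = w ^ 2 * c ^ 2) (h2 : ka' * la' = w ^ 2 * a ^ 2)
    (h3 : 2 * e + la * (γ * η) ^ 2 = ka * (α * β) ^ 2)
    (h4 : 2 * e + la' * (β * η) ^ 2 = ka' * (α * γ) ^ 2) :
    ∃ h h' : ℤ, h ≠ 0 ∧ h' ≠ 0 ∧ h * h' = w ^ 2 * (c ^ 2 - a ^ 2) ∧
      ka * β ^ 2 - ka' * γ ^ 2 = h * η ^ 2 ∧ la * γ ^ 2 - la' * β ^ 2 = h * α ^ 2 ∧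
      h' * β ^ 2 = la * η ^ 2 + ka' * α ^ 2 ∧ h' * γ ^ 2 = la' * η ^ 2 + ka * α ^ 2 := by
  have e1 : α ^ 2 * (ka * β ^ 2 - ka' * γ ^ 2) = η ^ 2 * (la * γ ^ 2 - la' * β ^ 2) := by
    linear_combination h4 - h3
  have c1 : IsCoprime (η ^ 2) (α ^ 2) := hαη.symm.pow
  have c2 : IsCoprime (β ^ 2) (γ ^ 2) := hβγ.pow
  obtain ⟨h, hh⟩ : η ^ 2 ∣ ka * β ^ 2 - ka' * γ ^ 2 :=
    c1.dvd_of_dvd_mul_left ⟨_, e1⟩
  have hη2 : η ^ 2 ≠ 0 := pow_ne_zero 2 hη.ne'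
  have hβ2 : β ^ 2 ≠ 0 := pow_ne_zero 2 hβ.ne'
  have hγ2 : γ ^ 2 ≠ 0 := pow_ne_zero 2 hγ.ne'
  have e2 : la * γ ^ 2 - la' * β ^ 2 = h * α ^ 2 := by
    rw [hh] at e1
    have : η ^ 2 * (la * γ ^ 2 - la' * β ^ 2) = η ^ 2 * (h * α ^ 2) := by
      rw [← e1]; ring
    exact mul_left_cancel₀ hη2 this
  set D := w ^ 2 * (c ^ 2 - a ^ 2) with hD
  have hD' : D = ka * la - ka' * la' := by rw [hD, h1, h2]; ring
  have hD0 : D ≠ 0 := by
    rw [hD]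
    exact mul_ne_zero (pow_ne_zero 2 hw) (sub_ne_zero.mpr hca)
  have e3 : D * β ^ 2 = h * (la * η ^ 2 + ka' * α ^ 2) := by
    rw [hD']
    linear_combination la * hh + ka' * e2
  have e4 : D * γ ^ 2 = h * (la' * η ^ 2 + ka * α ^ 2) := by
    rw [hD']
    linear_combination la' * hh + ka * e2
  have hdvd : h ∣ D := by
    obtain ⟨r, s, hrs⟩ := c2
    have : D = r * (D * β ^ 2) + s * (D * γ ^ 2) := by
      calc D = (r * β ^ 2 + s * γ ^ 2) * D := by rw [hrs, one_mul]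
        _ = _ := by ring
    rw [this, e3, e4]
    exact dvd_add (Dvd.dvd.mul_left (dvd_mul_right _ _) _)
      (Dvd.dvd.mul_left (dvd_mul_right _ _) _)
  obtain ⟨h', hh'⟩ := hdvd
  have hne : h ≠ 0 := by rintro rfl; rw [zero_mul] at hh'; exact hD0 hh'
  have hne' : h' ≠ 0 := by rintro rfl; rw [mul_zero] at hh'; exact hD0 hh'
  refine ⟨h, h', hne, hne', hh'.symm, ?_, e2, ?_, ?_⟩
  · rw [hh]; ring
  · have : h * (h' * β ^ 2) = h * (la * η ^ 2 + ka' * α ^ 2) := by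
      rw [← e3, hh']; ring
    exact mul_left_cancel₀ hne this
  · have : h * (h' * γ ^ 2) = h * (la' * η ^ 2 + ka * α ^ 2) := by
      rw [← e4, hh']; ring
    exact mul_left_cancel₀ hne this

end Pool.EB3
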