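import Pool.Agent.H62.EB3.Pell2

/-!
# The number of `z` with `(u z^2 - v)^2 + (w z^2 - t)^2` a square
-/

set_option autoImplicit false

namespace Pool.EB3

open Finset

open Classical in
noncomputable def SQ2 (N : ℕ) (u v w t : ℤ) : Finset ℕ :=
  (Icc 1 N).filter (fun z : ℕ =>
    IsSquare ((u * (z : ℤ) ^ 2 - v) ^ 2 + (w * (z : ℤ) ^ 2 - t) ^ 2))

/-- the two shapes -/
theorem shape {u v w t : ℤ} {z X K : ℕ} (hX : 1 ≤ X) (hz : z ≤ X) (hΔ : u * t - v * w ≠ 0)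
    (hu : |u| ≤ (100 * (X : ℤ)) ^ K) (hv : |v| ≤ (100 * (X : ℤ)) ^ K)
    (hw : |w| ≤ (100 * (X : ℤ)) ^ K) (ht : |t| ≤ (100 * (X : ℤ)) ^ K)
    (h : IsSquare ((u * (z : ℤ) ^ 2 - v) ^ 2 + (w * (z : ℤ) ^ 2 - t) ^ 2)) :
    ∃ k m n : ℤ, k ∣ u * t - v * w ∧ |m| ≤ (100 * (X : ℤ)) ^ (K + 3) ∧
      |n| ≤ (100 * (X : ℤ)) ^ (K + 3) ∧
      ((u * (z : ℤ) ^ 2 - v = k * (m ^ 2 - n ^ 2) ∧ w * (z : ℤ) ^ 2 - t = k * (2 * m * n)) ∨
       (u * (z : ℤ) ^ 2 - v = k * (2 * m * n) ∧ w * (z : ℤ) ^ 2 - t = k * (m ^ 2 - n ^ 2))) := by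
  obtain ⟨y, hy⟩ := h
  set x1 := u * (z : ℤ) ^ 2 - v with hx1
  set x2 := w * (z : ℤ) ^ 2 - t with hx2
  have hpt : PythagoreanTriple x1 x2 y := by
    unfold PythagoreanTriple
    rw [← hy]; ring
  obtain ⟨k, m, n, h1, h2⟩ := PythagoreanTriple.classification.mp hpt
  have hdet : u * t - v * w = w * x1 - u * x2 := by rw [hx1, hx2]; ring
  have hk : k ∣ u * t - v * w := by
    rw [hdet]
    rcases h1 with ⟨a, b⟩ | ⟨a, b⟩
    · rw [a, b]
      exact dvd_sub (Dvd.dvd.mul_left (dvd_mul_right _ _) _) (Dvd.dvd.mul_left (dvd_mul_right _ _) _)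
    · rw [a, b]
      exact dvd_sub (Dvd.dvd.mul_left (dvd_mul_right _ _) _) (Dvd.dvd.mul_left (dvd_mul_right _ _) _)
  have hk0 : k ≠ 0 := by
    rintro rfl
    exact hΔ (zero_dvd_iff.mp hk)
  have hX1 : (1 : ℤ) ≤ X := by exact_mod_cast hX
  set Q : ℤ := 100 * (X : ℤ) with hQ
  have hQ100 : 100 ≤ Q := by linarith
  have hzX : (z : ℤ) ≤ X := by exact_mod_cast hz
  have hz2 : (z : ℤ) ^ 2 ≤ Q ^ 2 := pow_le_pow_left₀ (Int.natCast_nonneg _) (by linarith) 2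
  have hz20 : (0 : ℤ) ≤ (z : ℤ) ^ 2 := sq_nonneg _
  have hQK : 0 ≤ Q ^ K := by positivity
  have bnd : ∀ a b : ℤ, |a| ≤ Q ^ K → |b| ≤ Q ^ K → |a * (z : ℤ) ^ 2 - b| ≤ 2 * Q ^ (K + 2) := by
    intro a b ha hb
    have e1 : |a * (z : ℤ) ^ 2| ≤ Q ^ K * Q ^ 2 := by
      rw [abs_mul, abs_of_nonneg hz20]
      exact mul_le_mul ha hz2 hz20 hQK
    have e2 : Q ^ K ≤ Q ^ K * Q ^ 2 := by
      have : 1 ≤ Q ^ 2 := one_le_pow₀ (by linarith)
      nlinarith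
    calc |a * (z : ℤ) ^ 2 - b| ≤ |a * (z : ℤ) ^ 2| + |b| := abs_sub _ _
      _ ≤ Q ^ K * Q ^ 2 + Q ^ K * Q ^ 2 := add_le_add e1 (hb.trans e2)
      _ = 2 * Q ^ (K + 2) := by ring
  have b1 := bnd u v hu hv
  have b2 := bnd w t hw ht
  have hy2 : |y| ≤ 4 * Q ^ (K + 2) := by
    apply abs_le_of_sq_le_sq _ (by positivity)
    have e1 : y ^ 2 = x1 ^ 2 + x2 ^ 2 := by rw [hy]; ring
    have e2 : x1 ^ 2 ≤ (2 * Q ^ (K + 2)) ^ 2 := sq_le_sq' (by linarith [(abs_le.mp b1).1])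
      (abs_le.mp b1).2
    have e3 : x2 ^ 2 ≤ (2 * Q ^ (K + 2)) ^ 2 := sq_le_sq' (by linarith [(abs_le.mp b2).1])
      (abs_le.mp b2).2
    rw [e1]
    nlinarith
  have hmn : m ^ 2 + n ^ 2 ≤ |y| := by
    have e1 : |y| = |k| * (m ^ 2 + n ^ 2) := by
      rcases h2 with h2 | h2
      · rw [h2, abs_mul, abs_of_nonneg (by positivity : 0 ≤ m ^ 2 + n ^ 2)]
      · rw [h2, abs_mul, abs_neg, abs_of_nonneg (by positivity : 0 ≤ m ^ 2 + n ^ 2)]
    rw [e1]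
    have : 1 ≤ |k| := Int.one_le_abs hk0
    nlinarith [sq_nonneg m, sq_nonneg n]
  have hfin : 4 * Q ^ (K + 2) ≤ Q ^ (K + 3) := by
    have : Q ^ (K + 3) = Q * Q ^ (K + 2) := by ring
    rw [this]
    have : 0 ≤ Q ^ (K + 2) := by positivity
    nlinarith
  have habs : ∀ a : ℤ, a ^ 2 ≤ Q ^ (K + 3) → |a| ≤ Q ^ (K + 3) := by
    intro a ha
    rcases eq_or_ne a 0 with h0 | h0
    · rw [h0, abs_zero]; positivity
    · have : |a| ≤ a ^ 2 := by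
        rw [← sq_abs]
        have := Int.one_le_abs h0
        nlinarith
      linarith
  refine ⟨k, m, n, hk, habs m ?_, habs n ?_, h1⟩
  · nlinarith [sq_nonneg n]
  · nlinarith [sq_nonneg m]

theorem SQ2_card (ε : ℝ) (hε : 0 < ε) (K : ℕ) : ∃ C : ℝ, 1 ≤ C ∧ ∀ (X N : ℕ) (u v w t : ℤ), 1 ≤ X →
    N ≤ X → u ≠ 0 → w ≠ 0 → u * t - v * w ≠ 0 → |u| ≤ (100 * (X : ℤ)) ^ K →
    |v| ≤ (100 * (X : ℤ)) ^ K → |w| ≤ (100 * (X : ℤ)) ^ K → |t| ≤ (100 * (X : ℤ)) ^ K →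
    ((SQ2 N u v w t).card : ℝ) ≤ C * (X : ℝ) ^ ε := by
  classical
  obtain ⟨C1, hC1, h1⟩ := divb (ε / 2) (by positivity) (2 * K + 1)
  obtain ⟨C2, hC2, h2⟩ := pell (ε / 2) (by positivity) (3 * K + 4)
  have hC12 : 1 ≤ C1 * C2 := by nlinarith
  refine ⟨4 * (C1 * C2), by linarith, fun X N u v w t hX hN hu0 hw0 hΔ hu hv hw ht => ?_⟩
  have hX1 : (1 : ℝ) ≤ X := by exact_mod_cast hX
  have hX0 : (0 : ℝ) < X := by linarith
  have hX1' : (1 : ℤ) ≤ X := by exact_mod_cast hX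
  set Δ := u * t - v * w with hΔd
  set Q : ℤ := 100 * (X : ℤ) with hQ
  have hQ100 : 100 ≤ Q := by linarith
  have hQ1 : 1 ≤ Q := by linarith
  have hQK : 0 ≤ Q ^ K := by positivity
  have hΔb : |Δ| ≤ 2 * Q ^ (2 * K) := by
    calc |Δ| ≤ |u * t| + |v * w| := abs_sub _ _
      _ ≤ Q ^ K * Q ^ K + Q ^ K * Q ^ K := by
          rw [abs_mul, abs_mul]
          exact add_le_add (mul_le_mul hu ht (abs_nonneg _) hQK)
            (mul_le_mul hv hw (abs_nonneg _) hQK)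
      _ = 2 * Q ^ (2 * K) := by ring
  have hΔb' : |Δ| ≤ Q ^ (2 * K + 1) := by
    refine hΔb.trans ?_
    have : Q ^ (2 * K + 1) = Q * Q ^ (2 * K) := by ring
    rw [this]
    have : 0 ≤ Q ^ (2 * K) := by positivity
    nlinarith
  have hτ := h1 X Δ hX hΔ hΔb'
  set D : ℕ := (u ^ 2 + w ^ 2).natAbs with hD
  have hDz : (D : ℤ) = u ^ 2 + w ^ 2 := Int.natAbs_of_nonneg (by positivity)
  have hD0 : 0 < D := by
    have : (0 : ℤ) < D := by rw [hDz]; positivity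
    exact_mod_cast this
  have hQmono : ∀ a b : ℕ, a ≤ b → Q ^ a ≤ Q ^ b := fun a b hab => pow_le_pow_right₀ hQ1 hab
  have hDb : D ≤ (100 * X) ^ (3 * K + 4) := by
    have e1 : (D : ℤ) ≤ Q ^ (3 * K + 4) := by
      rw [hDz]
      have e2 : u ^ 2 ≤ (Q ^ K) ^ 2 := by rw [← sq_abs]; exact pow_le_pow_left₀ (abs_nonneg _) hu 2
      have e3 : w ^ 2 ≤ (Q ^ K) ^ 2 := by rw [← sq_abs]; exact pow_le_pow_left₀ (abs_nonneg _) hw 2
      have e4 : (Q ^ K) ^ 2 = Q ^ (2 * K) := by ring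
      have e5 : 2 * Q ^ (2 * K) ≤ Q ^ (2 * K + 1) := by
        have : Q ^ (2 * K + 1) = Q * Q ^ (2 * K) := by ring
        rw [this]
        have : 0 ≤ Q ^ (2 * K) := by positivity
        nlinarith
      have e6 := hQmono (2 * K + 1) (3 * K + 4) (by omega)
      rw [e4] at e2 e3
      linarith
    have e2 : ((D : ℕ) : ℤ) ≤ (((100 * X) ^ (3 * K + 4) : ℕ) : ℤ) := by
      push_cast; exact e1
    exact_mod_cast e2
  set T : Finset ℤ := Δ.natAbs.divisors.image (fun n : ℕ => (n : ℤ)) ∪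
    Δ.natAbs.divisors.image (fun n : ℕ => -(n : ℤ)) with hT
  have hTc : (T.card : ℝ) ≤ 2 * (C1 * (X : ℝ) ^ (ε / 2)) := by
    have e1 : T.card ≤ Δ.natAbs.divisors.card + Δ.natAbs.divisors.card :=
      (Finset.card_union_le _ _).trans (Nat.add_le_add Finset.card_image_le Finset.card_image_le)
    have e2 : (T.card : ℝ) ≤ Δ.natAbs.divisors.card + Δ.natAbs.divisors.card := by
      exact_mod_cast e1
    linarith
  have hTmem : ∀ k : ℤ, k ∣ Δ → k ∈ T := by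
    intro k hk
    have h3 : k.natAbs ∈ Δ.natAbs.divisors := by
      rw [Nat.mem_divisors]
      exact ⟨Int.natAbs_dvd_natAbs.mpr hk, Int.natAbs_ne_zero.mpr hΔ⟩
    rw [hT, Finset.mem_union, Finset.mem_image, Finset.mem_image]
    rcases Int.natAbs_eq k with h4 | h4
    · left; exact ⟨k.natAbs, h3, h4.symm⟩
    · right; exact ⟨k.natAbs, h3, h4.symm⟩
  set S := SQ2 N u v w t with hS
  let PA : ℤ → ℕ → ℤ → ℤ → Prop := fun k z m n =>
    |m| ≤ Q ^ (K + 3) ∧ |n| ≤ Q ^ (K + 3) ∧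
    u * (z : ℤ) ^ 2 - v = k * (m ^ 2 - n ^ 2) ∧ w * (z : ℤ) ^ 2 - t = k * (2 * m * n)
  let PB : ℤ → ℕ → ℤ → ℤ → Prop := fun k z m n =>
    |m| ≤ Q ^ (K + 3) ∧ |n| ≤ Q ^ (K + 3) ∧
    u * (z : ℤ) ^ 2 - v = k * (2 * m * n) ∧ w * (z : ℤ) ^ 2 - t = k * (m ^ 2 - n ^ 2)
  set SA : ℤ → Finset ℕ := fun k => S.filter (fun z => ∃ m n, PA k z m n) with hSA
  set SB : ℤ → Finset ℕ := fun k => S.filter (fun z => ∃ m n, PB k z m n) with hSB
  have hcover : S ⊆ T.biUnion (fun k => SA k ∪ SB k) := by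
    intro z hz
    have hz' := hz
    rw [hS] at hz'
    unfold SQ2 at hz'
    rw [Finset.mem_filter, Finset.mem_Icc] at hz'
    obtain ⟨k, m, n, g1, g2, g3, g4⟩ := shape hX (hz'.1.2.trans hN) hΔ hu hv hw ht hz'.2
    rw [Finset.mem_biUnion]
    refine ⟨k, hTmem k g1, ?_⟩
    rcases g4 with g4 | g4
    · exact Finset.mem_union_left _ (Finset.mem_filter.mpr ⟨hz, m, n, g2, g3, g4.1, g4.2⟩)
    · exact Finset.mem_union_right _ (Finset.mem_filter.mpr ⟨hz, m, n, g2, g3, g4.1, g4.2⟩)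
  have lin : ∀ a b m n : ℤ, |a| ≤ Q ^ K → |b| ≤ Q ^ K → |m| ≤ Q ^ (K + 3) → |n| ≤ Q ^ (K + 3) →
      |a * m - b * n| ≤ Q ^ (3 * K + 4) := by
    intro a b m n ha hb hm hn
    have e0 : 0 ≤ Q ^ (K + 3) := by positivity
    calc |a * m - b * n| ≤ |a * m| + |b * n| := abs_sub _ _
      _ ≤ Q ^ K * Q ^ (K + 3) + Q ^ K * Q ^ (K + 3) := by
          rw [abs_mul, abs_mul]
          exact add_le_add (mul_le_mul ha hm (abs_nonneg _) hQK)
            (mul_le_mul hb hn (abs_nonneg _) hQK)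
      _ = 2 * Q ^ (2 * K + 3) := by ring
      _ ≤ Q ^ (2 * K + 4) := by
          have : Q ^ (2 * K + 4) = Q * Q ^ (2 * K + 3) := by ring
          rw [this]
          have : 0 ≤ Q ^ (2 * K + 3) := by positivity
          nlinarith
      _ ≤ _ := hQmono _ _ (by omega)
  -- the size of the right side
  have rhs : ∀ a k δ : ℤ, |a| ≤ Q ^ K → Δ = k * δ → |a * δ| ≤ Q ^ (3 * K + 4) := by
    intro a k δ ha hkδ
    have hk0 : k ≠ 0 := by rintro rfl; rw [zero_mul] at hkδ; exact hΔ hkδ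
    have e1 : |δ| ≤ |Δ| := by
      rw [hkδ, abs_mul]
      have : 1 ≤ |k| := Int.one_le_abs hk0
      nlinarith [abs_nonneg δ]
    calc |a * δ| = |a| * |δ| := abs_mul _ _
      _ ≤ Q ^ K * Q ^ (2 * K + 1) := mul_le_mul ha (e1.trans hΔb') (abs_nonneg _) hQK
      _ = Q ^ (3 * K + 1) := by ring
      _ ≤ _ := hQmono _ _ (by omega)
  have hA : ∀ k : ℤ, ((SA k).card : ℝ) ≤ C2 * (X : ℝ) ^ (ε / 2) := by
    intro k
    have hex : ∀ z : ℕ, ∃ mn : ℤ × ℤ, z ∈ SA k → PA k z mn.1 mn.2 := by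
      intro z
      by_cases hz : z ∈ SA k
      · obtain ⟨m, n, hmn⟩ := (Finset.mem_filter.mp hz).2
        exact ⟨(m, n), fun _ => hmn⟩
      · exact ⟨(0, 0), fun h => absurd h hz⟩
    choose mn hmn using hex
    rcases (SA k).eq_empty_or_nonempty with h0 | ⟨z0, hz0⟩
    · rw [h0, Finset.card_empty]; push_cast; positivity
    obtain ⟨_, _, z3, z4⟩ := hmn z0 hz0
    set δ : ℤ := w * ((mn z0).1 ^ 2 - (mn z0).2 ^ 2) - u * (2 * (mn z0).1 * (mn z0).2) with hδ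
    have hkδ : Δ = k * δ := by
      have : Δ = w * (u * (z0 : ℤ) ^ 2 - v) - u * (w * (z0 : ℤ) ^ 2 - t) := by rw [hΔd]; ring
      rw [this, z3, z4, hδ]; ring
    have hk0 : k ≠ 0 := by rintro rfl; rw [zero_mul] at hkδ; exact hΔ hkδ
    have hδ0 : δ ≠ 0 := by intro h; rw [h, mul_zero] at hkδ; exact hΔ hkδ
    set φ : ℕ → ℤ × ℤ := fun z => (w * (mn z).1 - u * (mn z).2, (mn z).2) with hφ
    have hinj : Set.InjOn φ (SA k) := by
      intro z hz z' hz' heq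
      obtain ⟨_, _, a3, a4⟩ := hmn z hz
      obtain ⟨_, _, b3, b4⟩ := hmn z' hz'
      have heq' : φ z = φ z' := heq
      have e1 : w * (mn z).1 - u * (mn z).2 = w * (mn z').1 - u * (mn z').2 :=
        (Prod.ext_iff.mp heq').1
      have e2 : (mn z).2 = (mn z').2 := (Prod.ext_iff.mp heq').2
      have e3 : (mn z).1 = (mn z').1 := by
        rw [e2] at e1
        exact mul_left_cancel₀ hw0 (by linarith)
      have e4 : w * (z : ℤ) ^ 2 = w * (z' : ℤ) ^ 2 := by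
        rw [e2, e3, ← b4] at a4
        linarith
      have e5 : (z : ℤ) ^ 2 = (z' : ℤ) ^ 2 := mul_left_cancel₀ hw0 e4
      have e6 : z ^ 2 = z' ^ 2 := by exact_mod_cast e5
      exact Nat.pow_left_injective (n := 2) (by norm_num) e6
    rw [← Finset.card_image_of_injOn hinj]
    apply h2 X D (w * δ) hX hD0 (mul_ne_zero hw0 hδ0) hDb (rhs w k δ hw hkδ)
    intro v' hv'
    rw [Finset.mem_image] at hv'
    obtain ⟨z, hz, rfl⟩ := hv'
    obtain ⟨a1, a2, a3, a4⟩ := hmn z hz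
    refine ⟨?_, lin w u _ _ hw hu a1 a2, a2.trans (hQmono _ _ (by omega))⟩
    have e1 : Δ = k * (w * ((mn z).1 ^ 2 - (mn z).2 ^ 2) - u * (2 * (mn z).1 * (mn z).2)) := by
      have : Δ = w * (u * (z : ℤ) ^ 2 - v) - u * (w * (z : ℤ) ^ 2 - t) := by rw [hΔd]; ring
      rw [this, a3, a4]; ring
    have e2 : w * ((mn z).1 ^ 2 - (mn z).2 ^ 2) - u * (2 * (mn z).1 * (mn z).2) = δ :=
      mul_left_cancel₀ hk0 (e1.symm.trans hkδ)
    rw [hDz]
    show (w * (mn z).1 - u * (mn z).2) ^ 2 - (u ^ 2 + w ^ 2) * (mn z).2 ^ 2 = w * δ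
    rw [← e2]; ring
  have hB : ∀ k : ℤ, ((SB k).card : ℝ) ≤ C2 * (X : ℝ) ^ (ε / 2) := by
    intro k
    have hex : ∀ z : ℕ, ∃ mn : ℤ × ℤ, z ∈ SB k → PB k z mn.1 mn.2 := by
      intro z
      by_cases hz : z ∈ SB k
      · obtain ⟨m, n, hmn⟩ := (Finset.mem_filter.mp hz).2
        exact ⟨(m, n), fun _ => hmn⟩
      · exact ⟨(0, 0), fun h => absurd h hz⟩
    choose mn hmn using hex
    rcases (SB k).eq_empty_or_nonempty with h0 | ⟨z0, hz0⟩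
    · rw [h0, Finset.card_empty]; push_cast; positivity
    obtain ⟨_, _, z3, z4⟩ := hmn z0 hz0
    set δ : ℤ := w * (2 * (mn z0).1 * (mn z0).2) - u * ((mn z0).1 ^ 2 - (mn z0).2 ^ 2) with hδ
    have hkδ : Δ = k * δ := by
      have : Δ = w * (u * (z0 : ℤ) ^ 2 - v) - u * (w * (z0 : ℤ) ^ 2 - t) := by rw [hΔd]; ring
      rw [this, z3, z4, hδ]; ring
    have hk0 : k ≠ 0 := by rintro rfl; rw [zero_mul] at hkδ; exact hΔ hkδ
    have hδ0 : δ ≠ 0 := by intro h; rw [h, mul_zero] at hkδ; exact hΔ hkδ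
    set φ : ℕ → ℤ × ℤ := fun z => (u * (mn z).1 - w * (mn z).2, (mn z).2) with hφ
    have hinj : Set.InjOn φ (SB k) := by
      intro z hz z' hz' heq
      obtain ⟨_, _, a3, a4⟩ := hmn z hz
      obtain ⟨_, _, b3, b4⟩ := hmn z' hz'
      have heq' : φ z = φ z' := heq
      have e1 : u * (mn z).1 - w * (mn z).2 = u * (mn z').1 - w * (mn z').2 :=
        (Prod.ext_iff.mp heq').1
      have e2 : (mn z).2 = (mn z').2 := (Prod.ext_iff.mp heq').2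
      have e3 : (mn z).1 = (mn z').1 := by
        rw [e2] at e1
        exact mul_left_cancel₀ hu0 (by linarith)
      have e4 : w * (z : ℤ) ^ 2 = w * (z' : ℤ) ^ 2 := by
        rw [e2, e3, ← b4] at a4
        linarith
      have e5 : (z : ℤ) ^ 2 = (z' : ℤ) ^ 2 := mul_left_cancel₀ hw0 e4
      have e6 : z ^ 2 = z' ^ 2 := by exact_mod_cast e5
      exact Nat.pow_left_injective (n := 2) (by norm_num) e6
    rw [← Finset.card_image_of_injOn hinj]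
    have hb := rhs (-u) k δ (by rw [abs_neg]; exact hu) hkδ
    apply h2 X D (-u * δ) hX hD0 (mul_ne_zero (neg_ne_zero.mpr hu0) hδ0) hDb hb
    intro v' hv'
    rw [Finset.mem_image] at hv'
    obtain ⟨z, hz, rfl⟩ := hv'
    obtain ⟨a1, a2, a3, a4⟩ := hmn z hz
    refine ⟨?_, lin u w _ _ hu hw a1 a2, a2.trans (hQmono _ _ (by omega))⟩
    have e1 : Δ = k * (w * (2 * (mn z).1 * (mn z).2) - u * ((mn z).1 ^ 2 - (mn z).2 ^ 2)) := by
      have : Δ = w * (u * (z : ℤ) ^ 2 - v) - u * (w * (z : ℤ) ^ 2 - t) := by rw [hΔd]; ring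
      rw [this, a3, a4]; ring
    have e2 : w * (2 * (mn z).1 * (mn z).2) - u * ((mn z).1 ^ 2 - (mn z).2 ^ 2) = δ :=
      mul_left_cancel₀ hk0 (e1.symm.trans hkδ)
    rw [hDz]
    show (u * (mn z).1 - w * (mn z).2) ^ 2 - (u ^ 2 + w ^ 2) * (mn z).2 ^ 2 = -u * δ
    rw [← e2]; ring
  have hAB : ∀ k ∈ T, (((SA k ∪ SB k).card : ℕ) : ℝ) ≤ 2 * (C2 * (X : ℝ) ^ (ε / 2)) := by
    intro k _
    have e1 : (((SA k ∪ SB k).card : ℕ) : ℝ) ≤ (SA k).card + (SB k).card := by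
      exact_mod_cast Finset.card_union_le _ _
    have := hA k
    have := hB k
    linarith
  have hfin := card_bi' T (fun k => SA k ∪ SB k) _ hAB
  have hSc : (S.card : ℝ) ≤ ((T.biUnion (fun k => SA k ∪ SB k)).card : ℝ) := by
    exact_mod_cast Finset.card_le_card hcover
  have hee : (X : ℝ) ^ (ε / 2) * (X : ℝ) ^ (ε / 2) = (X : ℝ) ^ ε := by
    rw [← Real.rpow_add hX0]; congr 1; ring
  have hC2' : 0 ≤ C2 := by linarith
  calc (S.card : ℝ) ≤ _ := hSc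
    _ ≤ _ := hfin
    _ ≤ (2 * (C1 * (X : ℝ) ^ (ε / 2))) * (2 * (C2 * (X : ℝ) ^ (ε / 2))) :=
        mul_le_mul_of_nonneg_right hTc (by positivity)
    _ = 4 * (C1 * C2) * ((X : ℝ) ^ (ε / 2) * (X : ℝ) ^ (ε / 2)) := by ring
    _ = _ := by rw [hee]

end Pool.EB3
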