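import Pool.Agent.H62.EB3.Prs
import Pool.Agent.H62.EB3.Two
import Pool.Agent.H62.EB3.Ext
import Pool.Agent.H62.EB3.Cf

/-!
# The covering sets of primitive three dimensional bricks, and their sizes
-/

set_option autoImplicit false

namespace Pool.EB3

open Finset

theorem sum_inv_sqrt (M : ℕ) : ∑ m ∈ Icc 1 M, (1 : ℝ) / Real.sqrt m ≤ 2 * Real.sqrt M := by
  induction M with
  | zero => simp
  | succ n ih =>
    rw [Finset.sum_Icc_succ_top (by omega)]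
    have h1 : 0 < Real.sqrt ((n + 1 : ℕ) : ℝ) := Real.sqrt_pos.mpr (by positivity)
    have h2 : 0 ≤ Real.sqrt (n : ℝ) := Real.sqrt_nonneg _
    have h3 : Real.sqrt ((n + 1 : ℕ) : ℝ) ^ 2 = n + 1 := by
      rw [Real.sq_sqrt (by positivity)]; push_cast; ring
    have h4 : Real.sqrt (n : ℝ) ^ 2 = n := Real.sq_sqrt (Nat.cast_nonneg _)
    have h5 : (1 : ℝ) / Real.sqrt ((n + 1 : ℕ) : ℝ) ≤
        2 * Real.sqrt ((n + 1 : ℕ) : ℝ) - 2 * Real.sqrt n := by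
      rw [div_le_iff₀ h1]
      nlinarith [sq_nonneg (Real.sqrt ((n + 1 : ℕ) : ℝ) - Real.sqrt n)]
    linarith

theorem small5 {m X : ℕ} (h : m ^ 5 ≤ 256 * X ^ 4) : (m : ℝ) ≤ 4 * (X : ℝ) ^ (4 / 5 : ℝ) := by
  have hX0 : (0 : ℝ) ≤ X := Nat.cast_nonneg _
  refine le_of_pow_le_pow_left₀ (n := 5) (by norm_num) (by positivity) ?_
  have h1 : (m : ℝ) ^ 5 ≤ 256 * (X : ℝ) ^ 4 := by exact_mod_cast h
  have h2 : (4 * (X : ℝ) ^ (4 / 5 : ℝ)) ^ 5 = 1024 * (X : ℝ) ^ 4 := by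
    rw [mul_pow, ← Real.rpow_natCast ((X : ℝ) ^ (4 / 5 : ℝ)), ← Real.rpow_mul hX0]
    norm_num
  rw [h2]
  have : (0 : ℝ) ≤ (X : ℝ) ^ 4 := by positivity
  linarith

theorem card5 (X : ℕ) (K : ℕ) (hK : K ≤ 256) :
    ((((Icc 1 X).filter (fun m => m ^ 5 ≤ K * X ^ 4)).card : ℕ) : ℝ) ≤
      4 * (X : ℝ) ^ (4 / 5 : ℝ) := by
  have h3 : (Icc 1 X).filter (fun m => m ^ 5 ≤ K * X ^ 4) ⊆
      Icc 1 ⌊4 * (X : ℝ) ^ (4 / 5 : ℝ)⌋₊ := by
    intro m hm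
    rw [Finset.mem_filter, Finset.mem_Icc] at hm
    rw [Finset.mem_Icc]
    exact ⟨hm.1.1, Nat.le_floor (small5 (hm.2.trans (Nat.mul_le_mul_right _ hK)))⟩
  have h4 := Finset.card_le_card h3
  rw [Nat.card_Icc, Nat.add_sub_cancel] at h4
  calc _ ≤ (⌊4 * (X : ℝ) ^ (4 / 5 : ℝ)⌋₊ : ℝ) := by exact_mod_cast h4
    _ ≤ _ := Nat.floor_le (by positivity)

/-- the divisor data -/
def DD (m : ℕ) : Finset (Fin 6 → ℕ) := Fintype.piFinset (fun _ => m.divisors)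

theorem mem_DD {m E p q F r s : ℕ} (hm : 1 ≤ m) (h1 : m = E * p * q) (h2 : m = F * r * s) :
    ![E, p, q, F, r, s] ∈ DD m := by
  unfold DD
  rw [Fintype.mem_piFinset]
  have hm0 : m ≠ 0 := by omega
  intro i
  rw [Nat.mem_divisors]
  refine ⟨?_, hm0⟩
  fin_cases i
  · show E ∣ m
    exact ⟨p * q, by rw [h1]; ring⟩
  · show p ∣ m
    exact ⟨E * q, by rw [h1]; ring⟩
  · show q ∣ m
    exact ⟨E * p, by rw [h1]; ring⟩
  · show F ∣ m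
    exact ⟨r * s, by rw [h2]; ring⟩
  · show r ∣ m
    exact ⟨F * s, by rw [h2]; ring⟩
  · show s ∣ m
    exact ⟨F * r, by rw [h2]; ring⟩

theorem DD_le {m X : ℕ} (hm : m ≤ X) {d : Fin 6 → ℕ} (hd : d ∈ DD m) : ∀ i, d i ≤ X := by
  unfold DD at hd
  rw [Fintype.mem_piFinset] at hd
  intro i
  exact (Nat.divisor_le (hd i)).trans hm

theorem pi_card (k : ℕ) (ε : ℝ) (hε : 0 < ε) : ∃ C : ℝ, 1 ≤ C ∧ ∀ m X : ℕ, 1 ≤ m → m ≤ X →
    ((m.divisors.card ^ k : ℕ) : ℝ) ≤ C * (X : ℝ) ^ ε := by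
  obtain ⟨C, hC, h⟩ := Pool.Agent.H93.BT.divisor_bound (ε / (k + 1)) (by positivity)
  refine ⟨C ^ k, one_le_pow₀ hC, fun m X hm hmX => ?_⟩
  have h2 := h m (by omega)
  have h3 : (m : ℝ) ^ (ε / (k + 1)) ≤ (X : ℝ) ^ (ε / (k + 1)) :=
    Real.rpow_le_rpow (Nat.cast_nonneg _) (by exact_mod_cast hmX) (by positivity)
  have hX1 : (1 : ℝ) ≤ X := by exact_mod_cast (hm.trans hmX)
  have hX0 : (0 : ℝ) ≤ X := by linarith
  push_cast
  calc (m.divisors.card : ℝ) ^ k ≤ (C * (X : ℝ) ^ (ε / (k + 1))) ^ k :=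
        pow_le_pow_left₀ (Nat.cast_nonneg _)
          (h2.trans (mul_le_mul_of_nonneg_left h3 (by linarith))) k
    _ = C ^ k * ((X : ℝ) ^ (ε / (k + 1))) ^ k := by ring
    _ ≤ C ^ k * (X : ℝ) ^ ε := by
        apply mul_le_mul_of_nonneg_left _ (by positivity)
        rw [← Real.rpow_natCast ((X : ℝ) ^ (ε / (k + 1))), ← Real.rpow_mul hX0]
        apply Real.rpow_le_rpow_of_exponent_le hX1
        have hk : (0 : ℝ) ≤ k := Nat.cast_nonneg _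
        rw [div_mul_eq_mul_div, div_le_iff₀ (by positivity)]
        nlinarith

theorem DD_card (ε : ℝ) (hε : 0 < ε) : ∃ C : ℝ, 1 ≤ C ∧ ∀ m X : ℕ, 1 ≤ m → m ≤ X →
    ((DD m).card : ℝ) ≤ C * (X : ℝ) ^ ε := by
  obtain ⟨C, hC, h⟩ := pi_card 6 ε hε
  refine ⟨C, hC, fun m X hm hmX => ?_⟩
  have h1 : (DD m).card = m.divisors.card ^ 6 := by
    unfold DD
    rw [Fintype.card_piFinset_const]
  rw [h1]
  exact h m X hm hmX

/-! ## singles -/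

open Classical in
/-- type II, one variable -/
noncomputable def F2 (X m : ℕ) (d : Fin 6 → ℕ) : Finset (ℕ × ℕ × ℕ) :=
  if ((d 0 : ℤ) * (d 1 : ℤ) ^ 2) = 0 ∨ ((d 3 : ℤ) * (d 4 : ℤ) ^ 2) = 0 ∨
      ((d 0 : ℤ) * (d 1 : ℤ) ^ 2) * ((d 3 : ℤ) * (d 5 : ℤ) ^ 2) -
        ((d 0 : ℤ) * (d 2 : ℤ) ^ 2) * ((d 3 : ℤ) * (d 4 : ℤ) ^ 2) = 0 then ∅ else
  (SQ2 X ((d 0 : ℤ) * (d 1 : ℤ) ^ 2) ((d 0 : ℤ) * (d 2 : ℤ) ^ 2) ((d 3 : ℤ) * (d 4 : ℤ) ^ 2)
    ((d 3 : ℤ) * (d 5 : ℤ) ^ 2)).image (fun z : ℕ =>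
    (z * m, ((d 0 : ℤ) * ((z : ℤ) ^ 2 * (d 1 : ℤ) ^ 2 - (d 2 : ℤ) ^ 2)).natAbs / 2,
      ((d 3 : ℤ) * ((z : ℤ) ^ 2 * (d 4 : ℤ) ^ 2 - (d 5 : ℤ) ^ 2)).natAbs / 2))

/-- type II data -/
def IsT2 (c a b m z E p q F r s : ℕ) : Prop :=
  c = z * m ∧ m = E * p * q ∧ m = F * r * s ∧
  (2 * (a : ℤ)) ^ 2 = ((E : ℤ) * ((z : ℤ) ^ 2 * (p : ℤ) ^ 2 - (q : ℤ) ^ 2)) ^ 2 ∧
  (2 * (b : ℤ)) ^ 2 = ((F : ℤ) * ((z : ℤ) ^ 2 * (r : ℤ) ^ 2 - (s : ℤ) ^ 2)) ^ 2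

theorem cover2 {c a b m z E p q F r s X : ℕ} (h : IsT2 c a b m z E p q F r s)
    (hc : 0 < c) (hne : a ≠ b) (hz : 1 ≤ z) (hzX : z ≤ X)
    (hab : ∃ f : ℕ, a ^ 2 + b ^ 2 = f ^ 2) : (c, a, b) ∈ F2 X m ![E, p, q, F, r, s] := by
  classical
  obtain ⟨h1, h2, h3, h4, h5⟩ := h
  obtain ⟨f, hf⟩ := hab
  have hmE : (m : ℤ) = E * p * q := by exact_mod_cast h2
  have hmF : (m : ℤ) = F * r * s := by exact_mod_cast h3
  have hm0 : 0 < m := by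
    rcases Nat.eq_zero_or_pos m with h0 | h0
    · rw [h0, mul_zero] at h1; omega
    · exact h0
  have hm0' : (0 : ℤ) < m := by exact_mod_cast hm0
  set u : ℤ := (E : ℤ) * (p : ℤ) ^ 2 with hu
  set v : ℤ := (E : ℤ) * (q : ℤ) ^ 2 with hv
  set w : ℤ := (F : ℤ) * (r : ℤ) ^ 2 with hw
  set t : ℤ := (F : ℤ) * (s : ℤ) ^ 2 with ht
  have huv : u * v = (m : ℤ) ^ 2 := by rw [hmE, hu, hv]; ring
  have hwt : w * t = (m : ℤ) ^ 2 := by rw [hmF, hw, ht]; ring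
  have hu0 : 0 ≤ u := by positivity
  have hv0 : 0 ≤ v := by positivity
  have hw0 : 0 ≤ w := by positivity
  have ht0 : 0 ≤ t := by positivity
  have hm2 : (0 : ℤ) < (m : ℤ) ^ 2 := by positivity
  have hup : 0 < u := lt_of_le_of_ne hu0 (fun h0 => by rw [← h0, zero_mul] at huv; omega)
  have hvp : 0 < v := lt_of_le_of_ne hv0 (fun h0 => by rw [← h0, mul_zero] at huv; omega)
  have hwp : 0 < w := lt_of_le_of_ne hw0 (fun h0 => by rw [← h0, zero_mul] at hwt; omega)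
  have htp : 0 < t := lt_of_le_of_ne ht0 (fun h0 => by rw [← h0, mul_zero] at hwt; omega)
  have e1 : (E : ℤ) * ((z : ℤ) ^ 2 * (p : ℤ) ^ 2 - (q : ℤ) ^ 2) = u * (z : ℤ) ^ 2 - v := by
    rw [hu, hv]; ring
  have e2 : (F : ℤ) * ((z : ℤ) ^ 2 * (r : ℤ) ^ 2 - (s : ℤ) ^ 2) = w * (z : ℤ) ^ 2 - t := by
    rw [hw, ht]; ring
  have hW : u * t - v * w ≠ 0 := by
    intro h0
    have h7 : u * t = v * w := by linarith
    have h8 : u ^ 2 * t = w ^ 2 * t := by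
      calc u ^ 2 * t = u * (u * t) := by ring
        _ = u * (v * w) := by rw [h7]
        _ = (u * v) * w := by ring
        _ = (w * t) * w := by rw [huv, hwt]
        _ = _ := by ring
    have h9 : u ^ 2 = w ^ 2 := mul_right_cancel₀ htp.ne' h8
    have h10 : u = w := by
      have := abs_eq_abs.mpr (sq_eq_sq_iff_eq_or_eq_neg.mp h9)
      rwa [abs_of_pos hup, abs_of_pos hwp] at this
    have h11 : v = t := by
      have : u * v = u * t := by rw [huv, h10, hwt]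
      exact mul_left_cancel₀ hup.ne' this
    apply hne
    have h12 : (2 * (a : ℤ)) ^ 2 = (2 * (b : ℤ)) ^ 2 := by
      rw [h4, h5, e1, e2, h10, h11]
    have h13 : (2 * a) ^ 2 = (2 * b) ^ 2 := by exact_mod_cast h12
    have h14 : 2 * a = 2 * b := Nat.pow_left_injective (n := 2) (by norm_num) h13
    omega
  unfold F2
  rw [if_neg, Finset.mem_image]
  · refine ⟨z, ?_, ?_⟩
    · unfold SQ2
      rw [Finset.mem_filter, Finset.mem_Icc]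
      refine ⟨⟨hz, hzX⟩, 2 * (f : ℤ), ?_⟩
      have h6 : (a : ℤ) ^ 2 + (b : ℤ) ^ 2 = (f : ℤ) ^ 2 := by exact_mod_cast hf
      rw [e1] at h4
      rw [e2] at h5
      show (u * (z : ℤ) ^ 2 - v) ^ 2 + (w * (z : ℤ) ^ 2 - t) ^ 2 = 2 * (f : ℤ) * (2 * (f : ℤ))
      linear_combination 4 * h6 - h4 - h5
    · refine Prod.ext ?_ (Prod.ext ?_ ?_)
      · exact h1.symm
      · exact half h4
      · exact half h5
  · push Not
    exact ⟨hup.ne', hwp.ne', hW⟩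

theorem F2_card (ε : ℝ) (hε : 0 < ε) : ∃ C : ℝ, 1 ≤ C ∧ ∀ (X m : ℕ) (d : Fin 6 → ℕ), 1 ≤ X →
    (∀ i, d i ≤ X) → ((F2 X m d).card : ℝ) ≤ C * (X : ℝ) ^ ε := by
  classical
  obtain ⟨C, hC, h⟩ := SQ2_card ε hε 3
  refine ⟨C, hC, fun X m d hX hd => ?_⟩
  unfold F2
  split_ifs with h0
  · rw [Finset.card_empty]; push_cast; positivity
  · push Not at h0
    have hX0 : (0 : ℤ) ≤ X := Int.natCast_nonneg X
    have hb : ∀ i j, |(d i : ℤ) * (d j : ℤ) ^ 2| ≤ (100 * (X : ℤ)) ^ 3 := by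
      intro i j
      have e1 : (d j : ℤ) ^ 2 ≤ (X : ℤ) ^ 2 :=
        pow_le_pow_left₀ (Int.natCast_nonneg _) (by exact_mod_cast hd j) 2
      have e3 : (d i : ℤ) * (d j : ℤ) ^ 2 ≤ X * (X : ℤ) ^ 2 :=
        mul_le_mul (by exact_mod_cast hd i) e1 (sq_nonneg _) hX0
      rw [abs_of_nonneg (by positivity)]
      calc (d i : ℤ) * (d j : ℤ) ^ 2 ≤ X * (X : ℤ) ^ 2 := e3
        _ = 1 * (X : ℤ) ^ 3 := by ring
        _ ≤ 100 ^ 3 * (X : ℤ) ^ 3 := mul_le_mul_of_nonneg_right (by norm_num) (by positivity)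
        _ = _ := by ring
    have h1 := h X X _ _ _ _ hX le_rfl h0.1 h0.2.1 h0.2.2 (hb 0 1) (hb 0 2) (hb 3 4) (hb 3 5)
    refine le_trans ?_ h1
    exact_mod_cast Finset.card_image_le

open Classical in
noncomputable def SD (X : ℕ) : Finset (ℕ × ℕ × ℕ) :=
  ((Icc 1 X).filter (fun m => m ^ 5 ≤ 256 * X ^ 4)).biUnion (fun m => (DD m).biUnion (F2 X m))

/-! ## pairs -/

/-- conditions on the data of a pair -/
def Cond (u v w t : ℕ) : Prop := v * w < u * t ∧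
    (∀ p : ℕ, p.Prime → p ≠ 2 → (p : ℤ) ∣ (u : ℤ) ^ 2 + (w : ℤ) ^ 2 →
      (p : ℤ) ∣ (v : ℤ) ^ 2 + (t : ℤ) ^ 2 → ¬ (p : ℤ) ∣ (u : ℤ) * t - v * w) ∧
    (∃ r1 r2 r3 r4 : ℤ, r1 * w + r2 * t + r3 * (2 * u) + r4 * (2 * v) = 4)

open Classical in
/-- type II, a pair of variables; data `E, p0, q0, F, r0, s0` -/
noncomputable def F3 (X m : ℕ) (d : Fin 6 → ℕ) : Finset (ℕ × ℕ × ℕ) :=
  if Cond (d 0 * d 1 ^ 2) (d 0 * d 2 ^ 2) (d 3 * d 5 ^ 2) (d 3 * d 4 ^ 2) then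
  (PR2 X (d 0 * d 1 ^ 2) (d 0 * d 2 ^ 2) (d 3 * d 5 ^ 2) (d 3 * d 4 ^ 2)).image (fun z : ℕ × ℕ =>
    (z.1 * z.2 * m, (d 0 * d 1 ^ 2 * z.1 ^ 2 - d 0 * d 2 ^ 2 * z.2 ^ 2) / 2,
      (d 3 * d 4 ^ 2 * z.2 ^ 2 - d 3 * d 5 ^ 2 * z.1 ^ 2) / 2)) else ∅

theorem F3_card (ε : ℝ) (hε : 0 < ε) : ∃ C : ℝ, 1 ≤ C ∧ ∀ (X m : ℕ) (d : Fin 6 → ℕ), 1 ≤ X →
    (∀ i, d i ≤ X) → ((F3 X m d).card : ℝ) ≤ C * (X : ℝ) ^ ε := by
  classical
  obtain ⟨C, hC, h⟩ := PR2_card ε hε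
  refine ⟨C, hC, fun X m d hX hd => ?_⟩
  unfold F3
  split_ifs with h0
  · have hb : ∀ i j, d i * d j ^ 2 ≤ X ^ 3 := by
      intro i j
      calc d i * d j ^ 2 ≤ X * X ^ 2 := Nat.mul_le_mul (hd i) (Nat.pow_le_pow_left (hd j) 2)
        _ = X ^ 3 := by ring
    have h1 := h X _ _ _ _ hX h0.1 (hb 0 1) (hb 3 4) h0.2.1 h0.2.2
    refine le_trans ?_ h1
    exact_mod_cast Finset.card_image_le
  · rw [Finset.card_empty]; push_cast; positivity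

open Classical in
noncomputable def SC (X : ℕ) : Finset (ℕ × ℕ × ℕ) :=
  ((Icc 1 X).filter (fun m => m ^ 5 ≤ 8 * X ^ 4)).biUnion (fun m => (DD m).biUnion (F3 X m))

theorem gen_card (F : ℕ → ℕ → (Fin 6 → ℕ) → Finset (ℕ × ℕ × ℕ)) (K : ℕ) (hK : K ≤ 256)
    (hF : ∀ ε : ℝ, 0 < ε → ∃ C : ℝ, 1 ≤ C ∧ ∀ (X m : ℕ) (d : Fin 6 → ℕ), 1 ≤ X →
    (∀ i, d i ≤ X) → ((F X m d).card : ℝ) ≤ C * (X : ℝ) ^ ε) (ε : ℝ) (hε : 0 < ε) :
    ∃ C : ℝ, 1 ≤ C ∧ ∀ X : ℕ, 1 ≤ X →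
    (((((Icc 1 X).filter (fun m => m ^ 5 ≤ K * X ^ 4)).biUnion
      (fun m => (DD m).biUnion (F X m))).card : ℕ) : ℝ) ≤ C * (X : ℝ) ^ (4 / 5 + ε) := by
  classical
  obtain ⟨C1, hC1, h1⟩ := DD_card (ε / 2) (by positivity)
  obtain ⟨C2, hC2, h2⟩ := hF (ε / 2) (by positivity)
  refine ⟨4 * (C1 * C2), by nlinarith, fun X hX => ?_⟩
  have hX1 : (1 : ℝ) ≤ X := by exact_mod_cast hX
  have hX0 : (0 : ℝ) < X := by linarith
  have hTc := card5 X K hK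
  set T := (Icc 1 X).filter (fun m => m ^ 5 ≤ K * X ^ 4) with hT
  have h3 : (((T.biUnion (fun m => (DD m).biUnion (F X m))).card : ℕ) : ℝ) ≤ T.card *
      (C1 * (X : ℝ) ^ (ε / 2) * (C2 * (X : ℝ) ^ (ε / 2))) := by
    refine card_bi' _ _ _ fun m hm => ?_
    rw [hT, Finset.mem_filter, Finset.mem_Icc] at hm
    refine (card_bi' _ _ (C2 * (X : ℝ) ^ (ε / 2)) fun d hd => ?_).trans ?_
    · exact h2 X m d hX (DD_le hm.1.2 hd)
    · exact mul_le_mul_of_nonneg_right (h1 m X hm.1.1 hm.1.2) (by positivity)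
  have hee : (X : ℝ) ^ (ε / 2) * (X : ℝ) ^ (ε / 2) = (X : ℝ) ^ ε := by
    rw [← Real.rpow_add hX0]; congr 1; ring
  calc _ ≤ _ := h3
    _ ≤ (4 * (X : ℝ) ^ (4 / 5 : ℝ)) * (C1 * (X : ℝ) ^ (ε / 2) * (C2 * (X : ℝ) ^ (ε / 2))) :=
        mul_le_mul_of_nonneg_right hTc (by positivity)
    _ = 4 * (C1 * C2) * ((X : ℝ) ^ (4 / 5 : ℝ) * ((X : ℝ) ^ (ε / 2) * (X : ℝ) ^ (ε / 2))) := by
        ring
    _ = _ := by rw [hee, ← Real.rpow_add hX0]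

/-! ## faces -/

/-- second legs of a given leg -/
def fc (c : ℕ) : Finset ℕ :=
  (D3 c).image (fun t => ((t 0 : ℤ) * ((t 1 : ℤ) ^ 2 - (t 2 : ℤ) ^ 2)).natAbs / 2)

theorem mem_fc {c a : ℕ} (hc : 0 < c) (ha : 0 < a) (h : ∃ f : ℕ, a ^ 2 + c ^ 2 = f ^ 2) :
    a ∈ fc c := by
  obtain ⟨f, hf⟩ := h
  obtain ⟨E, p, q, hE, hp, hq, hEpq, hEa, _⟩ := pyt ha hc hf
  unfold fc
  rw [Finset.mem_image]
  refine ⟨![E, p, q], ?_, half (sqeq hEa)⟩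
  unfold D3
  rw [Fintype.mem_piFinset]
  intro i
  rw [Nat.mem_divisors]
  refine ⟨?_, hc.ne'⟩
  fin_cases i
  · show E ∣ c
    exact ⟨p * q, by rw [hEpq]; ring⟩
  · show p ∣ c
    exact ⟨E * q, by rw [hEpq]; ring⟩
  · show q ∣ c
    exact ⟨E * p, by rw [hEpq]; ring⟩

open Classical in
noncomputable def SA (X : ℕ) : Finset (ℕ × ℕ × ℕ) :=
  ((Icc 1 X).filter (fun c => c ^ 5 ≤ 8 * X ^ 4)).biUnion (fun c =>
    ((fc c).filter (fun a => 1 ≤ a ∧ a ≤ c ^ 2 ∧ Nat.Coprime c a ∧ Odd (c + a))).biUnion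
      (fun a => (CF X c a ∪ (if c ^ 2 ≤ 16 * X then TT X c a else ∅)).image
        (fun v => (v.1 * c, v.1 * a, v.2))))

theorem SA_card (ε : ℝ) (hε : 0 < ε) : ∃ C : ℝ, 1 ≤ C ∧ ∀ X : ℕ, 1 ≤ X →
    ((SA X).card : ℝ) ≤ C * (X : ℝ) ^ (4 / 5 + ε) := by
  classical
  obtain ⟨C1, hC1, h1⟩ := pi_card 3 (ε / 2) (by positivity)
  obtain ⟨C2, hC2, h2⟩ := CF_card (ε / 2) (by positivity)
  obtain ⟨C3, hC3, h3⟩ := TT_card (ε / 2) (by positivity)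
  refine ⟨4 * (C1 * C2) + 4 * (C1 * C3), by nlinarith, fun X hX => ?_⟩
  have hX1 : (1 : ℝ) ≤ X := by exact_mod_cast hX
  have hX0 : (0 : ℝ) < X := by linarith
  have hTc := card5 X 8 (by norm_num)
  set T := (Icc 1 X).filter (fun m => m ^ 5 ≤ 8 * X ^ 4) with hT
  set Y : ℝ := (X : ℝ) ^ (ε / 2) with hY
  have hY0 : 0 ≤ Y := by positivity
  set M : ℕ := Nat.sqrt (16 * X) with hM
  have hcard : ((SA X).card : ℝ) ≤ ∑ c ∈ T, (C1 * Y) * (C2 * Y +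
      (if c ≤ M then C3 * (Real.sqrt X * (1 / Real.sqrt c)) * Y else 0)) := by
    unfold SA
    rw [← hT]
    refine card_bi _ _ _ fun c hc => ?_
    rw [hT, Finset.mem_filter, Finset.mem_Icc] at hc
    have hc0 : (0 : ℝ) < c := by exact_mod_cast hc.1.1
    have hin : ∀ a ∈ (fc c).filter (fun a => 1 ≤ a ∧ a ≤ c ^ 2 ∧ Nat.Coprime c a ∧ Odd (c + a)),
        ((((CF X c a ∪ (if c ^ 2 ≤ 16 * X then TT X c a else ∅)).image
        (fun v => (v.1 * c, v.1 * a, v.2))).card : ℕ) : ℝ) ≤ C2 * Y +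
        (if c ≤ M then C3 * (Real.sqrt X * (1 / Real.sqrt c)) * Y else 0) := by
      intro a ha
      rw [Finset.mem_filter] at ha
      obtain ⟨_, a1, a2, a3, a4⟩ := ha
      have k1 : ((((CF X c a ∪ (if c ^ 2 ≤ 16 * X then TT X c a else ∅)).image
        (fun v => (v.1 * c, v.1 * a, v.2))).card : ℕ) : ℝ) ≤
          (CF X c a).card + ((if c ^ 2 ≤ 16 * X then TT X c a else ∅).card : ℕ) := by
        exact_mod_cast Finset.card_image_le.trans (Finset.card_union_le _ _)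
      have k2 := h2 X c a hX hc.1.1 hc.1.2 a1 a2 a3 a4
      have k3 : (((if c ^ 2 ≤ 16 * X then TT X c a else ∅).card : ℕ) : ℝ) ≤
          (if c ≤ M then C3 * (Real.sqrt X * (1 / Real.sqrt c)) * Y else 0) := by
        by_cases hcX : c ^ 2 ≤ 16 * X
        · have hcM : c ≤ M := by
            rw [hM, Nat.le_sqrt']
            exact hcX
          rw [if_pos hcX, if_pos hcM]
          have k4 := h3 X c a hX hc.1.1 hc.1.2 a2
          rw [Real.sqrt_div hX0.le] at k4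
          have : Real.sqrt X / Real.sqrt c = Real.sqrt X * (1 / Real.sqrt c) := by ring
          rwa [this] at k4
        · have hcM : ¬ c ≤ M := by
            rw [hM, Nat.le_sqrt']
            exact hcX
          rw [if_neg hcX, if_neg hcM]
          simp
      linarith
    refine (card_bi' _ _ _ hin).trans ?_
    apply mul_le_mul_of_nonneg_right
    · have k5 : (((fc c).filter (fun a => 1 ≤ a ∧ a ≤ c ^ 2 ∧ Nat.Coprime c a ∧
          Odd (c + a))).card : ℝ) ≤ ((c.divisors.card ^ 3 : ℕ) : ℝ) := by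
        have k6 : ((fc c).filter (fun a => 1 ≤ a ∧ a ≤ c ^ 2 ∧ Nat.Coprime c a ∧
          Odd (c + a))).card ≤ c.divisors.card ^ 3 := by
          refine (Finset.card_filter_le _ _).trans ?_
          unfold fc
          refine Finset.card_image_le.trans ?_
          unfold D3
          rw [Fintype.card_piFinset_const]
        exact_mod_cast k6
      exact k5.trans (h1 c X hc.1.1 hc.1.2)
    · split_ifs <;> positivity
  have hsum : ∑ c ∈ T, (C1 * Y) * (C2 * Y +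
      (if c ≤ M then C3 * (Real.sqrt X * (1 / Real.sqrt c)) * Y else 0)) ≤
      T.card * (C1 * C2 * (Y * Y)) +
      (C1 * C3) * (Y * Y) * (Real.sqrt X * (2 * Real.sqrt M)) := by
    have e1 : ∀ c ∈ T, (C1 * Y) * (C2 * Y +
      (if c ≤ M then C3 * (Real.sqrt X * (1 / Real.sqrt c)) * Y else 0)) =
        C1 * C2 * (Y * Y) + (C1 * C3) * (Y * Y) * (Real.sqrt X *
          (if c ≤ M then 1 / Real.sqrt c else 0)) := by
      intro c _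
      split_ifs <;> ring
    rw [Finset.sum_congr rfl e1, Finset.sum_add_distrib, Finset.sum_const, nsmul_eq_mul,
      ← Finset.mul_sum, ← Finset.mul_sum]
    have e2 : ∑ c ∈ T, (if c ≤ M then 1 / Real.sqrt (c : ℝ) else 0) ≤ 2 * Real.sqrt M := by
      rw [← Finset.sum_filter]
      calc ∑ c ∈ T.filter (fun c => c ≤ M), 1 / Real.sqrt (c : ℝ)
          ≤ ∑ c ∈ Icc 1 M, 1 / Real.sqrt (c : ℝ) := by
            apply Finset.sum_le_sum_of_subset_of_nonneg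
            · intro c hc
              rw [Finset.mem_filter, hT, Finset.mem_filter, Finset.mem_Icc] at hc
              rw [Finset.mem_Icc]
              exact ⟨hc.1.1.1, hc.2⟩
            · intro c _ _; positivity
        _ ≤ _ := sum_inv_sqrt M
    have e3 : (C1 * C3) * (Y * Y) * (Real.sqrt X *
        ∑ c ∈ T, (if c ≤ M then 1 / Real.sqrt (c : ℝ) else 0)) ≤
        (C1 * C3) * (Y * Y) * (Real.sqrt X * (2 * Real.sqrt M)) := by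
      apply mul_le_mul_of_nonneg_left _ (by positivity)
      exact mul_le_mul_of_nonneg_left e2 (Real.sqrt_nonneg _)
    linarith
  have hYY : Y * Y = (X : ℝ) ^ ε := by
    rw [hY, ← Real.rpow_add hX0]; congr 1; ring
  have hM2 : Real.sqrt X * (2 * Real.sqrt M) ≤ 4 * (X : ℝ) ^ (4 / 5 : ℝ) := by
    have e1 : (M : ℝ) ≤ 4 * Real.sqrt X := by
      have k1 : M ^ 2 ≤ 16 * X := by rw [hM]; exact Nat.sqrt_le' _
      have k2 : (M : ℝ) ^ 2 ≤ 16 * X := by exact_mod_cast k1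
      have k3 : (M : ℝ) ≤ Real.sqrt (16 * X) := Real.le_sqrt_of_sq_le k2
      rw [Real.sqrt_mul (by norm_num)] at k3
      have k4 : Real.sqrt 16 = 4 := by
        rw [show (16 : ℝ) = 4 ^ 2 by norm_num]; exact Real.sqrt_sq (by norm_num)
      rwa [k4] at k3
    have e2 : Real.sqrt M ≤ 2 * (X : ℝ) ^ (1 / 4 : ℝ) := by
      rw [Real.sqrt_le_left (by positivity)]
      have k1 : (2 * (X : ℝ) ^ (1 / 4 : ℝ)) ^ 2 =
          4 * ((X : ℝ) ^ (1 / 4 : ℝ) * (X : ℝ) ^ (1 / 4 : ℝ)) := by ring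
      have k2 : (X : ℝ) ^ (1 / 4 : ℝ) * (X : ℝ) ^ (1 / 4 : ℝ) = Real.sqrt X := by
        rw [Real.sqrt_eq_rpow, ← Real.rpow_add hX0]; norm_num
      rw [k1, k2]; exact e1
    calc Real.sqrt X * (2 * Real.sqrt M) ≤ Real.sqrt X * (2 * (2 * (X : ℝ) ^ (1 / 4 : ℝ))) := by
          apply mul_le_mul_of_nonneg_left _ (Real.sqrt_nonneg _)
          linarith
      _ = 4 * ((X : ℝ) ^ (1 / 2 : ℝ) * (X : ℝ) ^ (1 / 4 : ℝ)) := by
          rw [Real.sqrt_eq_rpow]; ring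
      _ = 4 * (X : ℝ) ^ (3 / 4 : ℝ) := by rw [← Real.rpow_add hX0]; norm_num
      _ ≤ 4 * (X : ℝ) ^ (4 / 5 : ℝ) := by
          apply mul_le_mul_of_nonneg_left _ (by norm_num)
          exact Real.rpow_le_rpow_of_exponent_le hX1 (by norm_num)
  calc ((SA X).card : ℝ) ≤ _ := hcard
    _ ≤ _ := hsum
    _ ≤ (4 * (X : ℝ) ^ (4 / 5 : ℝ)) * (C1 * C2 * (Y * Y)) +
        (C1 * C3) * (Y * Y) * (4 * (X : ℝ) ^ (4 / 5 : ℝ)) := by
        apply add_le_add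
        · exact mul_le_mul_of_nonneg_right hTc (by positivity)
        · exact mul_le_mul_of_nonneg_left hM2 (by positivity)
    _ = (4 * (C1 * C2) + 4 * (C1 * C3)) * ((X : ℝ) ^ (4 / 5 : ℝ) * (Y * Y)) := by ring
    _ = _ := by rw [hYY, ← Real.rpow_add hX0]

end Pool.EB3
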